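import Pool.Agent.Helper22.SC.Rec2
import Pool.Agent.Helper66.SC.Defs

/-! # Calculus of `CardLe` -/

namespace Pool.Agent.Helper22.SC

universe u

open ZFSet
open Pool.Agent.Helper66.SC (Fml Sat IsZF Cls sat_rn mem_Pow img mem_img tc CardLe WO oz Pow ST_K1
  ST_K2 ST_K3 ST_K4)

/-- The class of all transitive models of ZF in the expanded language. -/
abbrev KZ : Cls.{u} := fun M A => IsZF M A

/-! ### Graphs -/

theorem gr_isFunc {a b : ZFSet.{u}} {g : ZFSet.{u} → ZFSet.{u}} (h : ∀ x ∈ a, g x ∈ b) :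
    IsFunc a b (gr a g) := by
  refine ⟨fun z hz => ?_, fun x hx => ⟨g x, pair_mem_gr.2 ⟨hx, rfl⟩, fun y hy => (pair_mem_gr.1 hy).2⟩⟩
  obtain ⟨x, hx, rfl⟩ := mem_gr.1 hz
  exact pair_mem_prod.2 ⟨hx, h x hx⟩

theorem cardLe_of_gr {M : Set ZFSet.{u}} {a b : ZFSet.{u}} {g : ZFSet.{u} → ZFSet.{u}}
    (hg : gr a g ∈ M) (h : ∀ x ∈ a, g x ∈ b) (hi : ∀ x ∈ a, ∀ y ∈ a, g x = g y → x = y) :
    CardLe M a b := by
  refine ⟨gr a g, hg, gr_isFunc h, fun y hy y' hy' z h1 h2 => ?_⟩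
  exact hi y hy y' hy' ((pair_mem_gr.1 h1).2.symm.trans (pair_mem_gr.1 h2).2)

theorem isFunc_eq_gr {a b f : ZFSet.{u}} (h : IsFunc a b f) : f = gr a (SC.app f) := by
  ext z
  rw [mem_gr]
  have key : ∀ x y, ZFSet.pair x y ∈ f → SC.app f x = y := fun x y hxy => by
    have hx := (pair_mem_prod.1 (h.1 hxy)).1
    exact app_eq hxy (fun z hz => (h.2 x hx).unique hz hxy)
  constructor
  · intro hz
    obtain ⟨x, hx, y, hy, rfl⟩ := mem_prod.1 (h.1 hz)
    exact ⟨x, hx, by rw [key x y hz]⟩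
  · rintro ⟨x, hx, rfl⟩
    obtain ⟨y, hy, _⟩ := h.2 x hx
    have hy : ZFSet.pair x y ∈ f := hy
    rw [key x y hy]
    exact hy

theorem app_mem_of_isFunc {a b f x : ZFSet.{u}} (h : IsFunc a b f) (hx : x ∈ a) :
    SC.app f x ∈ b ∧ ZFSet.pair x (SC.app f x) ∈ f := by
  obtain ⟨y, hy, hy'⟩ := h.2 x hx
  have hy : ZFSet.pair x y ∈ f := hy
  have : SC.app f x = y := app_eq hy (fun z hz => (h.2 x hx).unique hz hy)
  rw [this]
  exact ⟨(pair_mem_prod.1 (h.1 hy)).2, hy⟩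

theorem cardLe_iff {M : Set ZFSet.{u}} {a b : ZFSet.{u}} : CardLe M a b ↔
    ∃ f ∈ M, gr a (SC.app f) = f ∧ (∀ x ∈ a, SC.app f x ∈ b) ∧
      ∀ x ∈ a, ∀ y ∈ a, SC.app f x = SC.app f y → x = y := by
  constructor
  · rintro ⟨f, hf, h1, h2⟩
    refine ⟨f, hf, (isFunc_eq_gr h1).symm, fun x hx => (app_mem_of_isFunc h1 hx).1, ?_⟩
    intro x hx y hy h
    refine h2 x hx y hy _ (app_mem_of_isFunc h1 hx).2 ?_
    rw [h]
    exact (app_mem_of_isFunc h1 hy).2
  · rintro ⟨f, hf, h1, h2, h3⟩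
    exact cardLe_of_gr (g := SC.app f) (by rw [h1]; exact hf) h2 h3

section K1

variable {M A : Set ZFSet.{u}}

theorem cardLe_subset (hM : IsZF M A) {a b : ZFSet.{u}} (ha : a ∈ M) (h : a ⊆ b) :
    CardLe M a b := by
  refine cardLe_of_gr (g := fun x => x) ?_ (fun x hx => h hx) (fun x _ y _ h => h)
  have := (show U KZ (fun _ _ (p : ZFSet.{u}) => SC.gr p (fun x => x)) by apply_rules (transparency := .reducible) (maxDepth := 400) using is_poly).closed hM
    (a := a) (by simp [ha])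
  simpa using this

theorem cardLe_refl (hM : IsZF M A) {a : ZFSet.{u}} (ha : a ∈ M) : CardLe M a a :=
  cardLe_subset hM ha (fun _ h => h)

theorem cardLe_trans (hM : IsZF M A) {a b c : ZFSet.{u}} (ha : a ∈ M)
    (h1 : CardLe M a b) (h2 : CardLe M b c) : CardLe M a c := by
  obtain ⟨f, hf, _, hf2, hf3⟩ := cardLe_iff.1 h1
  obtain ⟨g, hg, _, hg2, hg3⟩ := cardLe_iff.1 h2
  refine cardLe_of_gr (g := fun x => SC.app g (SC.app f x)) ?_
    (fun x hx => hg2 _ (hf2 x hx)) (fun x hx y hy h => hf3 x hx y hy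
      (hg3 _ (hf2 x hx) _ (hf2 y hy) h))
  have := (show U KZ (fun _ _ (p : (ZFSet.{u} × ZFSet.{u}) × ZFSet.{u}) =>
    SC.gr p.2 (fun x => SC.app p.1.2 (SC.app p.1.1 x))) by apply_rules (transparency := .reducible) (maxDepth := 400) using is_poly).closed hM
    (a := ((f, g), a)) (by simp [ha, hf, hg])
  simpa using this

theorem cardLe_prod (hM : IsZF M A) {a b a' b' : ZFSet.{u}} (ha : a ∈ M) (hb : b ∈ M)
    (h1 : CardLe M a a') (h2 : CardLe M b b') : CardLe M (a.prod b) (a'.prod b') := by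
  obtain ⟨f, hf, _, hf2, hf3⟩ := cardLe_iff.1 h1
  obtain ⟨g, hg, _, hg2, hg3⟩ := cardLe_iff.1 h2
  refine cardLe_of_gr (g := fun z => ZFSet.pair (SC.app f (pfst z)) (SC.app g (psnd z))) ?_ ?_ ?_
  · have := (show U KZ (fun _ _ (p : (ZFSet.{u} × ZFSet.{u}) × (ZFSet.{u} × ZFSet.{u})) =>
      SC.gr (ZFSet.prod p.2.1 p.2.2) (fun z => ZFSet.pair (SC.app p.1.1 (SC.pfst z))
        (SC.app p.1.2 (SC.psnd z)))) by apply_rules (transparency := .reducible) (maxDepth := 400) using is_poly).closed hM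
      (a := ((f, g), (a, b))) (by simp [ha, hf, hg, hb])
    simpa using this
  · intro z hz
    obtain ⟨x, hx, y, hy, rfl⟩ := mem_prod.1 hz
    rw [pfst_pair, psnd_pair]
    exact pair_mem_prod.2 ⟨hf2 x hx, hg2 y hy⟩
  · intro z hz z' hz' h
    obtain ⟨x, hx, y, hy, rfl⟩ := mem_prod.1 hz
    obtain ⟨x', hx', y', hy', rfl⟩ := mem_prod.1 hz'
    simp only [pfst_pair, psnd_pair] at h
    obtain ⟨h3, h4⟩ := pair_inj.1 h
    rw [hf3 x hx x' hx' h3, hg3 y hy y' hy' h4]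

theorem cardLe_pow (hM : IsZF M A) {a b : ZFSet.{u}} (ha : a ∈ M)
    (h1 : CardLe M a b) : CardLe M (Helper66.SC.Pow M a) (Helper66.SC.Pow M b) := by
  obtain ⟨f, hf, _, hf2, hf3⟩ := cardLe_iff.1 h1
  refine cardLe_of_gr (g := fun z => img z (SC.app f)) ?_ ?_ ?_
  · have := (show U KZ (fun N _ (p : ZFSet.{u} × ZFSet.{u}) =>
      SC.gr (Helper66.SC.Pow N p.2) (fun z => Helper66.SC.img z (fun x => SC.app p.1 x))) by apply_rules (transparency := .reducible) (maxDepth := 400) using is_poly).closed hM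
      (a := (f, a)) (by simp [ha, hf])
    simpa using this
  · intro z hz
    rw [mem_Pow] at hz ⊢
    refine ⟨?_, fun y hy => ?_⟩
    · have := (show U KZ (fun _ _ (p : ZFSet.{u} × ZFSet.{u}) =>
        Helper66.SC.img p.2 (fun x => SC.app p.1 x)) by apply_rules (transparency := .reducible) (maxDepth := 400) using is_poly).closed hM
        (a := (f, z)) (by simp [hz.1, hf])
      simpa using this
    · obtain ⟨x, hx, rfl⟩ := mem_img.1 hy
      exact hf2 x (hz.2 hx)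
  · intro z hz z' hz' h
    rw [mem_Pow] at hz hz'
    have key : ∀ z ⊆ a, ∀ z' ⊆ a, img z (SC.app f) = img z' (SC.app f) → z ⊆ z' := by
      intro z hz z' hz' h x hx
      have h3 : SC.app f x ∈ img z' (SC.app f) := by
        rw [← h]
        exact mem_img.2 ⟨x, hx, rfl⟩
      obtain ⟨y, hy, hxy⟩ := mem_img.1 h3
      rwa [← hf3 y (hz' hy) x (hz hx) hxy]
    exact subset_antisymm (key z hz.2 z' hz'.2 h) (key z' hz'.2 z hz.2 h.symm)

theorem Pow_mem (hM : IsZF M A) {a : ZFSet.{u}} (ha : a ∈ M) : Helper66.SC.Pow M a ∈ M := by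
  have := (show U KZ (fun N _ (p : ZFSet.{u}) => Helper66.SC.Pow N p) by apply_rules (transparency := .reducible) (maxDepth := 400) using is_poly).closed hM
    (a := a) (by simp [ha])
  simpa using this

theorem prod_mem (hM : IsZF M A) {a b : ZFSet.{u}} (ha : a ∈ M) (hb : b ∈ M) :
    a.prod b ∈ M := by
  have := (show U KZ (fun _ _ (p : ZFSet.{u} × ZFSet.{u}) => ZFSet.prod p.1 p.2) by apply_rules (transparency := .reducible) (maxDepth := 400) using is_poly).closed hM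
    (a := (a, b)) (by simp [ha, hb])
  simpa using this

theorem not_cardLe_pow (hM : IsZF M A) {a : ZFSet.{u}} (ha : a ∈ M) : ¬ CardLe M (Helper66.SC.Pow M a) a := by
  intro h1
  obtain ⟨f, hf, _, hf2, hf3⟩ := cardLe_iff.1 h1
  set D : ZFSet.{u} := ZFSet.sep (fun y => ∃ S ∈ Helper66.SC.Pow M a, SC.app f S = y ∧ ¬ y ∈ S) a with hD
  have hDM : D ∈ M := by
    have := (show U KZ (fun N _ (p : ZFSet.{u} × ZFSet.{u}) =>
      ZFSet.sep (fun y => ∃ S ∈ Helper66.SC.Pow N p.2, SC.app p.1 S = y ∧ ¬ y ∈ S) p.2) by apply_rules (transparency := .reducible) (maxDepth := 400) using is_poly).closed hM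
      (a := (f, a)) (by simp [ha, hf])
    simpa using this
  have hDP : D ∈ Helper66.SC.Pow M a := mem_Pow.2 ⟨hDM, fun x hx => (mem_sep.1 hx).1⟩
  have h2 : SC.app f D ∈ D ↔ ¬ SC.app f D ∈ D := by
    constructor
    · intro h
      obtain ⟨_, S, hS, h3, h4⟩ := mem_sep.1 h
      rwa [hf3 S hS D hDP h3] at h4
    · intro h
      exact mem_sep.2 ⟨hf2 D hDP, D, hDP, rfl, h⟩
  tauto

theorem st_K1 : ST_K1.{u} := fun M A hM =>
  ⟨fun _ ha _ _ h => cardLe_subset hM ha h, fun _ ha _ _ _ _ h1 h2 => cardLe_trans hM ha h1 h2,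
    fun _ ha _ hb _ _ _ _ h1 h2 => cardLe_prod hM ha hb h1 h2,
    fun _ ha _ _ h => cardLe_pow hM ha h, fun _ ha => not_cardLe_pow hM ha⟩

end K1

/-! ### Least elements of sets of ordinals and choice from well-orderings -/

/-- the least element, for nonempty sets of ordinals -/
def lst (S : ZFSet.{u}) : ZFSet.{u} := ZFSet.sUnion (ZFSet.sep (fun x => ∀ y ∈ S, x ⊆ y) S)

variable {C : Cls.{u}}
variable {α β γ δ : Type (u + 1)} [Ctx.{u} α] [Ctx.{u} β] [Ctx.{u} γ] [Ctx.{u} δ]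

theorem U.lst [ZCls C] {f : Set ZFSet.{u} → Set ZFSet.{u} → α → ZFSet.{u}} (hf : U C f) :
    U C (fun N A a => SC.lst (f N A a)) := by
  have h0 : U C (fun _ _ (p : ZFSet.{u}) => SC.lst p) := by unfold SC.lst; apply_rules (transparency := .reducible) (maxDepth := 400) using is_poly
  exact h0.comp hf

/-- the element `x` of `S` with least `E x` -/
def argmin (E S : ZFSet.{u}) : ZFSet.{u} :=
  ZFSet.sUnion (ZFSet.sep (fun x => ∀ y ∈ S, SC.app E x ⊆ SC.app E y) S)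

theorem U.argmin [ZCls C] {f g : Set ZFSet.{u} → Set ZFSet.{u} → α → ZFSet.{u}} (hf : U C f)
    (hg : U C g) : U C (fun N A a => SC.argmin (f N A a) (g N A a)) := by
  have h0 : U C (fun _ _ (p : ZFSet.{u} × ZFSet.{u}) => SC.argmin p.1 p.2) := by
    unfold SC.argmin; apply_rules (transparency := .reducible) (maxDepth := 400) using is_poly
  exact h0.comp (hf.prodMk hg)

attribute [is_poly] U.lst U.argmin

theorem exists_least {S : ZFSet.{u}} (hS : ∀ x ∈ S, x.IsOrdinal) (hne : S ≠ ∅) :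
    ∃ x ∈ S, ∀ y ∈ S, x ⊆ y := by
  obtain ⟨x, hx, h⟩ := regularity S hne
  refine ⟨x, hx, fun y hy => ?_⟩
  rcases (hS y hy).mem_or_subset (hS x hx) with h1 | h1
  · exfalso
    have : y ∈ S ∩ x := mem_inter.2 ⟨hy, h1⟩
    rw [h] at this
    exact notMem_empty _ this
  · exact h1

theorem lst_mem {S : ZFSet.{u}} (hS : ∀ x ∈ S, x.IsOrdinal) (hne : S ≠ ∅) :
    lst S ∈ S ∧ ∀ y ∈ S, lst S ⊆ y := by
  obtain ⟨x, hx, h⟩ := exists_least hS hne
  have : lst S = x := by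
    unfold lst
    have : ZFSet.sep (fun x => ∀ y ∈ S, x ⊆ y) S = ({x} : ZFSet.{u}) := by
      ext z
      rw [mem_sep, mem_singleton]
      constructor
      · rintro ⟨hz, h'⟩
        exact subset_antisymm (h' x hx) (h z hz)
      · rintro rfl
        exact ⟨hx, h⟩
    rw [this, sUnion_singleton]
  rw [this]
  exact ⟨hx, h⟩

theorem argmin_mem {E S : ZFSet.{u}} (hS : ∀ x ∈ S, (SC.app E x).IsOrdinal)
    (hi : ∀ x ∈ S, ∀ y ∈ S, SC.app E x = SC.app E y → x = y) (hne : S ≠ ∅) :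
    argmin E S ∈ S := by
  obtain ⟨o, ho, h⟩ := exists_least (S := img S (SC.app E)) (fun x hx => by
    obtain ⟨y, hy, rfl⟩ := mem_img.1 hx
    exact hS y hy) (fun h => by
      apply hne
      rw [ZFSet.eq_empty]
      intro y hy
      have : SC.app E y ∈ img S (SC.app E) := mem_img.2 ⟨y, hy, rfl⟩
      rw [h] at this
      exact notMem_empty _ this)
  obtain ⟨x, hx, rfl⟩ := mem_img.1 ho
  have : argmin E S = x := by
    unfold argmin
    have : ZFSet.sep (fun x => ∀ y ∈ S, SC.app E x ⊆ SC.app E y) S = ({x} : ZFSet.{u}) := by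
      ext z
      rw [mem_sep, mem_singleton]
      constructor
      · rintro ⟨hz, h'⟩
        exact hi z hz x hx (subset_antisymm (h' x hx) (h _ (mem_img.2 ⟨z, hz, rfl⟩)))
      · rintro rfl
        exact ⟨hx, fun y hy => h _ (mem_img.2 ⟨y, hy, rfl⟩)⟩
    rw [this, sUnion_singleton]
  rw [this]
  exact hx

/-- `E` is a choice device on the set `D`. -/
def Chooses (E D : ZFSet.{u}) : Prop := ∀ S, S ⊆ D → S ≠ ∅ → argmin E S ∈ S

theorem exists_chooses {M A : Set ZFSet.{u}} (_ : IsZF M A) (hW : WO M) {D : ZFSet.{u}}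
    (hD : D ∈ M) : ∃ E ∈ M, Chooses E D := by
  obtain ⟨o, ho, h⟩ := hW D hD
  obtain ⟨E, hE, _, h2, h3⟩ := cardLe_iff.1 h
  refine ⟨E, hE, fun S hS hne => argmin_mem (fun x hx => ?_) (fun x hx y hy =>
    h3 x (hS hx) y (hS hy)) hne⟩
  exact (isOrdinal_toZFSet o).mem (h2 x (hS hx))

/-! ### K2 -/

theorem st_K2 : ST_K2.{u} := by
  intro M A hM a ha b hb s hs o ho h hfun hsur
  obtain ⟨e, he, _, he2, he3⟩ := cardLe_iff.1 h
  have hord : ∀ x ∈ a, (SC.app e x).IsOrdinal := fun x hx => (isOrdinal_toZFSet o).mem (he2 x hx)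
  -- the least code of a preimage
  set S : ZFSet.{u} → ZFSet.{u} := fun y =>
    img (ZFSet.sep (fun x => ZFSet.pair x y ∈ s) a) (SC.app e) with hSdef
  have hS : ∀ y, ∀ c ∈ S y, ∃ x ∈ a, ZFSet.pair x y ∈ s ∧ SC.app e x = c := by
    intro y c hc
    obtain ⟨x, hx, rfl⟩ := mem_img.1 hc
    obtain ⟨hx1, hx2⟩ := mem_sep.1 hx
    exact ⟨x, hx1, hx2, rfl⟩
  have hl : ∀ y ∈ b, lst (S y) ∈ S y := by
    intro y hy
    refine (lst_mem (fun c hc => ?_) ?_).1
    · obtain ⟨x, hx, _, rfl⟩ := hS y c hc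
      exact hord x hx
    · obtain ⟨x, hx, hxy⟩ := hsur y hy
      intro h0
      have : SC.app e x ∈ S y := mem_img.2 ⟨x, mem_sep.2 ⟨hx, hxy⟩, rfl⟩
      rw [h0] at this
      exact notMem_empty _ this
  refine cardLe_of_gr (g := fun y => lst (S y)) ?_ ?_ ?_
  · have := (show U KZ (fun _ _ (p : (ZFSet.{u} × ZFSet.{u}) × (ZFSet.{u} × ZFSet.{u})) =>
      SC.gr p.2.2 (fun y => SC.lst (Helper66.SC.img (ZFSet.sep (fun x => ZFSet.pair x y ∈ p.1.2) p.2.1)
        (fun x => SC.app p.1.1 x)))) by apply_rules (transparency := .reducible) (maxDepth := 400) using is_poly).closed hM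
      (a := ((e, s), (a, b))) (by simp [ha, hb, hs, he])
    simpa using this
  · intro y hy
    obtain ⟨x, hx, _, h1⟩ := hS y _ (hl y hy)
    rw [← h1]
    exact he2 x hx
  · intro y hy y' hy' hyy
    obtain ⟨x, hx, h1, h2⟩ := hS y _ (hl y hy)
    obtain ⟨x', hx', h1', h2'⟩ := hS y' _ (hl y' hy')
    have hxx : x = x' := he3 x hx x' hx' (by rw [h2, h2']; exact hyy)
    subst hxx
    exact hfun x y y' h1 h1'

/-! ### K3 -/

/-- the Mostowski collapse of the set `b` -/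
noncomputable def coll (b : ZFSet.{u}) (x : ZFSet.{u}) : ZFSet.{u} :=
  ZFSet.range (fun y : {y // y ∈ x ∩ b} => coll b y.1)
termination_by x.rank
decreasing_by exact rank_lt_of_mem (mem_inter.1 y.2).1

theorem mem_coll {b x z : ZFSet.{u}} : z ∈ coll b x ↔ ∃ y ∈ x, y ∈ b ∧ z = coll b y := by
  rw [coll, ZFSet.mem_range]
  constructor
  · rintro ⟨⟨y, hy⟩, rfl⟩
    exact ⟨y, (mem_inter.1 hy).1, (mem_inter.1 hy).2, rfl⟩
  · rintro ⟨y, hy, hy', rfl⟩
    exact ⟨⟨y, mem_inter.2 ⟨hy, hy'⟩⟩, rfl⟩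

theorem U.coll [ZCls C] {f g : Set ZFSet.{u} → Set ZFSet.{u} → α → ZFSet.{u}} (hf : U C f)
    (hg : U C g) : U C (fun N A a => SC.coll (f N A a) (g N A a)) := by
  refine U.app2 (h := fun _ _ b x => SC.coll b x) ?_ hf hg
  refine U.memrec (F := fun _ _ (p : (ZFSet.{u} × ZFSet.{u}) × ZFSet.{u}) =>
    Helper66.SC.img (ZFSet.sep (fun z => SC.pfst z ∈ p.1.1) p.2) (fun z => SC.psnd z)) (by apply_rules (transparency := .reducible) (maxDepth := 400) using is_poly) ?_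
  intro N A _ b _ x _
  ext z
  simp only [mem_coll, mem_img, mem_sep, mem_gr]
  constructor
  · rintro ⟨y, hy, hyb, rfl⟩
    exact ⟨_, ⟨⟨y, hy, rfl⟩, by rw [pfst_pair]; exact hyb⟩, by rw [psnd_pair]⟩
  · rintro ⟨w, ⟨⟨y, hy, rfl⟩, h⟩, rfl⟩
    rw [pfst_pair] at h
    exact ⟨y, hy, h, by rw [psnd_pair]⟩

attribute [is_poly] U.coll

theorem coll_ordinal {b : ZFSet.{u}} (hb : ∀ x ∈ b, x.IsOrdinal) :
    ∀ x : ZFSet.{u}, x.IsOrdinal → (coll b x).IsOrdinal ∧ coll b x ⊆ x := by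
  intro x
  induction x using ZFSet.inductionOn with
  | _ x ih =>
    intro hx
    have h1 : ∀ z ∈ coll b x, z.IsOrdinal := by
      intro z hz
      obtain ⟨y, hy, _, rfl⟩ := mem_coll.1 hz
      exact (ih y hy (hx.mem hy)).1
    have h2 : (coll b x).IsTransitive := by
      intro z hz w hw
      obtain ⟨y, hy, _, rfl⟩ := mem_coll.1 hz
      obtain ⟨v, hv, hvb, rfl⟩ := mem_coll.1 hw
      exact mem_coll.2 ⟨v, hx.isTransitive y hy hv, hvb, rfl⟩
    refine ⟨isOrdinal_iff_forall_mem_isTransitive.2 ⟨h2, fun z hz => (h1 z hz).isTransitive⟩, ?_⟩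
    intro z hz
    obtain ⟨y, hy, _, rfl⟩ := mem_coll.1 hz
    obtain ⟨h3, h4⟩ := ih y hy (hx.mem hy)
    rcases (IsOrdinal.subset_iff_eq_or_mem h3 (hx.mem hy)).1 h4 with h | h
    · rw [h]; exact hy
    · exact hx.isTransitive y hy h

theorem coll_inj {b : ZFSet.{u}} (hb : ∀ x ∈ b, x.IsOrdinal) {x y : ZFSet.{u}} (hx : x ∈ b)
    (hy : y ∈ b) (h : coll b x = coll b y) : x = y := by
  have key : ∀ x ∈ b, ∀ y ∈ b, coll b x = coll b y → ¬ x ∈ y := by
    intro x hx y hy h hxy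
    have : coll b x ∈ coll b y := mem_coll.2 ⟨x, hxy, hx, rfl⟩
    rw [h] at this
    exact mem_irrefl _ this
  rcases (hb x hx).mem_trichotomous (hb y hy) with h1 | h1 | h1
  · exact absurd h1 (key x hx y hy h)
  · exact h1
  · exact absurd h1 (key y hy x hx h.symm)

theorem cardLe_of_inv {M : Set ZFSet.{u}} {a b : ZFSet.{u}} {g : ZFSet.{u} → ZFSet.{u}}
    (hg : img a (fun x => ZFSet.pair (g x) x) ∈ M) (h : ∀ x ∈ a, g x ∈ b)
    (hi : ∀ x ∈ a, ∀ y ∈ a, g x = g y → x = y) (hs : ∀ z ∈ b, ∃ x ∈ a, g x = z) :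
    CardLe M b a := by
  have key : ∀ z x, ZFSet.pair z x ∈ img a (fun x => ZFSet.pair (g x) x) ↔ x ∈ a ∧ g x = z := by
    intro z x
    rw [mem_img]
    constructor
    · rintro ⟨y, hy, h⟩
      obtain ⟨rfl, rfl⟩ := pair_inj.1 h
      exact ⟨hy, rfl⟩
    · rintro ⟨hx, rfl⟩
      exact ⟨x, hx, rfl⟩
  refine ⟨_, hg, ⟨?_, ?_⟩, ?_⟩
  · intro z hz
    obtain ⟨x, hx, rfl⟩ := mem_img.1 hz
    exact pair_mem_prod.2 ⟨h x hx, hx⟩
  · intro z hz
    obtain ⟨x, hx, rfl⟩ := hs z hz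
    refine ⟨x, (key _ _).2 ⟨hx, rfl⟩, fun y hy => ?_⟩
    obtain ⟨h1, h2⟩ := (key _ _).1 hy
    exact hi y h1 x hx h2
  · intro y _ y' _ z h1 h2
    rw [← ((key _ _).1 h1).2, ← ((key _ _).1 h2).2]

theorem st_K3 : ST_K3.{u} := by
  intro M A hM x hx o ho h
  obtain ⟨e, he, _, he2, he3⟩ := cardLe_iff.1 h
  set b : ZFSet.{u} := img x (SC.app e) with hb
  have hbo : ∀ z ∈ b, z ∈ oz o := by
    intro z hz
    obtain ⟨y, hy, rfl⟩ := mem_img.1 hz
    exact he2 y hy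
  have hbO : ∀ z ∈ b, z.IsOrdinal := fun z hz => (isOrdinal_toZFSet o).mem (hbo z hz)
  obtain ⟨h1, h2⟩ := coll_ordinal hbO (oz o) (isOrdinal_toZFSet o)
  obtain ⟨c, hc⟩ : ∃ c : Ordinal.{u}, oz c = coll b (oz o) := ⟨_, h1.toZFSet_rank_eq⟩
  have hmap : ∀ y ∈ x, coll b (SC.app e y) ∈ oz c := by
    intro y hy
    rw [hc]
    exact mem_coll.2 ⟨_, he2 y hy, mem_img.2 ⟨y, hy, rfl⟩, rfl⟩
  have hinj : ∀ y ∈ x, ∀ y' ∈ x, coll b (SC.app e y) = coll b (SC.app e y') → y = y' := by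
    intro y hy y' hy' hh
    exact he3 y hy y' hy' (coll_inj hbO (mem_img.2 ⟨y, hy, rfl⟩) (mem_img.2 ⟨y', hy', rfl⟩) hh)
  have hsur : ∀ z ∈ oz c, ∃ y ∈ x, coll b (SC.app e y) = z := by
    intro z hz
    rw [hc] at hz
    obtain ⟨w, _, hw, rfl⟩ := mem_coll.1 hz
    obtain ⟨y, hy, rfl⟩ := mem_img.1 hw
    exact ⟨y, hy, rfl⟩
  refine ⟨c, ?_, ?_, ?_⟩
  · rw [← Ordinal.toZFSet_subset_toZFSet_iff]
    change oz c ⊆ oz o
    rw [hc]
    exact h2
  · refine cardLe_of_gr (g := fun y => coll b (SC.app e y)) ?_ hmap hinj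
    have := (show U KZ (fun _ _ (p : ZFSet.{u} × ZFSet.{u}) =>
      SC.gr p.2 (fun y => SC.coll (Helper66.SC.img p.2 (fun z => SC.app p.1 z)) (SC.app p.1 y)))
        by apply_rules (transparency := .reducible) (maxDepth := 400) using is_poly).closed hM (a := (e, x)) (by simp [he, hx])
    simpa using this
  · refine cardLe_of_inv (g := fun y => coll b (SC.app e y)) ?_ hmap hinj hsur
    have := (show U KZ (fun _ _ (p : ZFSet.{u} × ZFSet.{u}) =>
      Helper66.SC.img p.2 (fun y => ZFSet.pair (SC.coll (Helper66.SC.img p.2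
        (fun z => SC.app p.1 z)) (SC.app p.1 y)) y))
        by apply_rules (transparency := .reducible) (maxDepth := 400) using is_poly).closed hM (a := (e, x)) (by simp [he, hx])
    simpa using this

/-! ### K4 -/

/-- the set of all injections from `x` to `z` in the set `D` -/
def injs (D x z : ZFSet.{u}) : ZFSet.{u} :=
  ZFSet.sep (fun f => IsFunc x z f ∧ ∀ y ∈ x, ∀ y' ∈ x, SC.app f y = SC.app f y' → y = y') D

theorem U.injs [ZCls C] {f g h : Set ZFSet.{u} → Set ZFSet.{u} → α → ZFSet.{u}} (hf : U C f)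
    (hg : U C g) (hh : U C h) : U C (fun N A a => SC.injs (f N A a) (g N A a) (h N A a)) := by
  refine U.app3 (h := fun _ _ x y z => SC.injs x y z) ?_ hf hg hh
  unfold SC.injs
  apply_rules (transparency := .reducible) (maxDepth := 400) using is_poly

attribute [is_poly] U.injs

theorem st_K4 : ST_K4.{u} := by
  intro M A hM hW s hs y hy z hz h1 h2
  obtain ⟨i, hi, _, hi2, hi3⟩ := cardLe_iff.1 h1
  have hUs := hM.sUnion s hs
  set D : ZFSet.{u} := Helper66.SC.Pow M ((sUnion s).prod z) with hD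
  have hDM : D ∈ M := Pow_mem hM (prod_mem hM hUs hz)
  obtain ⟨E, hE, hE'⟩ := exists_chooses hM hW hDM
  obtain ⟨E2, hE2, hE2'⟩ := exists_chooses hM hW hs
  -- chosen injections
  set e : ZFSet.{u} → ZFSet.{u} := fun x => argmin E (injs D x z) with he
  have hecl : ∀ x ∈ s, e x ∈ injs D x z := by
    intro x hx
    refine hE' _ (fun w hw => (mem_sep.1 hw).1) ?_
    obtain ⟨f, hf, hf1, hf2⟩ := h2 x hx
    have : f ∈ injs D x z := by
      unfold injs
      rw [mem_sep, mem_Pow]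
      refine ⟨⟨hf, fun w hw => ?_⟩, hf1, fun y hy y' hy' h => ?_⟩
      · obtain ⟨p, hp, q, hq, rfl⟩ := mem_prod.1 (hf1.1 hw)
        exact pair_mem_prod.2 ⟨mem_sUnion.2 ⟨x, hx, hp⟩, hq⟩
      · refine hf2 y hy y' hy' _ (app_mem_of_isFunc hf1 hy).2 ?_
        rw [h]
        exact (app_mem_of_isFunc hf1 hy').2
    intro h0
    rw [h0] at this
    exact notMem_empty _ this
  -- chosen members of the family
  set c : ZFSet.{u} → ZFSet.{u} := fun w => argmin E2 (ZFSet.sep (fun x => w ∈ x) s) with hc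
  have hccl : ∀ w ∈ (sUnion s : ZFSet.{u}), c w ∈ s ∧ w ∈ c w := by
    intro w hw
    have := hE2' (ZFSet.sep (fun x => w ∈ x) s) (fun x hx => (mem_sep.1 hx).1) (by
      obtain ⟨x, hx, hwx⟩ := mem_sUnion.1 hw
      intro h0
      have : x ∈ ZFSet.sep (fun x => w ∈ x) s := mem_sep.2 ⟨hx, hwx⟩
      rw [h0] at this
      exact notMem_empty _ this)
    exact mem_sep.1 this
  refine cardLe_of_gr (g := fun w => ZFSet.pair (SC.app i (c w)) (SC.app (e (c w)) w)) ?_ ?_ ?_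
  · have := (show U KZ (fun N _ (p : ((ZFSet.{u} × ZFSet.{u}) × (ZFSet.{u} × ZFSet.{u})) ×
      ZFSet.{u}) => SC.gr (ZFSet.sUnion p.1.1.1) (fun w => ZFSet.pair
        (SC.app p.2 (SC.argmin p.1.2.2 (ZFSet.sep (fun x => w ∈ x) p.1.1.1)))
        (SC.app (SC.argmin p.1.2.1 (SC.injs (Helper66.SC.Pow N ((sUnion p.1.1.1).prod p.1.1.2))
          (SC.argmin p.1.2.2 (ZFSet.sep (fun x => w ∈ x) p.1.1.1)) p.1.1.2)) w)))
        by apply_rules (transparency := .reducible) (maxDepth := 400) using is_poly).closed hM (a := (((s, z), (E, E2)), i)) (by simp [hs, hz, hE, hE2, hi])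
    simpa using this
  · intro w hw
    obtain ⟨h3, h4⟩ := hccl w hw
    refine pair_mem_prod.2 ⟨hi2 _ h3, ?_⟩
    have := mem_sep.1 (hecl _ h3)
    exact (app_mem_of_isFunc this.2.1 h4).1
  · intro w hw w' hw' hh
    obtain ⟨h3, h4⟩ := hccl w hw
    obtain ⟨h3', h4'⟩ := hccl w' hw'
    obtain ⟨h5, h6⟩ := pair_inj.1 hh
    have h7 := hi3 _ h3 _ h3' h5
    rw [← h7] at h6 h4'
    have := mem_sep.1 (hecl _ h3)
    exact this.2.2 w h4 w' h4' h6

end Pool.Agent.Helper22.SC
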