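import Pool.Agent.Helper22.SC.Core
import Pool.Agent.Helper66.SC.Ops

/-! # Basic uniformly definable operations

Composite goals `URel C (fun N A a => ...)` and `U C (fun N A a => ...)` are closed by
`apply_rules (transparency := .reducible) (maxDepth := 400) using is_poly`
(the label attribute `is_poly` is used for the closure lemmas of this development).
-/

namespace Pool.Agent.Helper22.SC

universe u

open ZFSet
open Pool.Agent.Helper66.SC (Fml Sat IsZF Cls sat_rn mem_Pow img mem_img)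

variable {C : Cls.{u}}
variable {α β γ δ : Type (u + 1)} [Ctx.{u} α] [Ctx.{u} β] [Ctx.{u} γ] [Ctx.{u} δ]

attribute [is_poly] U.id U.unit URel.true' URel.false' U.fst U.snd U.prodMk URel.and URel.or
  URel.not URel.iff URel.bex URel.ex URel.ball URel.all URel.imp URel.mem URel.subset URel.eq URel.prd

example [ZCls C] :
    URel C (fun N _ (a : ZFSet.{u} × ZFSet.{u}) => ∃ x ∈ N, x ∈ a.1 ∧ ∀ y ∈ x, y ∈ a.2) := by
  apply_rules (transparency := .reducible) (maxDepth := 400) using is_poly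

/-- Membership criterion for uniform definability. -/
theorem U.of_mem [ZCls C] {f : Set ZFSet.{u} → Set ZFSet.{u} → α → ZFSet.{u}}
    (hc : ∀ {N A}, C N A → ∀ {a}, In N a → f N A a ∈ N)
    (hm : URel C (fun N A (p : α × ZFSet.{u}) => p.2 ∈ f N A p.1)) : U C f := by
  refine U.of_graph hc ?_
  have h1 : URel C (fun N A (p : α × ZFSet.{u}) => ∀ z ∈ N, (z ∈ p.2 ↔ z ∈ f N A p.1)) := by
    have h2 : URel C (fun N A (q : (α × ZFSet.{u}) × ZFSet.{u}) => q.2 ∈ f N A q.1.1) :=
      hm.comp (f := fun _ _ (q : (α × ZFSet.{u}) × ZFSet.{u}) => (q.1.1, q.2)) (by apply_rules (transparency := .reducible) (maxDepth := 400) using is_poly)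
    refine URel.all (R := fun N A (p : α × ZFSet.{u}) z => (z ∈ p.2 ↔ z ∈ f N A p.1)) ?_
    exact URel.iff (by apply_rules (transparency := .reducible) (maxDepth := 400) using is_poly) h2
  refine h1.congr ?_
  intro N A hN p hp
  obtain ⟨hp1, hp2⟩ := in_prod.1 hp
  have hZ := ZCls.isZF hN
  constructor
  · intro h
    ext z
    constructor
    · intro hz
      exact (h z (hZ.trans _ (in_zfset.1 hp2) _ hz)).1 hz
    · intro hz
      exact (h z (hZ.trans _ (hc hN hp1) _ hz)).2 hz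
  · intro h z _
    rw [h]

/-! ### Pairing, union -/

theorem _root_.Pool.Agent.Helper66.SC.IsZF.insert_mem {N A : Set ZFSet.{u}} (hN : IsZF N A)
    {x y : ZFSet.{u}} (hx : x ∈ N) (hy : y ∈ N) : (insert x y : ZFSet.{u}) ∈ N := by
  have h1 : ({x} : ZFSet.{u}) ∈ N := by
    have := hN.pair x hx x hx
    rwa [pair_eq_singleton] at this
  have h2 := hN.sUnion _ (hN.pair _ h1 _ hy)
  have : (⋃₀ ({{x}, y} : ZFSet.{u}) : ZFSet.{u}) = insert x y := by
    ext z; simp
  rwa [this] at h2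

theorem _root_.Pool.Agent.Helper66.SC.IsZF.empty_mem {N A : Set ZFSet.{u}} (hN : IsZF N A) :
    (∅ : ZFSet.{u}) ∈ N :=
  hN.trans _ hN.omega _ omega_zero

theorem U.empty [ZCls C] : U C (fun _ _ (_ : α) => (∅ : ZFSet.{u})) := by
  refine U.of_mem (fun hN _ _ => (ZCls.isZF hN).empty_mem) ?_
  refine URel.false'.congr ?_
  intro N A hN p hp
  simp

theorem U.insert [ZCls C] {f g : Set ZFSet.{u} → Set ZFSet.{u} → α → ZFSet.{u}} (hf : U C f)
    (hg : U C g) :
    U C (fun N A a => (insert (f N A a) (g N A a) : ZFSet.{u})) := by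
  have h0 : U C (fun _ _ (p : ZFSet.{u} × ZFSet.{u}) => (Insert.insert p.1 p.2 : ZFSet.{u})) := by
    refine U.of_mem (fun hN a ha => ?_) ?_
    · simp only [in_prod, in_zfset] at ha
      exact (ZCls.isZF hN).insert_mem ha.1 ha.2
    · simp only [mem_insert_iff]
      apply_rules (transparency := .reducible) (maxDepth := 400) using is_poly
  exact h0.comp (hf.prodMk hg)

theorem U.singleton [ZCls C] {f : Set ZFSet.{u} → Set ZFSet.{u} → α → ZFSet.{u}} (hf : U C f) :
    U C (fun N A a => ({f N A a} : ZFSet.{u})) := by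
  refine (U.insert hf U.empty).congr ?_
  intro N A hN a ha
  ext z; simp

attribute [is_poly] U.empty U.insert U.singleton

theorem U.pair [ZCls C] {f g : Set ZFSet.{u} → Set ZFSet.{u} → α → ZFSet.{u}} (hf : U C f)
    (hg : U C g) : U C (fun N A a => ZFSet.pair (f N A a) (g N A a)) := by
  have h0 : U C (fun _ _ (p : ZFSet.{u} × ZFSet.{u}) => ZFSet.pair p.1 p.2) := by
    unfold ZFSet.pair
    apply_rules (transparency := .reducible) (maxDepth := 400) using is_poly
  exact h0.comp (hf.prodMk hg)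

theorem U.sUnion [ZCls C] {f : Set ZFSet.{u} → Set ZFSet.{u} → α → ZFSet.{u}} (hf : U C f) :
    U C (fun N A a => (⋃₀ (f N A a) : ZFSet.{u})) := by
  have h0 : U C (fun _ _ (p : ZFSet.{u}) => (ZFSet.sUnion p : ZFSet.{u})) := by
    refine U.of_mem (fun hN a ha => (ZCls.isZF hN).sUnion _ (in_zfset.1 ha)) ?_
    simp only [mem_sUnion]
    apply_rules (transparency := .reducible) (maxDepth := 400) using is_poly
  exact h0.comp hf

attribute [is_poly] U.pair U.sUnion

theorem U.union [ZCls C] {f g : Set ZFSet.{u} → Set ZFSet.{u} → α → ZFSet.{u}} (hf : U C f)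
    (hg : U C g) : U C (fun N A a => (f N A a ∪ g N A a : ZFSet.{u})) := by
  have h0 : U C (fun _ _ (p : ZFSet.{u} × ZFSet.{u}) => (p.1 ∪ p.2 : ZFSet.{u})) := by
    refine U.congr (f := fun _ _ (p : ZFSet.{u} × ZFSet.{u}) =>
      (ZFSet.sUnion {p.1, p.2} : ZFSet.{u})) (by apply_rules (transparency := .reducible) (maxDepth := 400) using is_poly) ?_
    intro N A hN a ha
    exact sUnion_pair _ _
  exact h0.comp (hf.prodMk hg)

/-! ### Separation and images -/

theorem U.sep [ZCls C] {f : Set ZFSet.{u} → Set ZFSet.{u} → α → ZFSet.{u}}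
    {R : Set ZFSet.{u} → Set ZFSet.{u} → α → ZFSet.{u} → Prop} (hf : U C f)
    (hR : URel C (fun N A (p : α × ZFSet.{u}) => R N A p.1 p.2)) :
    U C (fun N A a => ZFSet.sep (R N A a) (f N A a)) := by
  refine U.of_mem (fun {N A} hN a ha => ?_) ?_
  · obtain ⟨φ, hφ⟩ := hR
    have hZ := ZCls.isZF hN
    have hfa := in_zfset.1 (hf.closed hN ha)
    obtain ⟨b, hb, h1⟩ := hZ.sep _ (φ.rn (rot (Ctx.n α))) (Ctx.vec a) ha (f N A a) hfa
    have h2 : ZFSet.sep (R N A a) (f N A a) = b := by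
      ext z
      rw [mem_sep, h1]
      refine and_congr_right (fun hz => ?_)
      rw [sat_rot]
      exact hφ N A hN (a, z) (by simp [ha, hZ.trans _ hfa _ hz])
    rw [h2]
    exact hb
  · simp only [mem_sep]
    exact URel.and (URel.mem U.id.snd (hf.comp U.id.fst)) hR

/-- the renaming between `append (append v ![x]) ![y]` and `cons x (cons y v)` -/
def rot2 (k : ℕ) : Fin (k + 1 + 1) → Fin (k + 1 + 1) :=
  Fin.addCases (m := k + 1) (n := 1)
    (Fin.addCases (m := k) (n := 1) (fun i => i.succ.succ) (fun _ => 0)) (fun _ => 1)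

theorem sat_rot2 (N A : Set ZFSet.{u}) (φ : Fml (Ctx.n α + 1 + 1)) (a : α) (x y : ZFSet.{u}) :
    Sat N A (φ.rn (rot2 (Ctx.n α))) (Fin.cons x (Fin.cons y (Ctx.vec a))) ↔
      Sat N A φ (Ctx.vec (((a, x), y) : (α × ZFSet.{u}) × ZFSet.{u})) := by
  rw [sat_rn]
  have : (Fin.cons x (Fin.cons y (Ctx.vec a) : Fin (Ctx.n α + 1) → ZFSet.{u}) :
      Fin (Ctx.n α + 1 + 1) → ZFSet.{u}) ∘ rot2 (Ctx.n α) =
        Ctx.vec (((a, x), y) : (α × ZFSet.{u}) × ZFSet.{u}) := by
    funext i
    refine Fin.addCases (m := Ctx.n α + 1) (n := 1) (fun i => ?_) (fun i => ?_) i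
    · have h : Ctx.vec (((a, x), y) : (α × ZFSet.{u}) × ZFSet.{u}) (Fin.castAdd 1 i) =
          Ctx.vec (a, x) i := Fin.append_left _ _ _
      rw [h]
      refine Fin.addCases (m := Ctx.n α) (n := 1) (fun i => ?_) (fun i => ?_) i
      · have h : Ctx.vec ((a, x) : α × ZFSet.{u}) (Fin.castAdd 1 i) = Ctx.vec a i :=
          Fin.append_left _ _ _
        rw [h]
        simp [rot2]
      · have h : Ctx.vec ((a, x) : α × ZFSet.{u}) (Fin.natAdd (Ctx.n α) i) = x :=
          Fin.append_right _ _ _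
        rw [h]
        simp [rot2]
    · have h : Ctx.vec (((a, x), y) : (α × ZFSet.{u}) × ZFSet.{u}) (Fin.natAdd (Ctx.n α + 1) i) =
          y := Fin.append_right _ _ _
      rw [h]
      simp [rot2]
  rw [this]

/-- Replacement in the form used below. -/
theorem repl_of_urel [ZCls C] {R : Set ZFSet.{u} → Set ZFSet.{u} → α → ZFSet.{u} → ZFSet.{u} → Prop}
    (hR : URel C (fun N A (p : (α × ZFSet.{u}) × ZFSet.{u}) => R N A p.1.1 p.1.2 p.2))
    {N A : Set ZFSet.{u}} (hN : C N A) {a : α} (ha : In N a) {d : ZFSet.{u}} (hd : d ∈ N)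
    (h : ∀ x ∈ d, ∃! y, y ∈ N ∧ R N A a x y) :
    ∃ b ∈ N, ∀ y, y ∈ b ↔ y ∈ N ∧ ∃ x ∈ d, R N A a x y := by
  obtain ⟨φ, hφ⟩ := hR
  have hZ := ZCls.isZF hN
  have key : ∀ x ∈ d, ∀ y ∈ N, (R N A a x y ↔ Sat N A (φ.rn (rot2 (Ctx.n α)))
      (Fin.cons x (Fin.cons y (Ctx.vec a)))) := by
    intro x hx y hy
    rw [sat_rot2]
    exact hφ N A hN ((a, x), y) (by simp [ha, hZ.trans _ hd _ hx, hy])
  obtain ⟨b, hb, hb'⟩ := hZ.repl _ _ (Ctx.vec a) ha d hd (fun x hx => by
    obtain ⟨y, ⟨hy, hy1⟩, hy2⟩ := h x hx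
    refine ⟨y, ⟨hy, (key x hx y hy).1 hy1⟩, ?_⟩
    rintro z ⟨hz, hz'⟩
    exact hy2 z ⟨hz, (key x hx z hz).2 hz'⟩)
  refine ⟨b, hb, fun y => ?_⟩
  rw [hb']
  refine and_congr_right (fun hy => exists_congr fun x => and_congr_right fun hx => ?_)
  exact (key x hx y hy).symm

theorem U.img [ZCls C] {f : Set ZFSet.{u} → Set ZFSet.{u} → α → ZFSet.{u}}
    {g : Set ZFSet.{u} → Set ZFSet.{u} → α → ZFSet.{u} → ZFSet.{u}} (hf : U C f)
    (hg : U C (fun N A (p : α × ZFSet.{u}) => g N A p.1 p.2)) :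
    U C (fun N A a => Helper66.SC.img (f N A a) (g N A a)) := by
  refine U.of_mem (fun {N A} hN a ha => ?_) ?_
  · have hZ := ZCls.isZF hN
    have hfa := in_zfset.1 (hf.closed hN ha)
    have hgx : ∀ x ∈ f N A a, g N A a x ∈ N := fun x hx =>
      in_zfset.1 (hg.closed hN (a := (a, x)) (by simp [ha, hZ.trans _ hfa _ hx]))
    obtain ⟨b, hb, hb'⟩ := repl_of_urel (C := C) (R := fun N A a x y => y = g N A a x)
      (URel.eq (by apply_rules (transparency := .reducible) (maxDepth := 400) using is_poly) (hg.comp U.id.fst)) hN ha hfa (fun x hx =>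
        ⟨g N A a x, ⟨hgx x hx, rfl⟩, fun y hy => hy.2⟩)
    have : Helper66.SC.img (f N A a) (g N A a) = b := by
      ext z
      rw [mem_img, hb']
      constructor
      · rintro ⟨x, hx, rfl⟩
        exact ⟨hgx x hx, x, hx, rfl⟩
      · rintro ⟨_, x, hx, rfl⟩
        exact ⟨x, hx, rfl⟩
    rw [this]
    exact hb
  · simp only [mem_img]
    exact URel.bex (hf.comp U.id.fst) (URel.eq (hg.comp (f := fun _ _
        (q : (α × ZFSet.{u}) × ZFSet.{u}) => (q.1.1, q.2)) (by apply_rules (transparency := .reducible) (maxDepth := 400) using is_poly)) (by apply_rules (transparency := .reducible) (maxDepth := 400) using is_poly))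

/-- The power set in the sense of the model. -/
theorem U.pow [ZCls C] {f : Set ZFSet.{u} → Set ZFSet.{u} → α → ZFSet.{u}} (hf : U C f) :
    U C (fun N A a => Helper66.SC.Pow N (f N A a)) := by
  have h0 : U C (fun N _ (p : ZFSet.{u}) => Helper66.SC.Pow N p) := by
    refine U.of_mem (fun {N A} hN a ha => ?_) ?_
    · obtain ⟨y, hy, h⟩ := (ZCls.isZF hN).power a (in_zfset.1 ha)
      have : Helper66.SC.Pow N a = y := by
        ext z
        rw [mem_Pow, h]
      rw [this]
      exact hy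
    · refine URel.congr (R := fun _ _ (p : ZFSet.{u} × ZFSet.{u}) => p.2 ⊆ p.1) (by apply_rules (transparency := .reducible) (maxDepth := 400) using is_poly) ?_
      intro N A _ p hp
      rw [mem_Pow]
      exact ⟨fun h => ⟨in_zfset.1 (in_prod.1 hp).2, h⟩, fun h => h.2⟩
  exact h0.comp hf

attribute [is_poly] U.union U.sep U.img U.pow

end Pool.Agent.Helper22.SC
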