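import Pool.Agent.Helper22.SC.SatSet

/-! # Sets of codes -/

namespace Pool.Agent.Helper22.SC

universe u

open ZFSet
open Pool.Agent.Helper66.SC (Fml Sat IsZF Cls sat_rn mem_Pow img mem_img tc CardLe IsDelta0 IsSigma)

variable {C : Cls.{u}}
variable {α β γ δ : Type (u + 1)} [Ctx.{u} α] [Ctx.{u} β] [Ctx.{u} γ] [Ctx.{u} δ]

/-! ### Closures -/

/-- the stages of the closure of `B` under `T` -/
noncomputable def clN (T : ZFSet.{u} → ZFSet.{u}) (B : ZFSet.{u}) : ℕ → ZFSet.{u}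
  | 0 => B
  | n + 1 => clN T B n ∪ T (clN T B n)

/-- the closure of `B` under `T` -/
noncomputable def cl (T : ZFSet.{u} → ZFSet.{u}) (B : ZFSet.{u}) : ZFSet.{u} :=
  ZFSet.iUnion (fun n : ULift.{u} ℕ => clN T B n.down)

theorem mem_cl {T : ZFSet.{u} → ZFSet.{u}} {B x : ZFSet.{u}} :
    x ∈ cl T B ↔ ∃ n, x ∈ clN T B n := by
  unfold cl
  rw [mem_iUnion]
  exact ⟨fun ⟨n, h⟩ => ⟨n.down, h⟩, fun ⟨n, h⟩ => ⟨⟨n⟩, h⟩⟩

theorem clN_mono {T : ZFSet.{u} → ZFSet.{u}} {B : ZFSet.{u}} {m n : ℕ} (h : m ≤ n) :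
    clN T B m ⊆ clN T B n := by
  induction h with
  | refl => exact subset_rfl
  | step _ ih => exact fun x hx => mem_union.2 (Or.inl (ih hx))

theorem U.cl [ZCls C] {T : Set ZFSet.{u} → Set ZFSet.{u} → α → ZFSet.{u} → ZFSet.{u}}
    {B : Set ZFSet.{u} → Set ZFSet.{u} → α → ZFSet.{u}}
    (hT : U C (fun N A (p : α × ZFSet.{u}) => T N A p.1 p.2)) (hB : U C B) :
    U C (fun N A a => SC.cl (T N A a) (B N A a)) := by
  unfold SC.cl
  refine U.natUnion (z := B) (S := fun N A a _ g => g ∪ T N A a g)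
    (H := fun N A a n => clN (T N A a) (B N A a) n) hB ?_ (fun _ _ _ => rfl)
    (fun _ _ _ _ => rfl)
  refine U.union (by apply_rules (transparency := .reducible) (maxDepth := 400) using is_poly) ?_
  exact hT.comp (f := fun _ _ (p : (α × ZFSet.{u}) × ZFSet.{u}) => (p.1.1, p.2)) (by apply_rules (transparency := .reducible) (maxDepth := 400) using is_poly)

/-! ### Operations on codes -/

noncomputable def cneg (c : ZFSet.{u}) : ZFSet.{u} := mkc (ck c) (nat 3) c ∅
noncomputable def cand (c d : ZFSet.{u}) : ZFSet.{u} := mkc (ck c) (nat 4) c d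
noncomputable def cex (c : ZFSet.{u}) : ZFSet.{u} := mkc (⋃₀ (ck c)) (nat 5) c ∅
/-- code of `ex (and (mem 0 (j+1)) φ)` from `j` and the code of `φ` -/
noncomputable def cbex (j c : ZFSet.{u}) : ZFSet.{u} :=
  cex (cand (mkc (ck c) (nat 0) (nat 0) (insert j j)) c)

theorem cneg_code {k : ℕ} (φ : Fml k) : (cneg (code φ) : ZFSet.{u}) = code (.neg φ) := by
  simp [cneg, code]

theorem cand_code {k : ℕ} (φ ψ : Fml k) :
    (cand (code φ) (code ψ) : ZFSet.{u}) = code (.and φ ψ) := by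
  simp [cand, code]

theorem cex_code {k : ℕ} (φ : Fml (k + 1)) : (cex (code φ) : ZFSet.{u}) = code (.ex φ) := by
  simp [cex, code, sUnion_nat_succ]

theorem cbex_code {k : ℕ} (j : Fin k) (φ : Fml (k + 1)) :
    (cbex (nat j) (code φ) : ZFSet.{u}) = code (.ex (.and (.mem 0 j.succ) φ)) := by
  have h : (mkc (ck (code φ)) (nat 0) (nat 0) (insert (nat j) (nat j)) : ZFSet.{u}) =
      code (.mem (0 : Fin (k + 1)) j.succ) := by
    rw [ck_code, ← nat_succ]; simp [code]
  rw [cbex, h, cand_code, cex_code]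

theorem U.cneg [ZCls C] {f : Set ZFSet.{u} → Set ZFSet.{u} → α → ZFSet.{u}} (hf : U C f) :
    U C (fun N A a => SC.cneg (f N A a)) := by unfold SC.cneg; apply_rules (transparency := .reducible) (maxDepth := 400) using is_poly
theorem U.cand [ZCls C] {f g : Set ZFSet.{u} → Set ZFSet.{u} → α → ZFSet.{u}} (hf : U C f)
    (hg : U C g) : U C (fun N A a => SC.cand (f N A a) (g N A a)) := by unfold SC.cand; apply_rules (transparency := .reducible) (maxDepth := 400) using is_poly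
theorem U.cex [ZCls C] {f : Set ZFSet.{u} → Set ZFSet.{u} → α → ZFSet.{u}} (hf : U C f) :
    U C (fun N A a => SC.cex (f N A a)) := by unfold SC.cex; apply_rules (transparency := .reducible) (maxDepth := 400) using is_poly

attribute [is_poly] U.cneg U.cand U.cex

theorem U.cbex [ZCls C] {f g : Set ZFSet.{u} → Set ZFSet.{u} → α → ZFSet.{u}} (hf : U C f)
    (hg : U C g) : U C (fun N A a => SC.cbex (f N A a) (g N A a)) := by unfold SC.cbex; apply_rules (transparency := .reducible) (maxDepth := 400) using is_poly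

attribute [is_poly] U.cbex

/-! ### Sets of codes -/

/-- `D` is the set of codes of the formulas in the family `K` -/
def CodesOf (D : ZFSet.{u}) (K : ∀ {k : ℕ}, Fml k → Prop) : Prop :=
  ∀ c, c ∈ D ↔ ∃ (k : ℕ) (φ : Fml k), K φ ∧ c = code φ

/-- codes of the atomic formulas with `∈`, `=` -/
noncomputable def at0 : ZFSet.{u} :=
  ZFSet.sep (fun c => ∃ k ∈ (omega : ZFSet.{u}), ∃ i ∈ k, ∃ j ∈ k,
    c = mkc k (nat 0) i j ∨ c = mkc k (nat 1) i j)
    (omega.prod (omega.prod (omega.prod omega)))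

/-- codes of the atomic formulas with the predicate -/
noncomputable def at1 : ZFSet.{u} :=
  ZFSet.sep (fun c => ∃ k ∈ (omega : ZFSet.{u}), ∃ i ∈ k, c = mkc k (nat 2) i ∅)
    (omega.prod (omega.prod (omega.prod omega)))

theorem mem_at0 {c : ZFSet.{u}} : c ∈ at0 ↔ ∃ (k : ℕ) (i j : Fin k),
    c = code (.mem i j) ∨ c = code (.eq i j) := by
  unfold at0
  rw [mem_sep]
  constructor
  · rintro ⟨_, k, hk, i, hi, j, hj, h⟩
    obtain ⟨k, rfl⟩ := mem_omega.1 hk
    obtain ⟨i, hi', rfl⟩ := mem_nat.1 hi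
    obtain ⟨j, hj', rfl⟩ := mem_nat.1 hj
    exact ⟨k, ⟨i, hi'⟩, ⟨j, hj'⟩, h⟩
  · rintro ⟨k, i, j, h⟩
    refine ⟨?_, nat k, nat_mem_omega k, nat i, nat_mem_nat.2 i.2, nat j, nat_mem_nat.2 j.2, h⟩
    rcases h with rfl | rfl <;>
    · simp only [code, mkc, pair_mem_prod]
      exact ⟨nat_mem_omega _, nat_mem_omega _, nat_mem_omega _, nat_mem_omega _⟩

theorem mem_at1 {c : ZFSet.{u}} : c ∈ at1 ↔ ∃ (k : ℕ) (i : Fin k), c = code (.pr i) := by
  unfold at1
  rw [mem_sep]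
  constructor
  · rintro ⟨_, k, hk, i, hi, h⟩
    obtain ⟨k, rfl⟩ := mem_omega.1 hk
    obtain ⟨i, hi', rfl⟩ := mem_nat.1 hi
    exact ⟨k, ⟨i, hi'⟩, h⟩
  · rintro ⟨k, i, rfl⟩
    refine ⟨?_, nat k, nat_mem_omega k, nat i, nat_mem_nat.2 i.2, rfl⟩
    simp only [code, mkc, pair_mem_prod]
    exact ⟨nat_mem_omega _, nat_mem_omega _, nat_mem_omega _, omega_zero⟩

theorem U.at0 [ZCls C] : U C (fun _ _ (_ : α) => (SC.at0 : ZFSet.{u})) := by
  unfold SC.at0; apply_rules (transparency := .reducible) (maxDepth := 400) using is_poly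
theorem U.at1 [ZCls C] : U C (fun _ _ (_ : α) => (SC.at1 : ZFSet.{u})) := by
  unfold SC.at1; apply_rules (transparency := .reducible) (maxDepth := 400) using is_poly

attribute [is_poly] U.at0 U.at1

/-- pairs of codes with the same number of variables -/
noncomputable def andT (X : ZFSet.{u}) : ZFSet.{u} :=
  ⋃₀ (img X (fun c => img (ZFSet.sep (fun d => ck d = ck c) X) (fun d => cand c d)))

/-- existential quantification -/
noncomputable def exT (X : ZFSet.{u}) : ZFSet.{u} :=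
  img (ZFSet.sep (fun c => ∃ k ∈ (omega : ZFSet.{u}), ck c = insert k k) X) (fun c => cex c)

noncomputable def negT (X : ZFSet.{u}) : ZFSet.{u} := img X (fun c => cneg c)

noncomputable def bexT (X : ZFSet.{u}) : ZFSet.{u} :=
  ⋃₀ (img (ZFSet.sep (fun c => ∃ k ∈ (omega : ZFSet.{u}), ck c = insert k k) X)
    (fun c => img (⋃₀ (ck c)) (fun j => cbex j c)))

theorem U.andT [ZCls C] {f : Set ZFSet.{u} → Set ZFSet.{u} → α → ZFSet.{u}} (hf : U C f) :
    U C (fun N A a => SC.andT (f N A a)) := by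
  have h0 : U C (fun _ _ (p : ZFSet.{u}) => SC.andT p) := by unfold SC.andT; apply_rules (transparency := .reducible) (maxDepth := 400) using is_poly
  exact h0.comp hf
theorem U.exT [ZCls C] {f : Set ZFSet.{u} → Set ZFSet.{u} → α → ZFSet.{u}} (hf : U C f) :
    U C (fun N A a => SC.exT (f N A a)) := by
  have h0 : U C (fun _ _ (p : ZFSet.{u}) => SC.exT p) := by unfold SC.exT; apply_rules (transparency := .reducible) (maxDepth := 400) using is_poly
  exact h0.comp hf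
theorem U.negT [ZCls C] {f : Set ZFSet.{u} → Set ZFSet.{u} → α → ZFSet.{u}} (hf : U C f) :
    U C (fun N A a => SC.negT (f N A a)) := by
  have h0 : U C (fun _ _ (p : ZFSet.{u}) => SC.negT p) := by unfold SC.negT; apply_rules (transparency := .reducible) (maxDepth := 400) using is_poly
  exact h0.comp hf
theorem U.bexT [ZCls C] {f : Set ZFSet.{u} → Set ZFSet.{u} → α → ZFSet.{u}} (hf : U C f) :
    U C (fun N A a => SC.bexT (f N A a)) := by
  have h0 : U C (fun _ _ (p : ZFSet.{u}) => SC.bexT p) := by unfold SC.bexT; apply_rules (transparency := .reducible) (maxDepth := 400) using is_poly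
  exact h0.comp hf

attribute [is_poly] U.andT U.exT U.negT U.bexT

/-- `X` consists of codes of formulas in `K` -/
def SubCodes (X : ZFSet.{u}) (K : ∀ {k : ℕ}, Fml k → Prop) : Prop :=
  ∀ c ∈ X, ∃ (k : ℕ) (φ : Fml k), K φ ∧ c = code φ

theorem andT_sub {X : ZFSet.{u}} {K : ∀ {k : ℕ}, Fml k → Prop} (hX : SubCodes X K)
    (hK : ∀ {k : ℕ} {φ ψ : Fml k}, K φ → K ψ → K (.and φ ψ)) : SubCodes (andT X) K := by
  intro c hc
  unfold andT at hc
  rw [mem_sUnion] at hc
  obtain ⟨w, hw, hc⟩ := hc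
  obtain ⟨d, hd, rfl⟩ := mem_img.1 hw
  obtain ⟨e, he, rfl⟩ := mem_img.1 hc
  rw [mem_sep] at he
  obtain ⟨k, φ, h1, rfl⟩ := hX d hd
  obtain ⟨l, ψ, h2, rfl⟩ := hX e he.1
  have := he.2
  rw [ck_code, ck_code, nat_inj] at this
  subst this
  exact ⟨_, .and φ ψ, hK h1 h2, cand_code φ ψ⟩

theorem negT_sub {X : ZFSet.{u}} {K K' : ∀ {k : ℕ}, Fml k → Prop} (hX : SubCodes X K)
    (hK : ∀ {k : ℕ} {φ : Fml k}, K φ → K' (.neg φ)) : SubCodes (negT X) K' := by
  intro c hc
  unfold negT at hc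
  obtain ⟨d, hd, rfl⟩ := mem_img.1 hc
  obtain ⟨k, φ, h1, rfl⟩ := hX d hd
  exact ⟨_, .neg φ, hK h1, cneg_code φ⟩

theorem exT_sub {X : ZFSet.{u}} {K : ∀ {k : ℕ}, Fml k → Prop} (hX : SubCodes X K)
    (hK : ∀ {k : ℕ} {φ : Fml (k + 1)}, K φ → K (.ex φ)) : SubCodes (exT X) K := by
  intro c hc
  unfold exT at hc
  obtain ⟨d, hd, rfl⟩ := mem_img.1 hc
  rw [mem_sep] at hd
  obtain ⟨hd, k', hk', h⟩ := hd
  obtain ⟨k, φ, h1, rfl⟩ := hX d hd
  obtain ⟨m, rfl⟩ := mem_omega.1 hk'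
  rw [ck_code, ← nat_succ, nat_inj] at h
  subst h
  exact ⟨_, .ex φ, hK h1, cex_code φ⟩

theorem bexT_sub {X : ZFSet.{u}} {K : ∀ {k : ℕ}, Fml k → Prop} (hX : SubCodes X K)
    (hK : ∀ {k : ℕ} (j : Fin k) {φ : Fml (k + 1)}, K φ → K (.ex (.and (.mem 0 j.succ) φ))) :
    SubCodes (bexT X) K := by
  intro c hc
  unfold bexT at hc
  rw [mem_sUnion] at hc
  obtain ⟨w, hw, hc⟩ := hc
  obtain ⟨d, hd, rfl⟩ := mem_img.1 hw
  obtain ⟨j, hj, rfl⟩ := mem_img.1 hc
  rw [mem_sep] at hd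
  obtain ⟨hd, k', hk', h⟩ := hd
  obtain ⟨k, φ, h1, rfl⟩ := hX d hd
  obtain ⟨m, rfl⟩ := mem_omega.1 hk'
  rw [ck_code, ← nat_succ, nat_inj] at h
  subst h
  rw [ck_code, sUnion_nat_succ] at hj
  obtain ⟨j, hj', rfl⟩ := mem_nat.1 hj
  exact ⟨_, _, hK ⟨j, hj'⟩ h1, cbex_code ⟨j, hj'⟩ φ⟩

theorem cand_mem_andT {X : ZFSet.{u}} {k : ℕ} {φ ψ : Fml k} (h1 : code φ ∈ X)
    (h2 : code ψ ∈ X) : code (.and φ ψ) ∈ andT X := by
  unfold andT
  rw [mem_sUnion]
  refine ⟨_, mem_img.2 ⟨code φ, h1, rfl⟩, mem_img.2 ⟨code ψ, ?_, cand_code φ ψ⟩⟩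
  rw [mem_sep, ck_code, ck_code]
  exact ⟨h2, rfl⟩

theorem cneg_mem_negT {X : ZFSet.{u}} {k : ℕ} {φ : Fml k} (h1 : code φ ∈ X) :
    code (.neg φ) ∈ negT X := mem_img.2 ⟨code φ, h1, cneg_code φ⟩

theorem cex_mem_exT {X : ZFSet.{u}} {k : ℕ} {φ : Fml (k + 1)} (h1 : code φ ∈ X) :
    code (.ex φ) ∈ exT X := by
  unfold exT
  refine mem_img.2 ⟨code φ, ?_, cex_code φ⟩
  rw [mem_sep]
  exact ⟨h1, nat k, nat_mem_omega k, by rw [ck_code, nat_succ]⟩

theorem cbex_mem_bexT {X : ZFSet.{u}} {k : ℕ} {φ : Fml (k + 1)} (j : Fin k) (h1 : code φ ∈ X) :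
    code (.ex (.and (.mem 0 j.succ) φ)) ∈ bexT X := by
  unfold bexT
  rw [mem_sUnion]
  refine ⟨_, mem_img.2 ⟨code φ, ?_, rfl⟩, mem_img.2 ⟨nat j, ?_, cbex_code j φ⟩⟩
  · rw [mem_sep]
    exact ⟨h1, nat k, nat_mem_omega k, by rw [ck_code, nat_succ]⟩
  · rw [ck_code, sUnion_nat_succ]
    exact nat_mem_nat.2 j.2

/-! ### All formulas -/

noncomputable def fmlT (X : ZFSet.{u}) : ZFSet.{u} := negT X ∪ (andT X ∪ exT X)

/-- the set of codes of all formulas -/
noncomputable def fml : ZFSet.{u} := cl fmlT (at0 ∪ at1)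

theorem U.fml [ZCls C] : U C (fun _ _ (_ : α) => (SC.fml : ZFSet.{u})) := by
  unfold SC.fml
  refine U.cl (T := fun _ _ _ => fmlT) ?_ (by apply_rules (transparency := .reducible) (maxDepth := 400) using is_poly)
  unfold fmlT
  apply_rules (transparency := .reducible) (maxDepth := 400) using is_poly

theorem code_mem_cl {T : ZFSet.{u} → ZFSet.{u}} {B x : ZFSet.{u}} {n : ℕ}
    (h : x ∈ T (clN T B n)) : x ∈ cl T B :=
  mem_cl.2 ⟨n + 1, mem_union.2 (Or.inr h)⟩

theorem mem_cl_two {T : ZFSet.{u} → ZFSet.{u}} {B x y : ZFSet.{u}} (hx : x ∈ cl T B)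
    (hy : y ∈ cl T B) : ∃ n, x ∈ clN T B n ∧ y ∈ clN T B n := by
  obtain ⟨m, hm⟩ := mem_cl.1 hx
  obtain ⟨n, hn⟩ := mem_cl.1 hy
  exact ⟨max m n, clN_mono (le_max_left _ _) hm, clN_mono (le_max_right _ _) hn⟩

theorem cl_sub {T : ZFSet.{u} → ZFSet.{u}} {B : ZFSet.{u}} {K : ∀ {k : ℕ}, Fml k → Prop}
    (hB : SubCodes B K) (hT : ∀ X, SubCodes X K → SubCodes (T X) K) : SubCodes (cl T B) K := by
  have h : ∀ n, SubCodes (clN T B n) K := by
    intro n
    induction n with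
    | zero => exact hB
    | succ n ih =>
      intro c hc
      rcases mem_union.1 hc with h | h
      · exact ih c h
      · exact hT _ ih c h
  intro c hc
  obtain ⟨n, hn⟩ := mem_cl.1 hc
  exact h n c hn

theorem SubCodes.union {X Y : ZFSet.{u}} {K : ∀ {k : ℕ}, Fml k → Prop} (hX : SubCodes X K)
    (hY : SubCodes Y K) : SubCodes (X ∪ Y) K := by
  intro c hc
  rcases mem_union.1 hc with h | h
  · exact hX c h
  · exact hY c h

theorem mem_fml {c : ZFSet.{u}} : c ∈ fml ↔ ∃ (k : ℕ) (φ : Fml k), c = code φ := by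
  constructor
  · intro hc
    have h : SubCodes (fml : ZFSet.{u}) (fun _ => True) := by
      refine cl_sub (SubCodes.union ?_ ?_) ?_
      · intro c hc
        obtain ⟨k, i, j, h | h⟩ := mem_at0.1 hc
        · exact ⟨k, _, trivial, h⟩
        · exact ⟨k, _, trivial, h⟩
      · intro c hc
        obtain ⟨k, i, h⟩ := mem_at1.1 hc
        exact ⟨k, _, trivial, h⟩
      · intro X hX
        exact (negT_sub hX (fun _ => trivial)).union ((andT_sub hX (fun _ _ => trivial)).union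
          (exT_sub hX (fun _ => trivial)))
    obtain ⟨k, φ, _, h⟩ := h c hc
    exact ⟨k, φ, h⟩
  · rintro ⟨k, φ, rfl⟩
    induction φ with
    | mem i j => exact mem_cl.2 ⟨0, mem_union.2 (Or.inl (mem_at0.2 ⟨_, i, j, Or.inl rfl⟩))⟩
    | eq i j => exact mem_cl.2 ⟨0, mem_union.2 (Or.inl (mem_at0.2 ⟨_, i, j, Or.inr rfl⟩))⟩
    | pr i => exact mem_cl.2 ⟨0, mem_union.2 (Or.inr (mem_at1.2 ⟨_, i, rfl⟩))⟩
    | neg φ ih =>
      obtain ⟨n, hn⟩ := mem_cl.1 ih
      exact code_mem_cl (n := n) (mem_union.2 (Or.inl (cneg_mem_negT hn)))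
    | and φ ψ ih1 ih2 =>
      obtain ⟨n, h1, h2⟩ := mem_cl_two ih1 ih2
      exact code_mem_cl (n := n) (mem_union.2 (Or.inr (mem_union.2 (Or.inl (cand_mem_andT h1 h2)))))
    | ex φ ih =>
      obtain ⟨n, hn⟩ := mem_cl.1 ih
      exact code_mem_cl (n := n) (mem_union.2 (Or.inr (mem_union.2 (Or.inr (cex_mem_exT hn)))))

/-! ### The Levy hierarchy -/

noncomputable def d0T (X : ZFSet.{u}) : ZFSet.{u} := negT X ∪ (andT X ∪ bexT X)

/-- the set of codes of bounded formulas -/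
noncomputable def del0 : ZFSet.{u} := cl d0T at0

theorem mem_del0 {c : ZFSet.{u}} :
    c ∈ del0 ↔ ∃ (k : ℕ) (φ : Fml k), IsDelta0 φ ∧ c = code φ := by
  constructor
  · intro hc
    have h : SubCodes (del0 : ZFSet.{u}) IsDelta0 := by
      refine cl_sub ?_ ?_
      · intro c hc
        obtain ⟨k, i, j, h | h⟩ := mem_at0.1 hc
        · exact ⟨k, _, .mem i j, h⟩
        · exact ⟨k, _, .eq i j, h⟩
      · intro X hX
        exact (negT_sub hX (fun h => .neg h)).union ((andT_sub hX (fun h h' => .and h h')).union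
          (bexT_sub hX (fun j _ h => .bex j h)))
    exact h c hc
  · rintro ⟨k, φ, hφ, rfl⟩
    induction hφ with
    | mem i j => exact mem_cl.2 ⟨0, mem_at0.2 ⟨_, i, j, Or.inl rfl⟩⟩
    | eq i j => exact mem_cl.2 ⟨0, mem_at0.2 ⟨_, i, j, Or.inr rfl⟩⟩
    | neg _ ih =>
      obtain ⟨n, hn⟩ := mem_cl.1 ih
      exact code_mem_cl (n := n) (mem_union.2 (Or.inl (cneg_mem_negT hn)))
    | and _ _ ih1 ih2 =>
      obtain ⟨n, h1, h2⟩ := mem_cl_two ih1 ih2
      exact code_mem_cl (n := n) (mem_union.2 (Or.inr (mem_union.2 (Or.inl (cand_mem_andT h1 h2)))))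
    | bex j _ ih =>
      obtain ⟨n, hn⟩ := mem_cl.1 ih
      exact code_mem_cl (n := n)
        (mem_union.2 (Or.inr (mem_union.2 (Or.inr (cbex_mem_bexT j hn)))))

/-- the set of codes of the formulas in `Σ_n` -/
noncomputable def sig : ℕ → ZFSet.{u}
  | 0 => del0
  | n + 1 => cl exT (sig n ∪ negT (sig n))

theorem mem_sig {n : ℕ} {c : ZFSet.{u}} :
    c ∈ sig n ↔ ∃ (k : ℕ) (φ : Fml k), IsSigma n φ ∧ c = code φ := by
  induction n generalizing c with
  | zero =>
    rw [sig, mem_del0]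
    constructor
    · rintro ⟨k, φ, h, rfl⟩
      exact ⟨k, φ, .zero h, rfl⟩
    · rintro ⟨k, φ, h, rfl⟩
      cases h with
      | zero h => exact ⟨k, φ, h, rfl⟩
  | succ n ih =>
    constructor
    · intro hc
      have h : SubCodes (sig (n + 1) : ZFSet.{u}) (IsSigma (n + 1)) := by
        refine cl_sub (SubCodes.union ?_ ?_) ?_
        · intro c hc
          obtain ⟨k, φ, h, rfl⟩ := ih.1 hc
          exact ⟨k, φ, .up h, rfl⟩
        · have h1 : SubCodes (sig n : ZFSet.{u}) (IsSigma n) := fun c hc => ih.1 hc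
          exact negT_sub (K' := IsSigma (n + 1)) h1 (fun h => .neg h)
        · intro X hX
          exact exT_sub hX (fun h => .ex h)
      exact h c hc
    · rintro ⟨k, φ, hφ, rfl⟩
      have key : ∀ {m k : ℕ} {φ : Fml k}, IsSigma m φ → m = n + 1 →
          (code φ : ZFSet.{u}) ∈ sig (n + 1) := by
        intro m k φ h
        induction h with
        | zero _ => intro h; omega
        | @up m k φ h _ =>
          intro hm
          obtain rfl : m = n := by omega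
          exact mem_cl.2 ⟨0, mem_union.2 (Or.inl (ih.2 ⟨_, _, h, rfl⟩))⟩
        | @neg m k φ h _ =>
          intro hm
          obtain rfl : m = n := by omega
          exact mem_cl.2 ⟨0, mem_union.2 (Or.inr (cneg_mem_negT (ih.2 ⟨_, _, h, rfl⟩)))⟩
        | ex _ ih' =>
          intro hm
          obtain ⟨j, hj⟩ := mem_cl.1 (ih' hm)
          exact code_mem_cl (n := j) (cex_mem_exT hj)
      exact key hφ rfl

open Classical in
/-- `sig` as a function on `ω` -/
noncomputable def sigS (x : ZFSet.{u}) : ZFSet.{u} := if x ∈ ZFSet.omega then sig (toNat x) else ∅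

theorem sigS_nat (n : ℕ) : (sigS (nat n) : ZFSet.{u}) = sig n := by
  unfold sigS
  rw [if_pos (nat_mem_omega n), toNat_nat]

theorem U.sigS [ZCls C] {f : Set ZFSet.{u} → Set ZFSet.{u} → α → ZFSet.{u}} (hf : U C f) :
    U C (fun N A a => SC.sigS (f N A a)) := by
  unfold SC.sigS
  refine U.natrec (z := fun _ _ _ => del0) (S := fun _ _ _ _ g => SC.cl SC.exT (g ∪ SC.negT g))
    (H := fun _ _ _ n => sig n) ?_ ?_ (fun _ _ _ => rfl) (fun _ _ _ _ => rfl) hf
  · unfold del0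
    refine U.cl (T := fun _ _ _ => d0T) ?_ (by apply_rules (transparency := .reducible) (maxDepth := 400) using is_poly)
    unfold d0T
    apply_rules (transparency := .reducible) (maxDepth := 400) using is_poly
  · refine U.cl (T := fun _ _ _ => SC.exT) (by apply_rules (transparency := .reducible) (maxDepth := 400) using is_poly) (by apply_rules (transparency := .reducible) (maxDepth := 400) using is_poly)

attribute [is_poly] U.fml U.sigS

end Pool.Agent.Helper22.SC
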