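import Pool.Agent.Helper22.SC.Rec2
import Pool.Agent.Helper66.SC.Defs

/-! # Conversion between the two forms of uniform definability -/

namespace Pool.Agent.Helper22.SC

universe u

open ZFSet
open Pool.Agent.Helper66.SC (Fml Sat IsZF Cls sat_rn mem_Pow img mem_img tc CardLe UD UF UD1 UD2
  UD3 UF1 UF2 UF3)

variable {C : Cls.{u}}
variable {α β γ δ : Type (u + 1)} [Ctx.{u} α] [Ctx.{u} β] [Ctx.{u} γ] [Ctx.{u} δ]

@[simp] theorem in_fin {k : ℕ} {N : Set ZFSet.{u}} {v : Fin k → ZFSet.{u}} :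
    In N v ↔ ∀ i, v i ∈ N := Iff.rfl

theorem VarMap.eval {k : ℕ} {g : α → (Fin k → ZFSet.{u})} (hg : VarMap g) (i : Fin k) :
    VarMap (fun a => g a i) := by
  obtain ⟨ρ, h⟩ := hg
  exact ⟨fun _ => ρ i, fun a _ => h a i⟩

theorem VarMap.finMk {k : ℕ} {g : α → (Fin k → ZFSet.{u})} (hg : ∀ i, VarMap (fun a => g a i)) :
    VarMap g := by
  choose ρ h using hg
  exact ⟨fun i => ρ i 0, fun a i => h i a 0⟩

theorem U.eval {k : ℕ} {f : Set ZFSet.{u} → Set ZFSet.{u} → α → (Fin k → ZFSet.{u})}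
    (hf : U C f) (i : Fin k) : U C (fun N A a => f N A a i) :=
  U.comp (VarMap.id.eval i).u hf

theorem U.finMk {k : ℕ} {f : Set ZFSet.{u} → Set ZFSet.{u} → α → (Fin k → ZFSet.{u})}
    (hf : ∀ i, U C (fun N A a => f N A a i)) : U C f := by
  induction k with
  | zero =>
    have h : VarMap (fun _ : α => (Fin.elim0 : Fin 0 → ZFSet.{u})) :=
      VarMap.finMk (fun i => i.elim0)
    refine h.u.congr (fun N A _ a _ => ?_)
    funext i
    exact i.elim0
  | succ k ih =>
    have h1 : U C (fun N A a => Fin.tail (f N A a)) := ih (fun i => hf i.succ)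
    have h2 := (hf 0).prodMk h1
    have h3 : VarMap (fun p : ZFSet.{u} × (Fin k → ZFSet.{u}) =>
        (Fin.cons p.1 p.2 : Fin (k + 1) → ZFSet.{u})) := by
      refine VarMap.finMk (fun i => ?_)
      refine Fin.cases ?_ (fun i => ?_) i
      · exact VarMap.id.fst
      · exact VarMap.id.snd.eval i
    refine (U.comp h3.u h2).congr (fun N A _ a _ => ?_)
    exact Fin.cons_self_tail _

theorem U.finCons {k : ℕ} {f : Set ZFSet.{u} → Set ZFSet.{u} → α → ZFSet.{u}}
    {g : Set ZFSet.{u} → Set ZFSet.{u} → α → (Fin k → ZFSet.{u})} (hf : U C f) (hg : U C g) :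
    U C (fun N A a => (Fin.cons (f N A a) (g N A a) : Fin (k + 1) → ZFSet.{u})) := by
  refine U.finMk (fun i => ?_)
  refine Fin.cases ?_ (fun i => ?_) i
  · exact hf
  · exact hg.eval i

theorem U.finTail {k : ℕ}
    {g : Set ZFSet.{u} → Set ZFSet.{u} → α → (Fin (k + 1) → ZFSet.{u})} (hg : U C g) :
    U C (fun N A a => Fin.tail (g N A a)) :=
  U.finMk (fun i => hg.eval i.succ)

attribute [is_poly] U.eval U.finCons U.finTail

theorem ud_iff {k : ℕ} {R : Set ZFSet.{u} → Set ZFSet.{u} → (Fin k → ZFSet.{u}) → Prop} :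
    UD C R ↔ URel C R := by
  constructor
  · rintro ⟨φ, h⟩
    exact ⟨φ, fun N A hN a ha => (h N A hN a ha).symm⟩
  · rintro ⟨φ, h⟩
    exact ⟨φ, fun N A hN a ha => (h N A hN a ha).symm⟩

theorem uf_iff {k : ℕ} {F : Set ZFSet.{u} → Set ZFSet.{u} → (Fin k → ZFSet.{u}) → ZFSet.{u}} :
    UF C F ↔ U C F := by
  constructor
  · intro h
    refine U.of_graph (fun {N A} hN {a} ha => h.mem N A hN a ha) ?_
    exact (ud_iff.1 h.ud).comp (f := fun _ _ (p : (Fin k → ZFSet.{u}) × ZFSet.{u}) =>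
      (Fin.cons p.2 p.1 : Fin (k + 1) → ZFSet.{u})) (U.finCons U.id.snd U.id.fst)
  · intro h
    refine ⟨fun M A hM v hv => in_zfset.1 (h.closed hM hv), ?_⟩
    rw [ud_iff]
    exact URel.eq (U.id.eval 0) (h.comp (U.finTail U.id))

theorem ud1_iff {R : Set ZFSet.{u} → Set ZFSet.{u} → ZFSet.{u} → Prop} :
    UD1 C R ↔ URel C (fun M A (x : ZFSet.{u}) => R M A x) := by
  unfold UD1
  rw [ud_iff]
  constructor
  · intro h
    exact h.varMap (g := fun x : ZFSet.{u} => ![x]) (VarMap.finMk (fun i => by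
      fin_cases i; exact VarMap.id))
  · intro h
    exact h.varMap (g := fun v : Fin 1 → ZFSet.{u} => v 0) (VarMap.id.eval 0)

theorem ud2_iff {R : Set ZFSet.{u} → Set ZFSet.{u} → ZFSet.{u} → ZFSet.{u} → Prop} :
    UD2 C R ↔ URel C (fun M A (p : ZFSet.{u} × ZFSet.{u}) => R M A p.1 p.2) := by
  unfold UD2
  rw [ud_iff]
  constructor
  · intro h
    exact h.varMap (g := fun p : ZFSet.{u} × ZFSet.{u} => ![p.1, p.2]) (VarMap.finMk (fun i => by
      fin_cases i
      · exact VarMap.id.fst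
      · exact VarMap.id.snd))
  · intro h
    exact h.varMap (g := fun v : Fin 2 → ZFSet.{u} => (v 0, v 1))
      ((VarMap.id.eval 0).mk (VarMap.id.eval 1))

theorem ud3_iff {R : Set ZFSet.{u} → Set ZFSet.{u} → ZFSet.{u} → ZFSet.{u} → ZFSet.{u} → Prop} :
    UD3 C R ↔ URel C (fun M A (p : (ZFSet.{u} × ZFSet.{u}) × ZFSet.{u}) =>
      R M A p.1.1 p.1.2 p.2) := by
  unfold UD3
  rw [ud_iff]
  constructor
  · intro h
    exact h.varMap (g := fun p : (ZFSet.{u} × ZFSet.{u}) × ZFSet.{u} => ![p.1.1, p.1.2, p.2])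
      (VarMap.finMk (fun i => by
        fin_cases i
        · exact VarMap.id.fst.fst
        · exact VarMap.id.fst.snd
        · exact VarMap.id.snd))
  · intro h
    exact h.varMap (g := fun v : Fin 3 → ZFSet.{u} => ((v 0, v 1), v 2))
      (((VarMap.id.eval 0).mk (VarMap.id.eval 1)).mk (VarMap.id.eval 2))

theorem uf1_iff {F : Set ZFSet.{u} → Set ZFSet.{u} → ZFSet.{u} → ZFSet.{u}} :
    UF1 C F ↔ U C (fun M A (x : ZFSet.{u}) => F M A x) := by
  unfold UF1
  rw [uf_iff]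
  constructor
  · intro h
    exact h.comp (f := fun _ _ (x : ZFSet.{u}) => (![x] : Fin 1 → ZFSet.{u}))
      (U.finMk (fun i => by fin_cases i; exact U.id))
  · intro h
    exact h.comp (U.id.eval 0)

theorem uf2_iff {F : Set ZFSet.{u} → Set ZFSet.{u} → ZFSet.{u} → ZFSet.{u} → ZFSet.{u}} :
    UF2 C F ↔ U C (fun M A (p : ZFSet.{u} × ZFSet.{u}) => F M A p.1 p.2) := by
  unfold UF2
  rw [uf_iff]
  constructor
  · intro h
    exact h.comp (f := fun _ _ (p : ZFSet.{u} × ZFSet.{u}) => (![p.1, p.2] : Fin 2 → ZFSet.{u}))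
      (U.finMk (fun i => by
        fin_cases i
        · exact U.id.fst
        · exact U.id.snd))
  · intro h
    exact h.comp ((U.id.eval 0).prodMk (U.id.eval 1))

theorem uf3_iff {F : Set ZFSet.{u} → Set ZFSet.{u} → ZFSet.{u} → ZFSet.{u} → ZFSet.{u} →
    ZFSet.{u}} :
    UF3 C F ↔ U C (fun M A (p : (ZFSet.{u} × ZFSet.{u}) × ZFSet.{u}) =>
      F M A p.1.1 p.1.2 p.2) := by
  unfold UF3
  rw [uf_iff]
  constructor
  · intro h
    exact h.comp (f := fun _ _ (p : (ZFSet.{u} × ZFSet.{u}) × ZFSet.{u}) =>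
      (![p.1.1, p.1.2, p.2] : Fin 3 → ZFSet.{u}))
      (U.finMk (fun i => by
        fin_cases i
        · exact U.id.fst.fst
        · exact U.id.fst.snd
        · exact U.id.snd))
  · intro h
    exact h.comp (((U.id.eval 0).prodMk (U.id.eval 1)).prodMk (U.id.eval 2))

instance : ZCls.{u} Pool.Agent.Helper66.SC.CZ := ⟨fun h => h⟩

instance : ZCls.{u} Pool.Agent.Helper66.SC.CZC := ⟨fun h => h.1⟩

end Pool.Agent.Helper22.SC
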