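import Pool.Agent.Helper66.SC.Calc

/-!
# Uniform definability over transitive models, with product contexts

`URel C C R`: the relation `R` (depending on the structure) is defined by one formula in all structures
of the class `C`; `U C f`: the function `f` between contexts is total on all structures of the class
and uniformly definable.  Contexts: `ZFSet`, `PUnit`, `Fin k → ZFSet` and products.
-/

namespace Pool.Agent.Helper22.SC

universe u

open ZFSet
open Pool.Agent.Helper66.SC (Fml Sat IsZF Cls sat_rn)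

/-! ### Contexts -/

/-- A context: a type of finite tuples of sets. -/
class Ctx (α : Type (u + 1)) where
  n : ℕ
  vec : α → Fin n → ZFSet.{u}
  inj : Function.Injective vec
  surj : Function.Surjective vec

instance : Ctx.{u} ZFSet.{u} where
  n := 1
  vec x := fun _ => x
  inj := fun x y h => congrFun h 0
  surj := fun v => ⟨v 0, by funext i; rw [Subsingleton.elim i 0]⟩

instance {k : ℕ} : Ctx.{u} (Fin k → ZFSet.{u}) where
  n := k
  vec v := v
  inj := fun _ _ h => h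
  surj := fun v => ⟨v, rfl⟩

instance : Ctx.{u} PUnit.{u + 2} where
  n := 0
  vec _ := Fin.elim0
  inj := fun _ _ _ => rfl
  surj := fun v => ⟨⟨⟩, by funext i; exact i.elim0⟩

instance {α β : Type (u + 1)} [Ctx.{u} α] [Ctx.{u} β] : Ctx.{u} (α × β) where
  n := Ctx.n α + Ctx.n β
  vec p := Fin.append (Ctx.vec p.1) (Ctx.vec p.2)
  inj := by
    rintro ⟨a, b⟩ ⟨a', b'⟩ h
    have h1 : Ctx.vec a = Ctx.vec a' := by
      funext i
      have := congrFun h (Fin.castAdd _ i)
      simpa using this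
    have h2 : Ctx.vec b = Ctx.vec b' := by
      funext i
      have := congrFun h (Fin.natAdd _ i)
      simpa using this
    exact Prod.ext (Ctx.inj h1) (Ctx.inj h2)
  surj := by
    intro v
    obtain ⟨a, ha⟩ := Ctx.surj (α := α) (fun i => v (Fin.castAdd _ i))
    obtain ⟨b, hb⟩ := Ctx.surj (α := β) (fun i => v (Fin.natAdd _ i))
    refine ⟨(a, b), ?_⟩
    funext i
    refine Fin.addCases (fun i => ?_) (fun i => ?_) i
    · simp [ha]
    · simp [hb]

variable {C : Cls.{u}}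

/-- Classes of transitive models of ZF. -/
class ZCls (C : Cls.{u}) : Prop where
  isZF : ∀ {M A : Set ZFSet.{u}}, C M A → IsZF M A

instance : ZCls.{u} (fun M A => IsZF M A) := ⟨fun h => h⟩

variable {α β γ δ : Type (u + 1)} [Ctx.{u} α] [Ctx.{u} β] [Ctx.{u} γ] [Ctx.{u} δ]

/-- all entries of the tuple lie in `N` -/
def In (N : Set ZFSet.{u}) (a : α) : Prop := ∀ i, Ctx.vec a i ∈ N

@[simp] theorem in_zfset {N : Set ZFSet.{u}} {x : ZFSet.{u}} : In N x ↔ x ∈ N :=
  ⟨fun h => h 0, fun h _ => h⟩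

@[simp] theorem in_unit {N : Set ZFSet.{u}} {x : PUnit.{u + 2}} : In N x := fun i => i.elim0

@[simp] theorem in_prod {N : Set ZFSet.{u}} {p : α × β} : In N p ↔ In N p.1 ∧ In N p.2 := by
  constructor
  · intro h
    refine ⟨fun i => ?_, fun i => ?_⟩
    · have := h (Fin.castAdd _ i)
      simpa [Ctx.vec] using this
    · have := h (Fin.natAdd _ i)
      simpa [Ctx.vec] using this
  · rintro ⟨h1, h2⟩ i
    refine Fin.addCases (fun i => ?_) (fun i => ?_) i
    · simpa [Ctx.vec] using h1 i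
    · simpa [Ctx.vec] using h2 i

/-- the renaming between `append v ![x]` and `cons x v` -/
def rot (k : ℕ) : Fin (k + 1) → Fin (k + 1) :=
  Fin.addCases (m := k) (n := 1) (fun i => i.succ) (fun _ => 0)

theorem cons_rot (a : α) (x : ZFSet.{u}) :
    (Fin.cons x (Ctx.vec a) : Fin (Ctx.n α + 1) → ZFSet.{u}) ∘ rot (Ctx.n α) =
      Ctx.vec ((a, x) : α × ZFSet.{u}) := by
  funext i
  refine Fin.addCases (m := Ctx.n α) (n := 1) (fun i => ?_) (fun i => ?_) i
  · have h : Ctx.vec ((a, x) : α × ZFSet.{u}) (Fin.castAdd 1 i) = Ctx.vec a i :=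
      Fin.append_left _ _ _
    rw [h]
    simp [rot]
  · have h : Ctx.vec ((a, x) : α × ZFSet.{u}) (Fin.natAdd (Ctx.n α) i) = x :=
      Fin.append_right _ _ _
    rw [h]
    simp [rot]

theorem sat_rot (N A : Set ZFSet.{u}) (φ : Fml (Ctx.n α + 1)) (a : α) (x : ZFSet.{u}) :
    Sat N A (φ.rn (rot (Ctx.n α))) (Fin.cons x (Ctx.vec a)) ↔
      Sat N A φ (Ctx.vec ((a, x) : α × ZFSet.{u})) := by
  rw [sat_rn, cons_rot]

/-- Uniformly definable relations. -/
def URel (C : Cls.{u}) (R : Set ZFSet.{u} → Set ZFSet.{u} → α → Prop) : Prop :=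
  ∃ φ : Fml (Ctx.n α), ∀ N A, C N A → ∀ a, In N a → (R N A a ↔ Sat N A φ (Ctx.vec a))

/-- Uniformly definable functions between contexts, total on transitive models. -/
structure U (C : Cls.{u}) (f : Set ZFSet.{u} → Set ZFSet.{u} → α → β) : Prop where
  closed : ∀ {N A}, C N A → ∀ {a}, In N a → In N (f N A a)
  subst : ∀ {γ : Type (u + 1)} [Ctx.{u} γ] {R : Set ZFSet.{u} → Set ZFSet.{u} → γ × β → Prop},
    URel C R → URel C (fun N A (p : γ × α) => R N A (p.1, f N A p.2))


theorem URel.congr {R S : Set ZFSet.{u} → Set ZFSet.{u} → α → Prop} (hR : URel C R)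
    (h : ∀ N A, C N A → ∀ a, In N a → (R N A a ↔ S N A a)) : URel C S := by
  obtain ⟨φ, hφ⟩ := hR
  exact ⟨φ, fun N A hN a ha => (h N A hN a ha).symm.trans (hφ N A hN a ha)⟩

theorem URel.not {R : Set ZFSet.{u} → Set ZFSet.{u} → α → Prop} (hR : URel C R) :
    URel C (fun N A a => ¬ R N A a) := by
  obtain ⟨φ, hφ⟩ := hR
  exact ⟨.neg φ, fun N A hN a ha => by simp [Sat, hφ N A hN a ha]⟩

theorem URel.and {R S : Set ZFSet.{u} → Set ZFSet.{u} → α → Prop} (hR : URel C R) (hS : URel C S) :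
    URel C (fun N A a => R N A a ∧ S N A a) := by
  obtain ⟨φ, hφ⟩ := hR
  obtain ⟨ψ, hψ⟩ := hS
  exact ⟨.and φ ψ, fun N A hN a ha => by simp [Sat, hφ N A hN a ha, hψ N A hN a ha]⟩

theorem URel.or {R S : Set ZFSet.{u} → Set ZFSet.{u} → α → Prop} (hR : URel C R) (hS : URel C S) :
    URel C (fun N A a => R N A a ∨ S N A a) :=
  (hR.not.and hS.not).not.congr (fun N A _ a _ => by tauto)

theorem URel.imp {R S : Set ZFSet.{u} → Set ZFSet.{u} → α → Prop} (hR : URel C R) (hS : URel C S) :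
    URel C (fun N A a => R N A a → S N A a) :=
  (hR.not.or hS).congr (fun N A _ a _ => by tauto)

theorem URel.iff {R S : Set ZFSet.{u} → Set ZFSet.{u} → α → Prop} (hR : URel C R) (hS : URel C S) :
    URel C (fun N A a => R N A a ↔ S N A a) :=
  ((hR.imp hS).and (hS.imp hR)).congr (fun N A _ a _ => by tauto)

theorem URel.ex {R : Set ZFSet.{u} → Set ZFSet.{u} → α → ZFSet.{u} → Prop}
    (hR : URel C (fun N A (p : α × ZFSet.{u}) => R N A p.1 p.2)) :
    URel C (fun N A a => ∃ x ∈ N, R N A a x) := by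
  obtain ⟨φ, hφ⟩ := hR
  refine ⟨.ex (φ.rn (rot (Ctx.n α))), fun N A hN a ha => ?_⟩
  refine exists_congr fun x => and_congr_right fun hx => ?_
  rw [sat_rot]
  exact hφ N A hN (a, x) (by simp [ha, hx])

theorem URel.all {R : Set ZFSet.{u} → Set ZFSet.{u} → α → ZFSet.{u} → Prop}
    (hR : URel C (fun N A (p : α × ZFSet.{u}) => R N A p.1 p.2)) :
    URel C (fun N A a => ∀ x ∈ N, R N A a x) :=
  (URel.ex (R := fun N A a x => ¬ R N A a x) hR.not).not.congr (fun N A _ a _ => by push_neg; rfl)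

/-- A map of contexts given by a renaming of variables. -/
def VarMap (g : α → β) : Prop :=
  ∃ ρ : Fin (Ctx.n β) → Fin (Ctx.n α), ∀ a i, Ctx.vec (g a) i = Ctx.vec a (ρ i)

theorem VarMap.in' {g : α → β} (hg : VarMap g) {N : Set ZFSet.{u}} {a : α} (ha : In N a) :
    In N (g a) := by
  obtain ⟨ρ, h⟩ := hg
  intro i
  rw [h]
  exact ha _

theorem URel.varMap {R : Set ZFSet.{u} → Set ZFSet.{u} → β → Prop} (hR : URel C R) {g : α → β}
    (hg : VarMap g) : URel C (fun N A a => R N A (g a)) := by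
  obtain ⟨φ, hφ⟩ := hR
  have hg' := hg
  obtain ⟨ρ, hρ⟩ := hg
  refine ⟨φ.rn ρ, fun N A hN a ha => ?_⟩
  have : Ctx.vec (g a) = fun i => Ctx.vec a (ρ i) := funext (hρ a)
  exact (hφ N A hN _ (hg'.in' ha)).trans (by rw [sat_rn, this]; rfl)

theorem VarMap.id : VarMap (fun a : α => a) := ⟨_root_.id, fun _ _ => rfl⟩

theorem VarMap.fst {g : α → β × γ} (hg : VarMap g) : VarMap (fun a => (g a).1) := by
  obtain ⟨ρ, h⟩ := hg
  refine ⟨fun i => ρ (Fin.castAdd _ i), fun a i => ?_⟩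
  have := h a (Fin.castAdd _ i)
  simpa [Ctx.vec] using this

theorem VarMap.snd {g : α → β × γ} (hg : VarMap g) : VarMap (fun a => (g a).2) := by
  obtain ⟨ρ, h⟩ := hg
  refine ⟨fun i => ρ (Fin.natAdd _ i), fun a i => ?_⟩
  have := h a (Fin.natAdd _ i)
  simpa [Ctx.vec] using this

theorem VarMap.mk {g : α → β} {h : α → γ} (hg : VarMap g) (hh : VarMap h) :
    VarMap (fun a => (g a, h a)) := by
  obtain ⟨ρ, h1⟩ := hg
  obtain ⟨σ, h2⟩ := hh
  refine ⟨Fin.addCases ρ σ, fun a i => ?_⟩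
  refine Fin.addCases (fun i => ?_) (fun i => ?_) i
  · have : Ctx.vec (g a, h a) (Fin.castAdd _ i) = Ctx.vec (g a) i := Fin.append_left _ _ _
    rw [this, h1]; simp
  · have : Ctx.vec (g a, h a) (Fin.natAdd _ i) = Ctx.vec (h a) i := Fin.append_right _ _ _
    rw [this, h2]; simp

theorem VarMap.unit : VarMap (fun _ : α => PUnit.unit.{u + 2}) :=
  ⟨Fin.elim0, fun _ i => i.elim0⟩

theorem VarMap.u {g : α → β} (hg : VarMap g) : U C (fun _ _ a => g a) where
  closed _ _ ha := hg.in' ha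
  subst {γ} _ R hR := by
    refine hR.varMap (g := fun p : γ × α => (p.1, g p.2)) ?_
    refine VarMap.mk VarMap.id.fst ?_
    obtain ⟨ρ, h⟩ := hg
    refine ⟨fun i => Fin.natAdd _ (ρ i), fun a i => ?_⟩
    rw [h]
    have : Ctx.vec a (Fin.natAdd _ (ρ i)) = Ctx.vec a.2 (ρ i) := Fin.append_right _ _ _
    rw [this]

theorem URel.comp {R : Set ZFSet.{u} → Set ZFSet.{u} → β → Prop} (hR : URel C R)
    {f : Set ZFSet.{u} → Set ZFSet.{u} → α → β} (hf : U C f) :
    URel C (fun N A a => R N A (f N A a)) := by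
  have h1 : URel C (fun N A (p : PUnit.{u + 2} × β) => R N A p.2) := hR.varMap VarMap.id.snd
  have h2 := hf.subst h1
  exact h2.varMap (g := fun a : α => (PUnit.unit, a)) (VarMap.mk VarMap.unit VarMap.id)

theorem U.comp {g : Set ZFSet.{u} → Set ZFSet.{u} → β → γ} (hg : U C g)
    {f : Set ZFSet.{u} → Set ZFSet.{u} → α → β} (hf : U C f) : U C (fun N A a => g N A (f N A a)) where
  closed hN _ ha := hg.closed hN (hf.closed hN ha)
  subst hR := hf.subst (hg.subst hR)

theorem U.id : U C (fun _ _ (a : α) => a) := VarMap.id.u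

theorem U.fst {f : Set ZFSet.{u} → Set ZFSet.{u} → α → β × γ} (hf : U C f) :
    U C (fun N A a => (f N A a).1) := U.comp (VarMap.id.fst.u) hf

theorem U.snd {f : Set ZFSet.{u} → Set ZFSet.{u} → α → β × γ} (hf : U C f) :
    U C (fun N A a => (f N A a).2) := U.comp (VarMap.id.snd.u) hf

theorem U.unit : U C (fun _ _ (_ : α) => PUnit.unit.{u + 2}) := VarMap.unit.u

theorem U.prodMk {f : Set ZFSet.{u} → Set ZFSet.{u} → α → β} {g : Set ZFSet.{u} → Set ZFSet.{u} → α → γ}
    (hf : U C f) (hg : U C g) : U C (fun N A a => (f N A a, g N A a)) where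
  closed hN _ ha := by simp [hf.closed hN ha, hg.closed hN ha]
  subst {δ} _ R hR := by
    -- R on δ × (β × γ)
    have h1 : URel C (fun N A (p : (δ × β) × γ) => R N A (p.1.1, (p.1.2, p.2))) :=
      hR.varMap (g := fun p : (δ × β) × γ => (p.1.1, (p.1.2, p.2)))
        (VarMap.mk VarMap.id.fst.fst (VarMap.mk VarMap.id.fst.snd VarMap.id.snd))
    have h2 := hg.subst h1
    have h3 : URel C (fun N A (p : (δ × α) × β) => R N A (p.1.1, (p.2, g N A p.1.2))) :=
      h2.varMap (g := fun p : (δ × α) × β => ((p.1.1, p.2), p.1.2))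
        (VarMap.mk (VarMap.mk VarMap.id.fst.fst VarMap.id.snd) VarMap.id.fst.snd)
    have h4 := hf.subst h3
    exact h4.varMap (g := fun p : δ × α => (p, p.2)) (VarMap.mk VarMap.id VarMap.id.snd)

theorem URel.mem {f g : Set ZFSet.{u} → Set ZFSet.{u} → α → ZFSet.{u}} (hf : U C f) (hg : U C g) :
    URel C (fun N A a => f N A a ∈ g N A a) := by
  have : URel C (fun _ _ (p : ZFSet.{u} × ZFSet.{u}) => p.1 ∈ p.2) := by
    refine ⟨.mem (Fin.castAdd 1 0 : Fin (1 + 1)) (Fin.natAdd 1 0 : Fin (1 + 1)), fun N A _ a _ => ?_⟩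
    have h1 : Ctx.vec a (Fin.castAdd 1 0) = a.1 := Fin.append_left _ _ _
    have h2 : Ctx.vec a (Fin.natAdd 1 0) = a.2 := Fin.append_right _ _ _
    change a.1 ∈ a.2 ↔ Ctx.vec a (Fin.castAdd 1 0) ∈ Ctx.vec a (Fin.natAdd 1 0)
    rw [h1, h2]
  exact this.comp (hf.prodMk hg)

theorem URel.eq {f g : Set ZFSet.{u} → Set ZFSet.{u} → α → ZFSet.{u}} (hf : U C f) (hg : U C g) :
    URel C (fun N A a => f N A a = g N A a) := by
  have : URel C (fun _ _ (p : ZFSet.{u} × ZFSet.{u}) => p.1 = p.2) := by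
    refine ⟨.eq (Fin.castAdd 1 0 : Fin (1 + 1)) (Fin.natAdd 1 0 : Fin (1 + 1)), fun N A _ a _ => ?_⟩
    have h1 : Ctx.vec a (Fin.castAdd 1 0) = a.1 := Fin.append_left _ _ _
    have h2 : Ctx.vec a (Fin.natAdd 1 0) = a.2 := Fin.append_right _ _ _
    change a.1 = a.2 ↔ Ctx.vec a (Fin.castAdd 1 0) = Ctx.vec a (Fin.natAdd 1 0)
    rw [h1, h2]
  exact this.comp (hf.prodMk hg)

theorem URel.prd {f : Set ZFSet.{u} → Set ZFSet.{u} → α → ZFSet.{u}} (hf : U C f) :
    URel C (fun N A a => f N A a ∈ A) := by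
  have : URel C (fun _ A (p : ZFSet.{u}) => p ∈ A) :=
    ⟨.pr (0 : Fin 1), fun N A _ a _ => Iff.rfl⟩
  exact this.comp hf

theorem URel.true' [ZCls C] : URel C (fun _ _ (_ : α) => True) :=
  (URel.ex (R := fun _ _ _ x => x = x) (URel.eq (VarMap.id.snd.u) (VarMap.id.snd.u))).congr
    (fun N A hN a _ => by simpa using ⟨_, (ZCls.isZF hN).omega⟩)

theorem URel.false' [ZCls C] : URel C (fun _ _ (_ : α) => False) :=
  URel.true'.not.congr (fun _ _ _ _ _ => by simp)

/-- A function into sets with uniformly definable graph is uniformly definable. -/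
theorem U.of_graph {f : Set ZFSet.{u} → Set ZFSet.{u} → α → ZFSet.{u}}
    (hc : ∀ {N A}, C N A → ∀ {a}, In N a → f N A a ∈ N)
    (hg : URel C (fun N A (p : α × ZFSet.{u}) => p.2 = f N A p.1)) : U C f where
  closed hN _ ha := in_zfset.2 (hc hN ha)
  subst {γ} _ R hR := by
    have h1 : URel C (fun N A (p : (γ × α) × ZFSet.{u}) => p.2 = f N A p.1.2 ∧ R N A (p.1.1, p.2)) :=
      (hg.comp (f := fun _ _ (p : (γ × α) × ZFSet.{u}) => (p.1.2, p.2))
        ((U.id.fst.snd).prodMk U.id.snd)).and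
      (hR.comp (f := fun _ _ (p : (γ × α) × ZFSet.{u}) => (p.1.1, p.2))
        ((U.id.fst.fst).prodMk U.id.snd))
    refine (URel.ex (R := fun N A (q : γ × α) x => x = f N A q.2 ∧ R N A (q.1, x)) h1).congr ?_
    intro N A hN p hp
    constructor
    · rintro ⟨x, hx, rfl, h⟩
      exact h
    · intro h
      exact ⟨_, hc hN (in_prod.1 hp).2, rfl, h⟩

theorem U.congr {f g : Set ZFSet.{u} → Set ZFSet.{u} → α → β} (hf : U C f)
    (h : ∀ N A, C N A → ∀ a, In N a → f N A a = g N A a) : U C g where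
  closed {N A} hN a ha := by rw [← h N A hN a ha]; exact hf.closed hN ha
  subst hR := (hf.subst hR).congr (fun N A hN p hp => by rw [h N A hN _ (in_prod.1 hp).2])

/-! ### Bounded quantifiers -/

theorem URel.bex [ZCls C] {R : Set ZFSet.{u} → Set ZFSet.{u} → α → ZFSet.{u} → Prop}
    {f : Set ZFSet.{u} → Set ZFSet.{u} → α → ZFSet.{u}} (hf : U C f)
    (hR : URel C (fun N A (p : α × ZFSet.{u}) => R N A p.1 p.2)) :
    URel C (fun N A a => ∃ x ∈ f N A a, R N A a x) := by
  have h1 : URel C (fun N A (p : α × ZFSet.{u}) => p.2 ∈ f N A p.1 ∧ R N A p.1 p.2) :=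
    (URel.mem U.id.snd (hf.comp U.id.fst)).and hR
  refine (URel.ex (R := fun N A a x => x ∈ f N A a ∧ R N A a x) h1).congr ?_
  intro N A hN a ha
  constructor
  · rintro ⟨x, -, h⟩
    exact ⟨x, h⟩
  · rintro ⟨x, hx, h⟩
    exact ⟨x, (ZCls.isZF hN).trans _ (in_zfset.1 (hf.closed hN ha)) _ hx, hx, h⟩

theorem URel.ball [ZCls C] {R : Set ZFSet.{u} → Set ZFSet.{u} → α → ZFSet.{u} → Prop}
    {f : Set ZFSet.{u} → Set ZFSet.{u} → α → ZFSet.{u}} (hf : U C f)
    (hR : URel C (fun N A (p : α × ZFSet.{u}) => R N A p.1 p.2)) :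
    URel C (fun N A a => ∀ x ∈ f N A a, R N A a x) :=
  (URel.bex (R := fun N A a x => ¬ R N A a x) hf hR.not).not.congr
    (fun N A _ a _ => by push_neg; rfl)

theorem URel.subset [ZCls C] {f g : Set ZFSet.{u} → Set ZFSet.{u} → α → ZFSet.{u}} (hf : U C f) (hg : U C g) :
    URel C (fun N A a => f N A a ⊆ g N A a) :=
  (URel.ball (R := fun N A a x => x ∈ g N A a) hf (URel.mem U.id.snd (hg.comp U.id.fst))).congr
    (fun N A _ a _ => Iff.rfl)

end Pool.Agent.Helper22.SC
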