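import Pool.Agent.Helper22.SC.CodeSets

/-! # The stability predicate is uniformly definable -/

namespace Pool.Agent.Helper22.SC

universe u

open ZFSet
open Pool.Agent.Helper66.SC (Fml Sat IsZF Cls sat_rn mem_Pow img mem_img tc CardLe IsDelta0 IsSigma
  SigmaColl SigmaElem Hset IsStrongLimitIn IsCardIn IsGood StabPred HasChoice CZC)

variable {C : Cls.{u}}
variable {α β γ δ : Type (u + 1)} [Ctx.{u} α] [Ctx.{u} β] [Ctx.{u} γ] [Ctx.{u} δ]

/-! ### `Σ_n` collection and elementarity for sets -/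

/-- `SigmaColl` through codes -/
def scS (n H : ZFSet.{u}) : Prop :=
  ∀ c ∈ sigS n, ∀ k ∈ (omega : ZFSet.{u}), ck c = insert (insert k k) (insert k k) →
    ∀ p ∈ tsetS H k, ∀ a ∈ H,
      (∀ x ∈ a, ∃ y ∈ H, ZFSet.pair x (ZFSet.pair y p) ∈ satS H ∅ c) →
        ∃ b ∈ H, ∀ x ∈ a, ∃ y ∈ b, ZFSet.pair x (ZFSet.pair y p) ∈ satS H ∅ c

/-- `SigmaElem` through codes -/
def seS (n H K : ZFSet.{u}) : Prop :=
  H ⊆ K ∧ ∀ c ∈ sigS n, ∀ e ∈ tsetS H (ck c), (e ∈ satS H ∅ c ↔ e ∈ satS K ∅ c)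

theorem URel.scS [ZCls C] {f g : Set ZFSet.{u} → Set ZFSet.{u} → α → ZFSet.{u}} (hf : U C f)
    (hg : U C g) : URel C (fun N A a => SC.scS (f N A a) (g N A a)) := by
  refine URel.app2 (R := fun _ _ x y => SC.scS x y) ?_ hf hg
  unfold SC.scS
  apply_rules (transparency := .reducible) (maxDepth := 400) using is_poly

theorem URel.seS [ZCls C] {f g h : Set ZFSet.{u} → Set ZFSet.{u} → α → ZFSet.{u}} (hf : U C f)
    (hg : U C g) (hh : U C h) :
    URel C (fun N A a => SC.seS (f N A a) (g N A a) (h N A a)) := by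
  refine URel.app3 (R := fun _ _ x y z => SC.seS x y z) ?_ hf hg hh
  unfold SC.seS
  apply_rules (transparency := .reducible) (maxDepth := 400) using is_poly

theorem sat_empty_iff {H : ZFSet.{u}} {k : ℕ} (φ : Fml k) (v : Fin k → ZFSet.{u})
    (hv : ∀ i, v i ∈ H) : tup v ∈ satS H ∅ (code φ) ↔ Sat {z | z ∈ H} ∅ φ v := by
  rw [tup_mem_satS (A := ∅) (fun x _ => by simp)]
  exact ⟨fun h => h.2, fun h => ⟨hv, h⟩⟩

theorem scS_iff {H : ZFSet.{u}} (hH : H.IsTransitive) (n : ℕ) :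
    scS (nat n) H ↔ SigmaColl n {z | z ∈ H} := by
  have key : ∀ {k : ℕ} (φ : Fml (k + 2)) (p : Fin k → ZFSet.{u}), (∀ i, p i ∈ H) → ∀ x ∈ H,
      ∀ y ∈ H, (ZFSet.pair x (ZFSet.pair y (tup p)) ∈ satS H ∅ (code φ) ↔
        Sat {z | z ∈ H} ∅ φ (Fin.cons x (Fin.cons y p))) := by
    intro k φ p hp x hx y hy
    rw [← tup_cons y p, ← tup_cons x (Fin.cons y p)]
    refine sat_empty_iff φ _ (fun i => ?_)
    refine Fin.cases ?_ (fun i => ?_) i
    · exact hx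
    · refine Fin.cases ?_ (fun i => ?_) i
      · exact hy
      · exact hp i
  unfold scS SigmaColl
  rw [sigS_nat]
  constructor
  · intro h k φ hφ p hp a ha hxy
    have h1 := h (code φ) (mem_sig.2 ⟨_, φ, hφ, rfl⟩) (nat k) (nat_mem_omega k)
      (by rw [ck_code, nat_succ, nat_succ]) (tup p) (by rw [tsetS_nat]; exact tup_mem_tset.2 hp)
      a ha (fun x hx => by
        obtain ⟨y, hy, h2⟩ := hxy x hx
        exact ⟨y, hy, (key φ p hp x (hH a ha hx) y hy).2 h2⟩)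
    obtain ⟨b, hb, h2⟩ := h1
    refine ⟨b, hb, fun x hx => ?_⟩
    obtain ⟨y, hy, h3⟩ := h2 x hx
    exact ⟨y, hy, (key φ p hp x (hH a ha hx) y (hH b hb hy)).1 h3⟩
  · intro h c hc k hk hck p hp a ha hxy
    obtain ⟨k', φ, hφ, rfl⟩ := mem_sig.1 hc
    obtain ⟨k, rfl⟩ := mem_omega.1 hk
    rw [ck_code, ← nat_succ, ← nat_succ, nat_inj] at hck
    subst hck
    rw [tsetS_nat] at hp
    obtain ⟨p, hp', rfl⟩ := mem_tset.1 hp
    obtain ⟨b, hb, h2⟩ := h k φ hφ p hp' a ha (fun x hx => by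
        obtain ⟨y, hy, h2⟩ := hxy x hx
        exact ⟨y, hy, (key φ p hp' x (hH a ha hx) y hy).1 h2⟩)
    refine ⟨b, hb, fun x hx => ?_⟩
    obtain ⟨y, hy, h3⟩ := h2 x hx
    exact ⟨y, hy, (key φ p hp' x (hH a ha hx) y (hH b hb hy)).2 h3⟩

theorem seS_iff {H K : ZFSet.{u}} (n : ℕ) :
    seS (nat n) H K ↔ SigmaElem n {z | z ∈ H} {z | z ∈ K} := by
  unfold seS SigmaElem
  rw [sigS_nat]
  constructor
  · rintro ⟨hHK, h⟩
    refine ⟨fun x hx => hHK hx, fun k φ hφ v hv => ?_⟩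
    have h1 := h (code φ) (mem_sig.2 ⟨_, φ, hφ, rfl⟩) (tup v)
      (by rw [ck_code, tsetS_nat]; exact tup_mem_tset.2 hv)
    rw [sat_empty_iff φ v hv, sat_empty_iff φ v (fun i => hHK (hv i))] at h1
    exact h1
  · rintro ⟨hHK, h⟩
    refine ⟨fun x hx => hHK hx, fun c hc e he => ?_⟩
    obtain ⟨k, φ, hφ, rfl⟩ := mem_sig.1 hc
    rw [ck_code, tsetS_nat] at he
    obtain ⟨v, hv, rfl⟩ := mem_tset.1 he
    rw [sat_empty_iff φ v hv, sat_empty_iff φ v (fun i => hHK (hv i))]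
    exact h k φ hφ v hv

/-! ### `H_α` -/

/-- `H_α` of `M` as a set -/
noncomputable def HS (M : Set ZFSet.{u}) (α : ZFSet.{u}) : ZFSet.{u} :=
  ZFSet.sep (fun x => ¬ CardLe M α (tc x)) (VM M α)

theorem U.HS [ZCls C] {f : Set ZFSet.{u} → Set ZFSet.{u} → α → ZFSet.{u}} (hf : U C f) :
    U C (fun N A a => SC.HS N (f N A a)) := by
  have h0 : U C (fun N _ (p : ZFSet.{u}) => SC.HS N p) := by
    unfold SC.HS; apply_rules (transparency := .reducible) (maxDepth := 400) using is_poly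
  exact U.app1 (h := fun N _ x => SC.HS N x) h0 hf

/-- every ordinal below the rank of `x` is the rank of an element of the transitive closure -/
theorem exists_rank_eq (x : ZFSet.{u}) : ∀ o < ZFSet.rank x, ∃ y ∈ tc x, ZFSet.rank y = o := by
  induction x using ZFSet.inductionOn with
  | h x ih =>
    intro o ho
    obtain ⟨y, hy, hoy⟩ := lt_rank_iff.1 ho
    rcases hoy.eq_or_lt with h | h
    · exact ⟨y, subset_tc x hy, h.symm⟩
    · obtain ⟨z, hz, rfl⟩ := ih y hy o h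
      exact ⟨z, tc_subset (tc_isTransitive x) (tc_isTransitive x y (subset_tc x hy)) hz, rfl⟩

theorem rank_lt_of_not_cardLe {M A : Set ZFSet.{u}} (hM : IsZF M A) (hC : HasChoice M)
    {α x : ZFSet.{u}} (hα : α.IsOrdinal) (hαM : α ∈ M) (hx : x ∈ M)
    (h : ¬ CardLe M α (tc x)) : ZFSet.rank x < ZFSet.rank α := by
  by_contra hlt
  rw [not_lt] at hlt
  apply h
  -- the family of rank fibres
  set fib : ZFSet.{u} → ZFSet.{u} := fun o => ZFSet.sep (fun y => rk y = o) (tc x) with hfib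
  have hU : U (fun M A => IsZF M A) (fun _ _ (p : ZFSet.{u} × ZFSet.{u}) =>
      img p.1 (fun o => ZFSet.sep (fun y => rk y = o) (tc p.2))) := by apply_rules (transparency := .reducible) (maxDepth := 400) using is_poly
  have hs : img α fib ∈ M := in_zfset.1 (hU.closed hM (a := (α, x)) (by simp [hαM, hx]))
  obtain ⟨f, hf, hfc⟩ := hC _ hs
  -- the injection
  have hg : gr α (fun o => app f (fib o)) ∈ M := by
    have hU2 : U (fun M A => IsZF M A) (fun _ _ (p : (ZFSet.{u} × ZFSet.{u}) × ZFSet.{u}) =>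
        gr p.1.1 (fun o => app p.1.2 (ZFSet.sep (fun y => rk y = o) (tc p.2)))) := by apply_rules (transparency := .reducible) (maxDepth := 400) using is_poly
    exact in_zfset.1 (hU2.closed hM (a := ((α, f), x)) (by simp [hαM, hx, hf]))
  have hval : ∀ o ∈ α, app f (fib o) ∈ tc x ∧ rk (app f (fib o)) = o := by
    intro o ho
    have hoo : o.IsOrdinal := hα.mem ho
    have hro : ZFSet.rank o < ZFSet.rank x :=
      lt_of_lt_of_le (rank_lt_of_mem ho) hlt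
    obtain ⟨y, hy, hyr⟩ := exists_rank_eq x _ hro
    have hne : fib o ≠ ∅ := by
      intro h0
      have : y ∈ fib o := by
        rw [hfib]
        simp only [mem_sep]
        refine ⟨hy, ?_⟩
        rw [rk, hyr]
        exact hoo.toZFSet_rank_eq
      rw [h0] at this
      exact notMem_empty _ this
    obtain ⟨z, hz, hz'⟩ := hfc (fib o) (mem_img.2 ⟨o, ho, rfl⟩) hne
    have : app f (fib o) = z := app_eq ((hz' z).2 rfl) (fun w hw => (hz' w).1 hw)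
    rw [this]
    rw [hfib] at hz
    simp only [mem_sep] at hz
    exact hz
  refine ⟨_, hg, ⟨?_, ?_⟩, ?_⟩
  · intro z hz
    obtain ⟨o, ho, rfl⟩ := mem_gr.1 hz
    rw [pair_mem_prod]
    exact ⟨ho, (hval o ho).1⟩
  · intro o ho
    refine ⟨app f (fib o), pair_mem_gr.2 ⟨ho, rfl⟩, fun w hw => (pair_mem_gr.1 hw).2⟩
  · intro y hy y' hy' z hz hz'
    rw [← (hval y hy).2, ← (hval y' hy').2, ← (pair_mem_gr.1 hz).2, ← (pair_mem_gr.1 hz').2]

theorem hset_eq {M A : Set ZFSet.{u}} (hM : IsZF M A) (hC : HasChoice M)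
    {α : ZFSet.{u}} (hα : α.IsOrdinal) (hαM : α ∈ M) : Hset M α = {z | z ∈ HS M α} := by
  ext x
  unfold Hset HS
  simp only [Set.mem_setOf_eq, mem_sep, mem_VM]
  constructor
  · rintro ⟨hx, h⟩
    exact ⟨⟨hx, rank_lt_of_not_cardLe hM hC hα hαM hx h⟩, h⟩
  · rintro ⟨⟨hx, _⟩, h⟩
    exact ⟨hx, h⟩

theorem cardLe_mono {M A : Set ZFSet.{u}} (hM : IsZF M A) {a b c : ZFSet.{u}} (h : CardLe M a b)
    (hbc : b ⊆ c) : CardLe M a c := by
  obtain ⟨f, hf, hf1, hf2⟩ := h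
  refine ⟨f, hf, ⟨fun z hz => ?_, hf1.2⟩, hf2⟩
  have := hf1.1 hz
  rw [mem_prod] at this ⊢
  obtain ⟨x, hx, y, hy, rfl⟩ := this
  exact ⟨x, hx, y, hbc hy, rfl⟩

theorem HS_isTransitive {M A : Set ZFSet.{u}} (hM : IsZF M A) (α : ZFSet.{u}) :
    (HS M α).IsTransitive := by
  intro x hx y hy
  unfold HS at hx ⊢
  rw [mem_sep, mem_VM] at hx ⊢
  refine ⟨⟨hM.trans _ hx.1.1 _ hy, (rank_lt_of_mem hy).trans hx.1.2⟩, fun h => hx.2 ?_⟩
  exact cardLe_mono hM h (tc_subset (tc_isTransitive x) (tc_isTransitive x y (subset_tc x hy)))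

/-! ### Assembly -/

theorem pow_eq_of {M : Set ZFSet.{u}} {β P : ZFSet.{u}} (h : ∀ z, z ∈ P ↔ z ∈ M ∧ z ⊆ β) :
    P = Helper66.SC.Pow M β := by
  ext z
  rw [h, mem_Pow]

theorem URel.isStrongLimit [ZCls C] {f : Set ZFSet.{u} → Set ZFSet.{u} → α → ZFSet.{u}}
    (hf : U C f) : URel C (fun N A a => IsStrongLimitIn N (f N A a)) := by
  refine URel.app1 (R := fun N _ x => IsStrongLimitIn N x) ?_ hf
  refine URel.congr (R := fun N _ (x : ZFSet.{u}) => (x.IsOrdinal ∧ ∀ β ∈ x, ¬ CardLe N x β) ∧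
    ¬ x = ∅ ∧ ∀ β ∈ x, ¬ CardLe N x (Helper66.SC.Pow N β)) (by apply_rules (transparency := .reducible) (maxDepth := 400) using is_poly) ?_
  intro N A hN x hx
  have hZ := ZCls.isZF hN
  have hx' := in_zfset.1 hx
  unfold IsStrongLimitIn IsCardIn
  constructor
  · rintro ⟨h1, h2, h3⟩
    refine ⟨⟨hx', h1.1, h1.2⟩, h2, fun β hβ => ⟨Helper66.SC.Pow N β, ?_, fun z => mem_Pow, h3 β hβ⟩⟩
    exact in_zfset.1 ((U.pow (C := C) (U.id (α := ZFSet.{u}))).closed hN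
      (in_zfset.2 (hZ.trans _ hx' _ hβ)))
  · rintro ⟨⟨_, h1⟩, h2, h3⟩
    refine ⟨h1, h2, fun β hβ => ?_⟩
    obtain ⟨P, _, hP, h4⟩ := h3 β hβ
    rwa [pow_eq_of hP] at h4

attribute [is_poly] URel.scS URel.seS U.HS URel.isStrongLimit

/-- `StabPred` through codes -/
def stS (M : Set ZFSet.{u}) (t : ZFSet.{u}) : Prop :=
  ∃ n ∈ (omega : ZFSet.{u}), ∃ a ∈ M, ∃ b ∈ M, ¬ n = ∅ ∧ t = ZFSet.pair n (ZFSet.pair a b) ∧
    (IsStrongLimitIn M a ∧ scS n (HS M a)) ∧ (IsStrongLimitIn M b ∧ scS n (HS M b)) ∧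
      seS n (HS M a) (HS M b)

theorem stS_iff {M A : Set ZFSet.{u}} (hM : IsZF M A) (hC : HasChoice M) (t : ZFSet.{u}) :
    stS M t ↔ t ∈ StabPred M := by
  unfold stS StabPred IsGood
  simp only [Set.mem_setOf_eq]
  constructor
  · rintro ⟨n, hn, a, ha, b, hb, hn0, rfl, ⟨h1, h2⟩, ⟨h3, h4⟩, h5⟩
    obtain ⟨n, rfl⟩ := mem_omega.1 hn
    rw [scS_iff (HS_isTransitive hM a), ← hset_eq hM hC h1.1.2.1 ha] at h2
    rw [scS_iff (HS_isTransitive hM b), ← hset_eq hM hC h3.1.2.1 hb] at h4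
    rw [seS_iff, ← hset_eq hM hC h1.1.2.1 ha, ← hset_eq hM hC h3.1.2.1 hb] at h5
    refine ⟨n, a, b, ?_, ⟨h1, h2⟩, ⟨h3, h4⟩, h5, rfl⟩
    rcases Nat.eq_zero_or_pos n with rfl | h
    · exact absurd nat_zero hn0
    · exact h
  · rintro ⟨n, a, b, hn, ⟨h1, h2⟩, ⟨h3, h4⟩, h5, rfl⟩
    have ha := h1.1.1
    have hb := h3.1.1
    refine ⟨nat n, nat_mem_omega n, a, ha, b, hb, ?_, rfl, ⟨h1, ?_⟩, ⟨h3, ?_⟩, ?_⟩
    · rw [← nat_zero, nat_inj]; omega
    · rw [scS_iff (HS_isTransitive hM a), ← hset_eq hM hC h1.1.2.1 ha]; exact h2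
    · rw [scS_iff (HS_isTransitive hM b), ← hset_eq hM hC h3.1.2.1 hb]; exact h4
    · rw [seS_iff, ← hset_eq hM hC h1.1.2.1 ha, ← hset_eq hM hC h3.1.2.1 hb]; exact h5

theorem st_E1 : Pool.Agent.Helper66.SC.ST_E1.{u} := by
  unfold Pool.Agent.Helper66.SC.ST_E1
  rw [ud1_iff]
  refine URel.congr (R := fun M _ (x : ZFSet.{u}) => stS M x) ?_ ?_
  · unfold stS
    apply_rules (transparency := .reducible) (maxDepth := 400) using is_poly
  · intro M A hM x _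
    exact stS_iff hM.1 hM.2 x

end Pool.Agent.Helper22.SC
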