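import Pool.Agent.Helper22.SC.CodeSets

/-! # The relative constructible hierarchy as a uniformly definable function -/

namespace Pool.Agent.Helper22.SC

universe u

open ZFSet
open Pool.Agent.Helper66.SC (Fml Sat IsZF Cls sat_rn mem_Pow img mem_img tc CardLe DefSub Lv)

variable {C : Cls.{u}}
variable {α β γ δ : Type (u + 1)} [Ctx.{u} α] [Ctx.{u} β] [Ctx.{u} γ] [Ctx.{u} δ]

/-- `DefSub` through codes; `b` is the predicate as a subset of `x` -/
noncomputable def defS (b x : ZFSet.{u}) : ZFSet.{u} :=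
  img (fml.prod (tuples x)) (fun z => ZFSet.sep (fun a => ZFSet.pair a (psnd z) ∈
    satS x b (pfst z)) x)

theorem U.defS [ZCls C] {f g : Set ZFSet.{u} → Set ZFSet.{u} → α → ZFSet.{u}} (hf : U C f)
    (hg : U C g) : U C (fun N A a => SC.defS (f N A a) (g N A a)) := by
  have h0 : U C (fun _ _ (p : ZFSet.{u} × ZFSet.{u}) => SC.defS p.1 p.2) := by
    unfold SC.defS
    refine U.img (U.prod U.fml (U.tuples U.id.snd)) ?_
    refine U.sep (R := fun _ _ (p : (ZFSet.{u} × ZFSet.{u}) × ZFSet.{u}) a =>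
      ZFSet.pair a (SC.psnd p.2) ∈ SC.satS p.1.2 p.1.1 (SC.pfst p.2)) U.id.fst.snd ?_
    refine URel.mem ?_ ?_
    · apply_rules (transparency := .reducible) (maxDepth := 400) using is_poly
    · apply_rules (transparency := .reducible) (maxDepth := 400) using is_poly
  exact U.app2 (h := fun _ _ x y => SC.defS x y) h0 hf hg

theorem defSub_eq (A : Set ZFSet.{u}) (x : ZFSet.{u}) :
    DefSub A x = defS (ZFSet.sep (fun z => z ∈ A) x) x := by
  have hA : ∀ z ∈ x, (z ∈ A ↔ z ∈ ZFSet.sep (fun z => z ∈ A) x) := by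
    intro z hz
    rw [mem_sep]
    exact ⟨fun h => ⟨hz, h⟩, fun h => h.2⟩
  have key : ∀ (k : ℕ) (φ : Fml (k + 1)) (p : Fin k → ZFSet.{u}), (∀ i, p i ∈ x) → ∀ a ∈ x,
      (ZFSet.pair a (tup p) ∈ satS x (ZFSet.sep (fun z => z ∈ A) x) (code φ) ↔
        Sat {z | z ∈ x} A φ (Fin.cons a p)) := by
    intro k φ p hp a ha
    rw [← tup_cons, tup_mem_satS hA]
    constructor
    · exact fun h => h.2
    · intro h
      refine ⟨fun i => ?_, h⟩
      refine Fin.cases ?_ (fun i => ?_) i
      · exact ha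
      · exact hp i
  ext y
  unfold DefSub defS
  rw [mem_sep, mem_powerset, mem_img]
  constructor
  · rintro ⟨hy, k, φ, p, hp, h⟩
    refine ⟨ZFSet.pair (code φ) (tup p), ?_, ?_⟩
    · rw [pair_mem_prod]
      exact ⟨mem_fml.2 ⟨_, φ, rfl⟩, mem_tuples.2 ⟨k, p, hp, rfl⟩⟩
    · ext a
      rw [mem_sep, pfst_pair, psnd_pair]
      constructor
      · rintro ⟨ha, h'⟩
        exact (h a ha).2 ((key k φ p hp a ha).1 h')
      · intro ha
        exact ⟨hy ha, (key k φ p hp a (hy ha)).2 ((h a (hy ha)).1 ha)⟩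
  · rintro ⟨z, hz, rfl⟩
    rw [mem_prod] at hz
    obtain ⟨c, hc, e, he, rfl⟩ := hz
    obtain ⟨k', φ, rfl⟩ := mem_fml.1 hc
    obtain ⟨k, p, hp, rfl⟩ := mem_tuples.1 he
    refine ⟨sep_subset, ?_⟩
    by_cases hk : k' = k + 1
    · subst hk
      refine ⟨k, φ, p, hp, fun a ha => ?_⟩
      rw [mem_sep, pfst_pair, psnd_pair, key k φ p hp a ha]
      exact ⟨fun h => h.2, fun h => ⟨ha, h⟩⟩
    · refine ⟨0, .neg (.eq 0 0), Fin.elim0, fun i => i.elim0, fun a ha => ?_⟩
      rw [mem_sep, pfst_pair, psnd_pair]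
      simp only [Sat, not_true_eq_false, iff_false]
      rintro ⟨_, h⟩
      have h1 := satS_subset φ h
      rw [← tup_cons a p] at h1
      rcases k' with _ | k'
      · simp only [tset, mem_singleton, tup_cons] at h1
        have : ({a} : ZFSet.{u}) ∈ ZFSet.pair a (tup p) := by simp [ZFSet.pair]
        rw [h1] at this
        exact notMem_empty _ this
      · -- tuples of different lengths
        have hlen : ∀ {m n : ℕ} {v : Fin m → ZFSet.{u}} {w : Fin n → ZFSet.{u}},
            tup v = tup w → m = n := by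
          intro m
          induction m with
          | zero =>
            intro n v w h
            rcases n with _ | n
            · rfl
            · exfalso
              have : ({w 0} : ZFSet.{u}) ∈ tup w := by rw [tup_succ]; simp [ZFSet.pair]
              rw [← h] at this
              exact notMem_empty _ this
          | succ m ih =>
            intro n v w h
            rcases n with _ | n
            · exfalso
              have : ({v 0} : ZFSet.{u}) ∈ tup v := by rw [tup_succ]; simp [ZFSet.pair]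
              rw [h] at this
              exact notMem_empty _ this
            · rw [tup_succ, tup_succ, pair_inj] at h
              rw [ih h.2]
        obtain ⟨w, _, hw⟩ := mem_tset.1 h1
        exact hk (hlen hw).symm

/-- `DefSub` for a uniformly definable predicate. -/
theorem U.defSub [ZCls C] {f : Set ZFSet.{u} → Set ZFSet.{u} → α → ZFSet.{u}}
    {B : Set ZFSet.{u} → Set ZFSet.{u} → α → Set ZFSet.{u}} (hf : U C f)
    (hB : URel C (fun N A (p : α × ZFSet.{u}) => p.2 ∈ B N A p.1)) :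
    U C (fun N A a => DefSub (B N A a) (f N A a)) := by
  refine (U.defS (U.sep (R := fun N A a z => z ∈ B N A a) hf hB) hf).congr ?_
  intro N A _ a _
  exact (defSub_eq _ _).symm

/-! ### The hierarchy -/

theorem mem_Lv {A : Set ZFSet.{u}} {o : Ordinal.{u}} {x : ZFSet.{u}} :
    x ∈ Lv A o ↔ ∃ a < o, x ∈ DefSub A (Lv A a) := by
  rw [Lv, mem_iUnion]
  constructor
  · rintro ⟨⟨a, ha⟩, h⟩; exact ⟨a, ha, h⟩
  · rintro ⟨a, ha, h⟩; exact ⟨⟨a, ha⟩, h⟩

/-- the recursion on arbitrary sets -/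
noncomputable def lvF (A : Set ZFSet.{u}) (x : ZFSet.{u}) : ZFSet.{u} :=
  rrec (fun _ g => ⋃₀ (img g (fun z => DefSub A (psnd z)))) (fun x => x) x

theorem lvF_eq (A : Set ZFSet.{u}) (x : ZFSet.{u}) :
    lvF A x = ⋃₀ (img x (fun y => DefSub A (lvF A y))) := by
  unfold lvF
  rw [rrec_eq (fun y hy => rank_lt_of_mem hy)]
  rw [img_gr (h := fun t => DefSub A t)]

theorem lvF_toZFSet (A : Set ZFSet.{u}) (o : Ordinal.{u}) : lvF A o.toZFSet = Lv A o := by
  induction o using WellFoundedLT.induction with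
  | ind o ih =>
    ext x
    rw [lvF_eq, mem_Lv, mem_sUnion]
    constructor
    · rintro ⟨w, hw, hx⟩
      obtain ⟨y, hy, rfl⟩ := mem_img.1 hw
      obtain ⟨a, ha, rfl⟩ := Ordinal.mem_toZFSet_iff.1 hy
      rw [ih a ha] at hx
      exact ⟨a, ha, hx⟩
    · rintro ⟨a, ha, hx⟩
      refine ⟨_, mem_img.2 ⟨a.toZFSet, Ordinal.mem_toZFSet_iff.2 ⟨a, ha, rfl⟩, rfl⟩, ?_⟩
      rw [ih a ha]
      exact hx

theorem U.lvF [ZCls C] {f : Set ZFSet.{u} → Set ZFSet.{u} → α → ZFSet.{u}}
    {B : Set ZFSet.{u} → Set ZFSet.{u} → α → Set ZFSet.{u}} (hf : U C f)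
    (hB : URel C (fun N A (p : α × ZFSet.{u}) => p.2 ∈ B N A p.1)) :
    U C (fun N A a => SC.lvF (B N A a) (f N A a)) := by
  unfold SC.lvF
  refine U.rrec (F := fun N A a _ g => ZFSet.sUnion (Helper66.SC.img g (fun z =>
    DefSub (B N A a) (SC.psnd z)))) (P := fun _ _ _ x => x) ?_ (by apply_rules (transparency := .reducible) (maxDepth := 400) using is_poly)
    (fun _ _ _ x _ y hy => rank_lt_of_mem hy) hf
  refine U.sUnion (U.img (by apply_rules (transparency := .reducible) (maxDepth := 400) using is_poly) ?_)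
  refine U.defSub (B := fun N A (p : ((α × ZFSet.{u}) × ZFSet.{u}) × ZFSet.{u}) =>
    B N A p.1.1.1) (by apply_rules (transparency := .reducible) (maxDepth := 400) using is_poly) ?_
  exact hB.comp (f := fun _ _ (p : (((α × ZFSet.{u}) × ZFSet.{u}) × ZFSet.{u}) × ZFSet.{u}) =>
    (p.1.1.1.1, p.2)) (by apply_rules (transparency := .reducible) (maxDepth := 400) using is_poly)

/-- The levels `L_(rank f)[B]` for a uniformly definable predicate `B`. -/
theorem U.lv [ZCls C] {f : Set ZFSet.{u} → Set ZFSet.{u} → α → ZFSet.{u}}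
    {B : Set ZFSet.{u} → Set ZFSet.{u} → α → Set ZFSet.{u}} (hf : U C f)
    (hB : URel C (fun N A (p : α × ZFSet.{u}) => p.2 ∈ B N A p.1)) :
    U C (fun N A a => Lv (B N A a) (ZFSet.rank (f N A a))) := by
  refine (U.lvF (U.rk hf) hB).congr ?_
  intro N A _ a _
  exact lvF_toZFSet _ _

theorem st_TL : Pool.Agent.Helper66.SC.ST_TL.{u} := by
  unfold Pool.Agent.Helper66.SC.ST_TL
  rw [uf1_iff]
  exact U.lv (α := ZFSet.{u}) (B := fun _ A _ => A) U.id (URel.prd U.id.snd)

end Pool.Agent.Helper22.SC
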