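import Pool.Agent.Helper22.SC.Rec

/-! # More uniformly definable operations -/

namespace Pool.Agent.Helper22.SC

universe u

open ZFSet
open Pool.Agent.Helper66.SC (Fml Sat IsZF Cls sat_rn mem_Pow img mem_img tc CardLe)

variable {C : Cls.{u}}
variable {α β γ δ : Type (u + 1)} [Ctx.{u} α] [Ctx.{u} β] [Ctx.{u} γ] [Ctx.{u} δ]

/-! ### Composition helpers for unary and binary operations -/

theorem U.app1 {h : Set ZFSet.{u} → Set ZFSet.{u} → ZFSet.{u} → ZFSet.{u}}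
    (H : U C (fun N A (p : ZFSet.{u}) => h N A p))
    {f : Set ZFSet.{u} → Set ZFSet.{u} → α → ZFSet.{u}} (hf : U C f) :
    U C (fun N A a => h N A (f N A a)) := H.comp hf

theorem U.app2 {h : Set ZFSet.{u} → Set ZFSet.{u} → ZFSet.{u} → ZFSet.{u} → ZFSet.{u}}
    (H : U C (fun N A (p : ZFSet.{u} × ZFSet.{u}) => h N A p.1 p.2))
    {f g : Set ZFSet.{u} → Set ZFSet.{u} → α → ZFSet.{u}} (hf : U C f) (hg : U C g) :
    U C (fun N A a => h N A (f N A a) (g N A a)) := H.comp (hf.prodMk hg)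

theorem U.app3 {h : Set ZFSet.{u} → Set ZFSet.{u} → ZFSet.{u} → ZFSet.{u} → ZFSet.{u} → ZFSet.{u}}
    (H : U C (fun N A (p : (ZFSet.{u} × ZFSet.{u}) × ZFSet.{u}) => h N A p.1.1 p.1.2 p.2))
    {f g k : Set ZFSet.{u} → Set ZFSet.{u} → α → ZFSet.{u}} (hf : U C f) (hg : U C g)
    (hk : U C k) :
    U C (fun N A a => h N A (f N A a) (g N A a) (k N A a)) := H.comp ((hf.prodMk hg).prodMk hk)

theorem URel.app1 {R : Set ZFSet.{u} → Set ZFSet.{u} → ZFSet.{u} → Prop}
    (H : URel C (fun N A (p : ZFSet.{u}) => R N A p))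
    {f : Set ZFSet.{u} → Set ZFSet.{u} → α → ZFSet.{u}} (hf : U C f) :
    URel C (fun N A a => R N A (f N A a)) := H.comp hf

theorem URel.app2 {R : Set ZFSet.{u} → Set ZFSet.{u} → ZFSet.{u} → ZFSet.{u} → Prop}
    (H : URel C (fun N A (p : ZFSet.{u} × ZFSet.{u}) => R N A p.1 p.2))
    {f g : Set ZFSet.{u} → Set ZFSet.{u} → α → ZFSet.{u}} (hf : U C f) (hg : U C g) :
    URel C (fun N A a => R N A (f N A a) (g N A a)) := H.comp (hf.prodMk hg)

theorem URel.app3 {R : Set ZFSet.{u} → Set ZFSet.{u} → ZFSet.{u} → ZFSet.{u} → ZFSet.{u} → Prop}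
    (H : URel C (fun N A (p : (ZFSet.{u} × ZFSet.{u}) × ZFSet.{u}) => R N A p.1.1 p.1.2 p.2))
    {f g k : Set ZFSet.{u} → Set ZFSet.{u} → α → ZFSet.{u}} (hf : U C f) (hg : U C g)
    (hk : U C k) :
    URel C (fun N A a => R N A (f N A a) (g N A a) (k N A a)) := H.comp ((hf.prodMk hg).prodMk hk)

/-! ### Boolean operations -/

theorem U.inter [ZCls C] {f g : Set ZFSet.{u} → Set ZFSet.{u} → α → ZFSet.{u}} (hf : U C f)
    (hg : U C g) : U C (fun N A a => (f N A a ∩ g N A a : ZFSet.{u})) := by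
  have h0 : U C (fun _ _ (p : ZFSet.{u} × ZFSet.{u}) => (p.1 ∩ p.2 : ZFSet.{u})) := by
    refine U.congr (f := fun _ _ (p : ZFSet.{u} × ZFSet.{u}) =>
      ZFSet.sep (fun x => x ∈ p.2) p.1) (by apply_rules (transparency := .reducible) (maxDepth := 400) using is_poly) ?_
    intro N A hN a ha
    ext z; simp
  exact h0.comp (hf.prodMk hg)

theorem U.diff [ZCls C] {f g : Set ZFSet.{u} → Set ZFSet.{u} → α → ZFSet.{u}} (hf : U C f)
    (hg : U C g) : U C (fun N A a => (f N A a \ g N A a : ZFSet.{u})) := by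
  have h0 : U C (fun _ _ (p : ZFSet.{u} × ZFSet.{u}) => (p.1 \ p.2 : ZFSet.{u})) := by
    refine U.congr (f := fun _ _ (p : ZFSet.{u} × ZFSet.{u}) =>
      ZFSet.sep (fun x => ¬ x ∈ p.2) p.1) (by apply_rules (transparency := .reducible) (maxDepth := 400) using is_poly) ?_
    intro N A hN a ha
    ext z; simp
  exact h0.comp (hf.prodMk hg)

attribute [is_poly] U.inter U.diff

open Classical in
theorem U.ite [ZCls C] {R : Set ZFSet.{u} → Set ZFSet.{u} → α → Prop}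
    {f g : Set ZFSet.{u} → Set ZFSet.{u} → α → ZFSet.{u}} (hR : URel C R) (hf : U C f)
    (hg : U C g) : U C (fun N A a => if R N A a then f N A a else g N A a) := by
  refine U.of_mem (fun {N A} hN a ha => ?_) ?_
  · split_ifs
    · exact in_zfset.1 (hf.closed hN ha)
    · exact in_zfset.1 (hg.closed hN ha)
  · refine URel.congr (R := fun N A (p : α × ZFSet.{u}) => (R N A p.1 ∧ p.2 ∈ f N A p.1) ∨
      (¬ R N A p.1 ∧ p.2 ∈ g N A p.1)) ?_ ?_
    · exact ((hR.comp U.id.fst).and (URel.mem U.id.snd (hf.comp U.id.fst))).or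
        ((hR.comp U.id.fst).not.and (URel.mem U.id.snd (hg.comp U.id.fst)))
    · intro N A hN p hp
      by_cases h : R N A p.1 <;> simp [h]

/-! ### Transitive sets, ordinals, `ω` -/

theorem URel.isTransitive [ZCls C] {f : Set ZFSet.{u} → Set ZFSet.{u} → α → ZFSet.{u}}
    (hf : U C f) : URel C (fun N A a => (f N A a).IsTransitive) := by
  have h0 : URel C (fun _ _ (p : ZFSet.{u}) => p.IsTransitive) := by
    unfold ZFSet.IsTransitive
    exact (URel.ball (R := fun _ _ (p : ZFSet.{u}) x => x ⊆ p) (by apply_rules (transparency := .reducible) (maxDepth := 400) using is_poly) (by apply_rules (transparency := .reducible) (maxDepth := 400) using is_poly))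
  exact h0.comp hf

attribute [is_poly] URel.isTransitive

theorem URel.isOrdinal [ZCls C] {f : Set ZFSet.{u} → Set ZFSet.{u} → α → ZFSet.{u}}
    (hf : U C f) : URel C (fun N A a => (f N A a).IsOrdinal) := by
  have h0 : URel C (fun _ _ (p : ZFSet.{u}) => p.IsOrdinal) := by
    simp only [isOrdinal_iff_forall_mem_isTransitive]
    apply_rules (transparency := .reducible) (maxDepth := 400) using is_poly
  exact h0.comp hf

attribute [is_poly] URel.isOrdinal

theorem mem_omega_iff' {x : ZFSet.{u}} : x ∈ omega ↔ ∃ n : ℕ, x = (n : Ordinal.{u}).toZFSet := by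
  have key : ∀ n : ℕ, (ZFSet.mk (PSet.ofNat n) : ZFSet.{u}) = (n : Ordinal.{u}).toZFSet := by
    intro n
    induction n with
    | zero => simp [PSet.ofNat]; rfl
    | succ n ih =>
      have h1 : ((n + 1 : ℕ) : Ordinal.{u}).toZFSet =
          insert (n : Ordinal.{u}).toZFSet (n : Ordinal.{u}).toZFSet := by
        rw [Nat.cast_add, Nat.cast_one, Ordinal.toZFSet_add_one]
      rw [h1, ← ih]
      rfl
  constructor
  · refine Quotient.inductionOn x (fun p h => ?_)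
    obtain ⟨⟨n⟩, hn⟩ := (show p ∈ PSet.omega from h)
    refine ⟨n, ?_⟩
    rw [← key n]
    exact Quotient.sound hn
  · rintro ⟨n, rfl⟩
    induction n with
    | zero => simp
    | succ n ih =>
      rw [Nat.cast_add, Nat.cast_one, Ordinal.toZFSet_add_one]
      exact omega_succ ih

theorem omega_eq : (omega : ZFSet.{u}) = (Ordinal.omega0.{u}).toZFSet := by
  ext x
  rw [mem_omega_iff', Ordinal.mem_toZFSet_iff]
  constructor
  · rintro ⟨n, rfl⟩
    exact ⟨n, Ordinal.nat_lt_omega0 n, rfl⟩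
  · rintro ⟨a, ha, rfl⟩
    obtain ⟨n, rfl⟩ := Ordinal.lt_omega0.1 ha
    exact ⟨n, rfl⟩

theorem isOrdinal_omega : (omega : ZFSet.{u}).IsOrdinal := by
  rw [omega_eq]; exact isOrdinal_toZFSet _

/-- absolute characterization of natural numbers -/
theorem mem_omega_abs {x : ZFSet.{u}} : x ∈ omega ↔ x.IsOrdinal ∧ (x = ∅ ∨ ∃ y ∈ x, x = insert y y) ∧
    ∀ z ∈ x, z = ∅ ∨ ∃ y ∈ z, z = insert y y := by
  have hn : ∀ n : ℕ, (n : Ordinal.{u}).toZFSet = ∅ ∨ ∃ y ∈ (n : Ordinal.{u}).toZFSet,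
      (n : Ordinal.{u}).toZFSet = insert y y := by
    intro n
    rcases n with _ | n
    · left; simp
    · right
      refine ⟨(n : Ordinal.{u}).toZFSet, ?_, ?_⟩
      · rw [Ordinal.toZFSet_mem_toZFSet_iff]; exact_mod_cast Nat.lt_succ_self n
      · rw [Nat.cast_add, Nat.cast_one, Ordinal.toZFSet_add_one]
  constructor
  · intro h
    obtain ⟨n, rfl⟩ := mem_omega_iff'.1 h
    refine ⟨isOrdinal_toZFSet _, hn n, fun z hz => ?_⟩
    obtain ⟨a, ha, rfl⟩ := Ordinal.mem_toZFSet_iff.1 hz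
    obtain ⟨m, rfl⟩ := Ordinal.lt_omega0.1 (ha.trans (Ordinal.nat_lt_omega0 n))
    exact hn m
  · rintro ⟨h1, h2, h3⟩
    by_contra hx
    have h4 : (omega : ZFSet.{u}) ⊆ x := by
      rcases h1.mem_or_subset isOrdinal_omega with h | h
      · exact absurd h hx
      · exact h
    have hom : ∀ z : ZFSet.{u}, z ∈ omega → insert z z ∈ (omega : ZFSet.{u}) := fun z => omega_succ
    have h5 : ¬ ((omega : ZFSet.{u}) = ∅ ∨ ∃ y ∈ (omega : ZFSet.{u}), omega = insert y y) := by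
      rintro (h | ⟨y, hy, h⟩)
      · exact notMem_empty _ (h ▸ omega_zero)
      · have := hom y hy
        rw [← h] at this
        exact mem_irrefl _ this
    rcases IsOrdinal.subset_iff_eq_or_mem isOrdinal_omega h1 |>.1 h4 with h | h
    · rw [← h] at h2; exact h5 h2
    · exact h5 (h3 _ h)

theorem U.omega [ZCls C] : U C (fun _ _ (_ : α) => (omega : ZFSet.{u})) := by
  refine U.of_mem (fun hN _ _ => (ZCls.isZF hN).omega) ?_
  simp only [mem_omega_abs]
  apply_rules (transparency := .reducible) (maxDepth := 400) using is_poly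

attribute [is_poly] U.omega

theorem U.nat [ZCls C] (n : ℕ) : U C (fun _ _ (_ : α) => (n : Ordinal.{u}).toZFSet) := by
  induction n with
  | zero => simpa using U.empty
  | succ n ih =>
    have : ((n + 1 : ℕ) : Ordinal.{u}).toZFSet =
        Insert.insert (n : Ordinal.{u}).toZFSet (n : Ordinal.{u}).toZFSet := by
      rw [Nat.cast_add, Nat.cast_one, Ordinal.toZFSet_add_one]
    rw [this]
    exact U.insert ih ih

attribute [is_poly] U.nat

/-! ### Products, relations, functions -/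

theorem U.prod [ZCls C] {f g : Set ZFSet.{u} → Set ZFSet.{u} → α → ZFSet.{u}} (hf : U C f)
    (hg : U C g) : U C (fun N A a => ZFSet.prod (f N A a) (g N A a)) := by
  have h0 : U C (fun _ _ (p : ZFSet.{u} × ZFSet.{u}) => ZFSet.prod p.1 p.2) := by
    refine U.congr (f := fun _ _ (p : ZFSet.{u} × ZFSet.{u}) =>
      (ZFSet.sUnion (Helper66.SC.img p.1 (fun x =>
        Helper66.SC.img p.2 (fun y => ZFSet.pair x y))) : ZFSet.{u}))
      (by apply_rules (transparency := .reducible) (maxDepth := 400) using is_poly) ?_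
    intro N A hN p hp
    ext z
    simp only [mem_sUnion, mem_img, mem_prod]
    constructor
    · rintro ⟨w, ⟨x, hx, rfl⟩, hz⟩
      obtain ⟨y, hy, rfl⟩ := mem_img.1 hz
      exact ⟨x, hx, y, hy, rfl⟩
    · rintro ⟨x, hx, y, hy, rfl⟩
      exact ⟨_, ⟨x, hx, rfl⟩, mem_img.2 ⟨y, hy, rfl⟩⟩
  exact h0.comp (hf.prodMk hg)

/-- domain of a relation -/
def dom (f : ZFSet.{u}) : ZFSet.{u} :=
  ZFSet.sep (fun x => ∃ y ∈ (⋃₀ (⋃₀ f) : ZFSet.{u}), ZFSet.pair x y ∈ f) (⋃₀ (⋃₀ f))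

/-- range of a relation -/
def ran (f : ZFSet.{u}) : ZFSet.{u} :=
  ZFSet.sep (fun y => ∃ x ∈ (⋃₀ (⋃₀ f) : ZFSet.{u}), ZFSet.pair x y ∈ f) (⋃₀ (⋃₀ f))

theorem mem_UU {f x y : ZFSet.{u}} (h : ZFSet.pair x y ∈ f) :
    x ∈ (⋃₀ (⋃₀ f) : ZFSet.{u}) ∧ y ∈ (⋃₀ (⋃₀ f) : ZFSet.{u}) := by
  have h1 : ({x, y} : ZFSet.{u}) ∈ (⋃₀ f : ZFSet.{u}) :=
    mem_sUnion.2 ⟨_, h, by simp [ZFSet.pair]⟩
  exact ⟨mem_sUnion.2 ⟨_, h1, by simp⟩, mem_sUnion.2 ⟨_, h1, by simp⟩⟩

@[simp] theorem mem_dom {f x : ZFSet.{u}} : x ∈ dom f ↔ ∃ y, ZFSet.pair x y ∈ f := by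
  unfold dom
  rw [mem_sep]
  constructor
  · rintro ⟨_, y, _, h⟩; exact ⟨y, h⟩
  · rintro ⟨y, h⟩; exact ⟨(mem_UU h).1, y, (mem_UU h).2, h⟩

@[simp] theorem mem_ran {f y : ZFSet.{u}} : y ∈ ran f ↔ ∃ x, ZFSet.pair x y ∈ f := by
  unfold ran
  rw [mem_sep]
  constructor
  · rintro ⟨_, x, _, h⟩; exact ⟨x, h⟩
  · rintro ⟨x, h⟩; exact ⟨(mem_UU h).2, x, (mem_UU h).1, h⟩

theorem U.dom [ZCls C] {f : Set ZFSet.{u} → Set ZFSet.{u} → α → ZFSet.{u}} (hf : U C f) :
    U C (fun N A a => SC.dom (f N A a)) := by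
  have h0 : U C (fun _ _ (p : ZFSet.{u}) => SC.dom p) := by unfold SC.dom; apply_rules (transparency := .reducible) (maxDepth := 400) using is_poly
  exact h0.comp hf

theorem U.ran [ZCls C] {f : Set ZFSet.{u} → Set ZFSet.{u} → α → ZFSet.{u}} (hf : U C f) :
    U C (fun N A a => SC.ran (f N A a)) := by
  have h0 : U C (fun _ _ (p : ZFSet.{u}) => SC.ran p) := by unfold SC.ran; apply_rules (transparency := .reducible) (maxDepth := 400) using is_poly
  exact h0.comp hf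

/-- application of a function -/
def app (f x : ZFSet.{u}) : ZFSet.{u} :=
  ⋃₀ (ZFSet.sep (fun y => ZFSet.pair x y ∈ f) (⋃₀ (⋃₀ f)))

theorem app_eq {f x y : ZFSet.{u}} (h : ZFSet.pair x y ∈ f)
    (hu : ∀ z, ZFSet.pair x z ∈ f → z = y) : app f x = y := by
  unfold app
  have : ZFSet.sep (fun y => ZFSet.pair x y ∈ f) (⋃₀ (⋃₀ f)) = ({y} : ZFSet.{u}) := by
    ext z
    rw [mem_sep, mem_singleton]
    constructor
    · rintro ⟨_, h⟩; exact hu z h
    · rintro rfl; exact ⟨(mem_UU h).2, h⟩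
  rw [this, sUnion_singleton]

theorem app_gr {d : ZFSet.{u}} {g : ZFSet.{u} → ZFSet.{u}} {x : ZFSet.{u}} (hx : x ∈ d) :
    app (gr d g) x = g x :=
  app_eq (pair_mem_gr.2 ⟨hx, rfl⟩) (fun _ h => (pair_mem_gr.1 h).2)

theorem U.app [ZCls C] {f g : Set ZFSet.{u} → Set ZFSet.{u} → α → ZFSet.{u}} (hf : U C f)
    (hg : U C g) : U C (fun N A a => SC.app (f N A a) (g N A a)) := by
  have h0 : U C (fun _ _ (p : ZFSet.{u} × ZFSet.{u}) => SC.app p.1 p.2) := by
    unfold SC.app; apply_rules (transparency := .reducible) (maxDepth := 400) using is_poly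
  exact h0.comp (hf.prodMk hg)

/-- first component -/
def pfst (z : ZFSet.{u}) : ZFSet.{u} :=
  ⋃₀ (ZFSet.sep (fun x => ∃ y ∈ (⋃₀ z : ZFSet.{u}), z = ZFSet.pair x y) (⋃₀ z))

/-- second component -/
def psnd (z : ZFSet.{u}) : ZFSet.{u} :=
  ⋃₀ (ZFSet.sep (fun y => ∃ x ∈ (⋃₀ z : ZFSet.{u}), z = ZFSet.pair x y) (⋃₀ z))

theorem mem_U_pair {x y : ZFSet.{u}} : x ∈ (⋃₀ (ZFSet.pair x y) : ZFSet.{u}) ∧
    y ∈ (⋃₀ (ZFSet.pair x y) : ZFSet.{u}) :=
  ⟨mem_sUnion.2 ⟨{x}, by simp [ZFSet.pair], by simp⟩,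
    mem_sUnion.2 ⟨{x, y}, by simp [ZFSet.pair], by simp⟩⟩

@[simp] theorem pfst_pair {x y : ZFSet.{u}} : pfst (ZFSet.pair x y) = x := by
  unfold pfst
  have : ZFSet.sep (fun x' => ∃ y' ∈ (⋃₀ (ZFSet.pair x y) : ZFSet.{u}),
      ZFSet.pair x y = ZFSet.pair x' y') (⋃₀ (ZFSet.pair x y)) = ({x} : ZFSet.{u}) := by
    ext z
    rw [mem_sep, mem_singleton]
    constructor
    · rintro ⟨_, y', _, h⟩; exact (pair_inj.1 h).1.symm
    · rintro rfl; exact ⟨mem_U_pair.1, y, mem_U_pair.2, rfl⟩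
  rw [this, sUnion_singleton]

@[simp] theorem psnd_pair {x y : ZFSet.{u}} : psnd (ZFSet.pair x y) = y := by
  unfold psnd
  have : ZFSet.sep (fun y' => ∃ x' ∈ (⋃₀ (ZFSet.pair x y) : ZFSet.{u}),
      ZFSet.pair x y = ZFSet.pair x' y') (⋃₀ (ZFSet.pair x y)) = ({y} : ZFSet.{u}) := by
    ext z
    rw [mem_sep, mem_singleton]
    constructor
    · rintro ⟨_, y', _, h⟩; exact (pair_inj.1 h).2.symm
    · rintro rfl; exact ⟨mem_U_pair.2, x, mem_U_pair.1, rfl⟩
  rw [this, sUnion_singleton]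

theorem U.pfst [ZCls C] {f : Set ZFSet.{u} → Set ZFSet.{u} → α → ZFSet.{u}} (hf : U C f) :
    U C (fun N A a => SC.pfst (f N A a)) := by
  have h0 : U C (fun _ _ (p : ZFSet.{u}) => SC.pfst p) := by unfold SC.pfst; apply_rules (transparency := .reducible) (maxDepth := 400) using is_poly
  exact h0.comp hf

theorem U.psnd [ZCls C] {f : Set ZFSet.{u} → Set ZFSet.{u} → α → ZFSet.{u}} (hf : U C f) :
    U C (fun N A a => SC.psnd (f N A a)) := by
  have h0 : U C (fun _ _ (p : ZFSet.{u}) => SC.psnd p) := by unfold SC.psnd; apply_rules (transparency := .reducible) (maxDepth := 400) using is_poly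
  exact h0.comp hf

theorem U.gr [ZCls C] {f : Set ZFSet.{u} → Set ZFSet.{u} → α → ZFSet.{u}}
    {g : Set ZFSet.{u} → Set ZFSet.{u} → α → ZFSet.{u} → ZFSet.{u}} (hf : U C f)
    (hg : U C (fun N A (p : α × ZFSet.{u}) => g N A p.1 p.2)) :
    U C (fun N A a => SC.gr (f N A a) (g N A a)) := by
  unfold SC.gr
  exact U.img hf (U.pair U.id.snd hg)

attribute [is_poly] U.prod U.dom U.ran U.app U.pfst U.psnd U.gr

theorem isFunc_iff {x y f : ZFSet.{u}} : IsFunc x y f ↔ f ⊆ ZFSet.prod x y ∧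
    (∀ z ∈ x, ∃ w ∈ y, ZFSet.pair z w ∈ f) ∧
    ∀ z ∈ x, ∀ w ∈ y, ∀ w' ∈ y, ZFSet.pair z w ∈ f → ZFSet.pair z w' ∈ f → w = w' := by
  unfold IsFunc
  refine and_congr_right (fun h => ?_)
  have hb : ∀ z w, ZFSet.pair z w ∈ f → w ∈ y := fun z w hzw => (pair_mem_prod.1 (h hzw)).2
  constructor
  · intro H
    refine ⟨fun z hz => ?_, fun z hz w _ w' _ h1 h2 => (H z hz).unique h1 h2⟩
    obtain ⟨w, hw, _⟩ := H z hz
    exact ⟨w, hb _ _ hw, hw⟩
  · rintro ⟨H1, H2⟩ z hz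
    obtain ⟨w, hw, hw'⟩ := H1 z hz
    exact ⟨w, hw', fun w' h => H2 z hz _ (hb _ _ h) _ hw h hw'⟩

theorem URel.isFunc [ZCls C] {f g h : Set ZFSet.{u} → Set ZFSet.{u} → α → ZFSet.{u}} (hf : U C f)
    (hg : U C g) (hh : U C h) :
    URel C (fun N A a => IsFunc (f N A a) (g N A a) (h N A a)) := by
  refine URel.app3 (R := fun _ _ x y f => IsFunc x y f) ?_ hf hg hh
  simp only [isFunc_iff]
  apply_rules (transparency := .reducible) (maxDepth := 400) using is_poly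

theorem URel.cardLe [ZCls C] {f g : Set ZFSet.{u} → Set ZFSet.{u} → α → ZFSet.{u}} (hf : U C f)
    (hg : U C g) : URel C (fun N A a => CardLe N (f N A a) (g N A a)) := by
  refine URel.app2 (R := fun N _ x y => CardLe N x y) ?_ hf hg
  refine URel.congr (R := fun N _ (p : ZFSet.{u} × ZFSet.{u}) => ∃ f ∈ N, ZFSet.IsFunc p.1 p.2 f ∧
    ∀ y ∈ p.1, ∀ y' ∈ p.1, ∀ z ∈ p.2, ZFSet.pair y z ∈ f → ZFSet.pair y' z ∈ f → y = y') ?_ ?_
  · refine URel.ex (R := fun N _ (p : ZFSet.{u} × ZFSet.{u}) f => ZFSet.IsFunc p.1 p.2 f ∧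
    ∀ y ∈ p.1, ∀ y' ∈ p.1, ∀ z ∈ p.2, ZFSet.pair y z ∈ f → ZFSet.pair y' z ∈ f → y = y') ?_
    refine URel.and (URel.isFunc (by apply_rules (transparency := .reducible) (maxDepth := 400) using is_poly) (by apply_rules (transparency := .reducible) (maxDepth := 400) using is_poly) (by apply_rules (transparency := .reducible) (maxDepth := 400) using is_poly)) (by apply_rules (transparency := .reducible) (maxDepth := 400) using is_poly)
  · intro N A hN p hp
    unfold CardLe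
    refine exists_congr fun f => and_congr_right fun _ => and_congr_right fun hf => ?_
    constructor
    · intro h y hy y' hy' z h1 h2
      exact h y hy y' hy' z (pair_mem_prod.1 (hf.1 h1)).2 h1 h2
    · intro h y hy y' hy' z _ h1 h2
      exact h y hy y' hy' z h1 h2

attribute [is_poly] URel.isFunc URel.cardLe

end Pool.Agent.Helper22.SC
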