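import Pool.Agent.Helper22.SC.Ops2

/-! # Rank, transitive closure, the cumulative hierarchy, collection -/

namespace Pool.Agent.Helper22.SC

universe u

open ZFSet
open Pool.Agent.Helper66.SC (Fml Sat IsZF Cls sat_rn mem_Pow img mem_img tc CardLe)

variable {C : Cls.{u}}
variable {α β γ δ : Type (u + 1)} [Ctx.{u} α] [Ctx.{u} β] [Ctx.{u} γ] [Ctx.{u} δ]

/-- A form of `∈`-recursion with one set argument and no parameters. -/
theorem U.memrec0 [ZCls C]
    {F : Set ZFSet.{u} → Set ZFSet.{u} → ZFSet.{u} → ZFSet.{u} → ZFSet.{u}}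
    (hF : U C (fun N A (p : ZFSet.{u} × ZFSet.{u}) => F N A p.1 p.2))
    {G : Set ZFSet.{u} → Set ZFSet.{u} → ZFSet.{u} → ZFSet.{u}}
    (hG : ∀ {N A}, C N A → ∀ x ∈ N, G N A x = F N A x (SC.gr x (G N A))) :
    U C (fun N A (p : ZFSet.{u}) => G N A p) := by
  have h := U.memrec (C := C) (α := PUnit.{u + 2})
    (F := fun N A p => F N A p.1.2 p.2) (G := fun N A _ x => G N A x)
    (hF.comp (f := fun _ _ (p : (PUnit.{u + 2} × ZFSet.{u}) × ZFSet.{u}) => (p.1.2, p.2))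
      (by apply_rules (transparency := .reducible) (maxDepth := 400) using is_poly)) (fun hN a _ x hx => hG hN x hx)
  exact h.comp (f := fun _ _ (x : ZFSet.{u}) => ((PUnit.unit, x) : PUnit.{u + 2} × ZFSet.{u}))
    (by apply_rules (transparency := .reducible) (maxDepth := 400) using is_poly)

/-- the image of a graph -/
theorem img_gr {x : ZFSet.{u}} {g h : ZFSet.{u} → ZFSet.{u}} :
    img (gr x g) (fun z => h (psnd z)) = img x (fun y => h (g y)) := by
  ext z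
  simp only [mem_img, mem_gr]
  constructor
  · rintro ⟨w, ⟨y, hy, rfl⟩, rfl⟩
    exact ⟨y, hy, by rw [psnd_pair]⟩
  · rintro ⟨y, hy, rfl⟩
    exact ⟨_, ⟨y, hy, rfl⟩, by rw [psnd_pair]⟩

/-! ### Rank -/

/-- the rank as a von Neumann ordinal -/
noncomputable def rk (x : ZFSet.{u}) : ZFSet.{u} := (ZFSet.rank x).toZFSet

theorem isOrdinal_rk (x : ZFSet.{u}) : (rk x).IsOrdinal := isOrdinal_toZFSet _

theorem rk_ordinal {x : ZFSet.{u}} (hx : x.IsOrdinal) : rk x = x := hx.toZFSet_rank_eq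

@[simp] theorem rank_rk (x : ZFSet.{u}) : ZFSet.rank (rk x) = ZFSet.rank x :=
  Ordinal.rank_toZFSet _

theorem rk_rec (x : ZFSet.{u}) : rk x = ⋃₀ (img x (fun y => insert (rk y) (rk y))) := by
  ext z
  simp only [rk, mem_sUnion, mem_img, Ordinal.mem_toZFSet_iff]
  constructor
  · rintro ⟨a, ha, rfl⟩
    obtain ⟨y, hy, hay⟩ := lt_rank_iff.1 ha
    refine ⟨_, ⟨y, hy, rfl⟩, ?_⟩
    rw [mem_insert_iff, Ordinal.toZFSet_mem_toZFSet_iff]
    rcases hay.eq_or_lt with h | h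
    · left; rw [h]
    · right; exact h
  · rintro ⟨w, ⟨y, hy, rfl⟩, hz⟩
    rw [mem_insert_iff] at hz
    rcases hz with rfl | hz
    · exact ⟨_, rank_lt_of_mem hy, rfl⟩
    · obtain ⟨a, ha, rfl⟩ := Ordinal.mem_toZFSet_iff.1 hz
      exact ⟨a, ha.trans (rank_lt_of_mem hy), rfl⟩

theorem U.rk [ZCls C] {f : Set ZFSet.{u} → Set ZFSet.{u} → α → ZFSet.{u}} (hf : U C f) :
    U C (fun N A a => SC.rk (f N A a)) := by
  have h0 : U C (fun _ _ (p : ZFSet.{u}) => SC.rk p) := by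
    refine U.memrec0 (F := fun _ _ _ g => ZFSet.sUnion (Helper66.SC.img g (fun z =>
      Insert.insert (SC.psnd z) (SC.psnd z)))) (by apply_rules (transparency := .reducible) (maxDepth := 400) using is_poly) ?_
    intro N A _ x _
    rw [img_gr (h := fun t => Insert.insert t t)]
    exact rk_rec x
  exact h0.comp hf

/-! ### Transitive closure -/

theorem subset_tc (x : ZFSet.{u}) : x ⊆ tc x := by
  intro y hy
  unfold tc
  rw [mem_sep, mem_vonNeumann]
  exact ⟨rank_lt_of_mem hy, fun t _ h => h hy⟩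

theorem tc_isTransitive (x : ZFSet.{u}) : (tc x).IsTransitive := by
  intro y hy z hz
  unfold tc at hy ⊢
  rw [mem_sep, mem_vonNeumann] at hy ⊢
  exact ⟨(rank_lt_of_mem hz).trans hy.1, fun t ht h => ht _ (hy.2 t ht h) hz⟩

theorem tc_subset {x t : ZFSet.{u}} (ht : t.IsTransitive) (h : x ⊆ t) : tc x ⊆ t := by
  intro y hy
  unfold tc at hy
  rw [mem_sep] at hy
  exact hy.2 t ht h

theorem rank_tc (x : ZFSet.{u}) : ZFSet.rank (tc x) = ZFSet.rank x := by
  apply le_antisymm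
  · rw [rank_le_iff]
    intro y hy
    unfold tc at hy
    rw [mem_sep, mem_vonNeumann] at hy
    exact hy.1
  · exact rank_mono (subset_tc x)

theorem tc_rec (x : ZFSet.{u}) : tc x = x ∪ ⋃₀ (img x tc) := by
  apply subset_antisymm
  · refine tc_subset ?_ (fun y hy => mem_union.2 (Or.inl hy))
    intro y hy z hz
    rw [mem_union] at hy ⊢
    right
    rw [mem_sUnion]
    rcases hy with hy | hy
    · exact ⟨tc y, mem_img.2 ⟨y, hy, rfl⟩, subset_tc y hz⟩
    · rw [mem_sUnion] at hy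
      obtain ⟨w, hw, hyw⟩ := hy
      obtain ⟨t, ht, rfl⟩ := mem_img.1 hw
      exact ⟨tc t, hw, tc_isTransitive t _ hyw hz⟩
  · intro y hy
    rw [mem_union] at hy
    rcases hy with hy | hy
    · exact subset_tc x hy
    · rw [mem_sUnion] at hy
      obtain ⟨w, hw, hyw⟩ := hy
      obtain ⟨t, ht, rfl⟩ := mem_img.1 hw
      exact tc_subset (tc_isTransitive x) (tc_isTransitive x t (subset_tc x ht)) hyw

theorem U.tc [ZCls C] {f : Set ZFSet.{u} → Set ZFSet.{u} → α → ZFSet.{u}} (hf : U C f) :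
    U C (fun N A a => Helper66.SC.tc (f N A a)) := by
  have h0 : U C (fun _ _ (p : ZFSet.{u}) => Helper66.SC.tc p) := by
    refine U.memrec0 (F := fun _ _ x g => x ∪ ZFSet.sUnion (Helper66.SC.img g (fun z =>
      SC.psnd z))) (by apply_rules (transparency := .reducible) (maxDepth := 400) using is_poly) ?_
    intro N A _ x _
    rw [img_gr (h := fun t => t)]
    exact tc_rec x
  exact h0.comp hf

/-! ### The cumulative hierarchy inside the model -/

/-- `V_(rank x)` in the sense of `N` -/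
noncomputable def VM (N : Set ZFSet.{u}) (x : ZFSet.{u}) : ZFSet.{u} :=
  ZFSet.sep (fun y => y ∈ N) (vonNeumann (ZFSet.rank x))

theorem mem_VM {N : Set ZFSet.{u}} {x y : ZFSet.{u}} :
    y ∈ VM N x ↔ y ∈ N ∧ ZFSet.rank y < ZFSet.rank x := by
  unfold VM
  rw [mem_sep, mem_vonNeumann]
  exact and_comm

theorem VM_rec {N A : Set ZFSet.{u}} (hN : IsZF N A) (x : ZFSet.{u}) :
    VM N x = ⋃₀ (img x (fun y => Helper66.SC.Pow N (VM N y))) := by
  ext z
  simp only [mem_VM, mem_sUnion, mem_img]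
  constructor
  · rintro ⟨hz, h⟩
    obtain ⟨y, hy, h'⟩ := lt_rank_iff.1 h
    refine ⟨_, ⟨y, hy, rfl⟩, ?_⟩
    rw [mem_Pow]
    refine ⟨hz, fun w hw => mem_VM.2 ⟨hN.trans _ hz _ hw, (rank_lt_of_mem hw).trans_le h'⟩⟩
  · rintro ⟨w, ⟨y, hy, rfl⟩, hz⟩
    rw [mem_Pow] at hz
    refine ⟨hz.1, ?_⟩
    refine lt_of_le_of_lt ?_ (rank_lt_of_mem hy)
    rw [rank_le_iff]
    intro w hw
    exact (mem_VM.1 (hz.2 hw)).2

theorem U.VM [ZCls C] {f : Set ZFSet.{u} → Set ZFSet.{u} → α → ZFSet.{u}} (hf : U C f) :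
    U C (fun N A a => SC.VM N (f N A a)) := by
  have h0 : U C (fun N _ (p : ZFSet.{u}) => SC.VM N p) := by
    refine U.memrec0 (F := fun N _ _ g => ZFSet.sUnion (Helper66.SC.img g (fun z =>
      Helper66.SC.Pow N (SC.psnd z)))) (by apply_rules (transparency := .reducible) (maxDepth := 400) using is_poly) ?_
    intro N A hN x _
    rw [img_gr (h := fun t => Helper66.SC.Pow N t)]
    exact VM_rec (ZCls.isZF hN) x
  exact h0.comp hf

attribute [is_poly] U.rk U.tc U.VM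

theorem _root_.Pool.Agent.Helper66.SC.IsZF.rk_mem {N A : Set ZFSet.{u}} (hN : IsZF N A)
    {x : ZFSet.{u}} (hx : x ∈ N) : rk x ∈ N :=
  in_zfset.1 ((U.rk (C := fun M A => IsZF M A) (U.id (α := ZFSet.{u}))).closed hN
    (a := x) (in_zfset.2 hx))

theorem _root_.Pool.Agent.Helper66.SC.IsZF.tc_mem {N A : Set ZFSet.{u}} (hN : IsZF N A)
    {x : ZFSet.{u}} (hx : x ∈ N) : tc x ∈ N :=
  in_zfset.1 ((U.tc (C := fun M A => IsZF M A) (U.id (α := ZFSet.{u}))).closed hN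
    (a := x) (in_zfset.2 hx))

theorem _root_.Pool.Agent.Helper66.SC.IsZF.VM_mem {N A : Set ZFSet.{u}} (hN : IsZF N A)
    {x : ZFSet.{u}} (hx : x ∈ N) : VM N x ∈ N :=
  in_zfset.1 ((U.VM (C := fun M A => IsZF M A) (U.id (α := ZFSet.{u}))).closed hN
    (a := x) (in_zfset.2 hx))

/-! ### Least ordinals and collection -/

theorem _root_.Pool.Agent.Helper66.SC.IsZF.succ_mem {N A : Set ZFSet.{u}} (hN : IsZF N A)
    {x : ZFSet.{u}} (hx : x ∈ N) : (insert x x : ZFSet.{u}) ∈ N := hN.insert_mem hx hx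

/-- Collection for uniformly definable relations. -/
theorem coll_of_urel [ZCls C] {R : Set ZFSet.{u} → Set ZFSet.{u} → α → ZFSet.{u} → ZFSet.{u} → Prop}
    (hR : URel C (fun N A (p : (α × ZFSet.{u}) × ZFSet.{u}) => R N A p.1.1 p.1.2 p.2))
    {N A : Set ZFSet.{u}} (hN : C N A) {a : α} (ha : In N a) {d : ZFSet.{u}} (hd : d ∈ N)
    (h : ∀ x ∈ d, ∃ y ∈ N, R N A a x y) :
    ∃ b ∈ N, ∀ x ∈ d, ∃ y ∈ b, R N A a x y := by
  have hZ := ZCls.isZF hN
  -- `Q x o`: `o` is the least ordinal such that some `y` of rank `≤ o` satisfies `R x y`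
  set P : Set ZFSet.{u} → Set ZFSet.{u} → α → ZFSet.{u} → ZFSet.{u} → Prop :=
    fun N A a x o => o.IsOrdinal ∧ ∃ y ∈ N, rk y ⊆ o ∧ R N A a x y with hP
  set Q : Set ZFSet.{u} → Set ZFSet.{u} → α → ZFSet.{u} → ZFSet.{u} → Prop :=
    fun N A a x o => P N A a x o ∧ ∀ o' ∈ N, P N A a x o' → o ⊆ o' with hQ
  have hPU : URel C (fun N A (p : (α × ZFSet.{u}) × ZFSet.{u}) => P N A p.1.1 p.1.2 p.2) := by
    simp only [hP]
    refine URel.and (by apply_rules (transparency := .reducible) (maxDepth := 400) using is_poly) ?_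
    refine URel.ex (R := fun N A (p : (α × ZFSet.{u}) × ZFSet.{u}) y => SC.rk y ⊆ p.2 ∧
      R N A p.1.1 p.1.2 y) ?_
    refine URel.and (by apply_rules (transparency := .reducible) (maxDepth := 400) using is_poly) ?_
    exact hR.comp (f := fun _ _ (p : ((α × ZFSet.{u}) × ZFSet.{u}) × ZFSet.{u}) =>
      ((p.1.1.1, p.1.1.2), p.2)) (by apply_rules (transparency := .reducible) (maxDepth := 400) using is_poly)
  have hQU : URel C (fun N A (p : (α × ZFSet.{u}) × ZFSet.{u}) => Q N A p.1.1 p.1.2 p.2) := by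
    simp only [hQ]
    refine URel.and hPU ?_
    refine URel.all (R := fun N A (p : (α × ZFSet.{u}) × ZFSet.{u}) o' => P N A p.1.1 p.1.2 o' →
      p.2 ⊆ o') ?_
    refine URel.imp ?_ (by apply_rules (transparency := .reducible) (maxDepth := 400) using is_poly)
    exact hPU.comp (f := fun _ _ (p : ((α × ZFSet.{u}) × ZFSet.{u}) × ZFSet.{u}) =>
      ((p.1.1.1, p.1.1.2), p.2)) (by apply_rules (transparency := .reducible) (maxDepth := 400) using is_poly)
  have hex : ∀ x ∈ d, ∃! o, o ∈ N ∧ Q N A a x o := by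
    intro x hx
    obtain ⟨y, hy, hxy⟩ := h x hx
    -- the least ordinal
    have hne : ∃ r : Ordinal.{u}, ∃ y ∈ N, ZFSet.rank y ≤ r ∧ R N A a x y :=
      ⟨ZFSet.rank y, y, hy, le_rfl, hxy⟩
    classical
    obtain ⟨r, ⟨y1, hy1, hr1, hR1⟩, hmin⟩ :=
      WellFounded.has_min (wellFounded_lt (α := Ordinal.{u})) {r : Ordinal.{u} | ∃ y ∈ N,
        ZFSet.rank y ≤ r ∧ R N A a x y} hne
    have hr2 : r = ZFSet.rank y1 := by
      refine le_antisymm ?_ hr1
      by_contra hlt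
      exact hmin _ ⟨y1, hy1, le_rfl, hR1⟩ (not_le.1 hlt)
    refine ⟨rk y1, ⟨hZ.rk_mem hy1, ⟨isOrdinal_rk _, y1, hy1, subset_rfl, hR1⟩, ?_⟩, ?_⟩
    · rintro o' ho' ⟨ho1, y2, hy2, h2, h3⟩
      have h4 : ZFSet.rank y1 ≤ ZFSet.rank y2 := by
        rw [← hr2]
        by_contra hlt
        exact hmin _ ⟨y2, hy2, le_rfl, h3⟩ (not_le.1 hlt)
      refine subset_trans ?_ h2
      rw [rk, rk, Ordinal.toZFSet_subset_toZFSet_iff]
      exact h4
    · rintro o ⟨ho, ⟨⟨ho1, y2, hy2, h2, h3⟩, h4⟩⟩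
      refine subset_antisymm (h4 _ (hZ.rk_mem hy1) ⟨isOrdinal_rk _, y1, hy1, subset_rfl, hR1⟩) ?_
      have h5 : ZFSet.rank y1 ≤ ZFSet.rank y2 := by
        rw [← hr2]
        by_contra hlt
        exact hmin _ ⟨y2, hy2, le_rfl, h3⟩ (not_le.1 hlt)
      refine subset_trans ?_ h2
      rw [rk, rk, Ordinal.toZFSet_subset_toZFSet_iff]
      exact h5
  obtain ⟨b, hb, hb'⟩ := repl_of_urel hQU hN ha hd hex
  refine ⟨VM N (insert (⋃₀ b) (⋃₀ b)), hZ.VM_mem (hZ.succ_mem (hZ.sUnion _ hb)), ?_⟩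
  intro x hx
  obtain ⟨o, ⟨hoN, ho⟩, _⟩ := hex x hx
  obtain ⟨⟨ho1, y, hy, h2, h3⟩, _⟩ := id ho
  refine ⟨y, mem_VM.2 ⟨hy, ?_⟩, h3⟩
  have h4 : o ⊆ (⋃₀ b : ZFSet.{u}) := fun z hz => mem_sUnion.2 ⟨o, (hb' o).2 ⟨hoN, x, hx, ho⟩, hz⟩
  have h5 : ZFSet.rank y ≤ ZFSet.rank (⋃₀ b : ZFSet.{u}) := by
    have := rank_mono (h2.trans h4)
    rwa [rank_rk] at this
  exact lt_of_le_of_lt h5 (rank_lt_of_mem (mem_insert _ _))

end Pool.Agent.Helper22.SC
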