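import Pool.Agent.Helper22.SC.Basic

/-! # The recursion theorem -/

namespace Pool.Agent.Helper22.SC

universe u

open ZFSet
open Pool.Agent.Helper66.SC (Fml Sat IsZF Cls sat_rn mem_Pow img mem_img)

variable {C : Cls.{u}}
variable {α β γ δ : Type (u + 1)} [Ctx.{u} α] [Ctx.{u} β] [Ctx.{u} γ] [Ctx.{u} δ]

/-- graph of `g` on the set `d` -/
noncomputable def gr (d : ZFSet.{u}) (g : ZFSet.{u} → ZFSet.{u}) : ZFSet.{u} :=
  img d (fun y => ZFSet.pair y (g y))

theorem mem_gr {d : ZFSet.{u}} {g : ZFSet.{u} → ZFSet.{u}} {z : ZFSet.{u}} :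
    z ∈ gr d g ↔ ∃ y ∈ d, ZFSet.pair y (g y) = z := by rw [gr, mem_img]

theorem pair_mem_gr {d : ZFSet.{u}} {g : ZFSet.{u} → ZFSet.{u}} {x y : ZFSet.{u}} :
    ZFSet.pair x y ∈ gr d g ↔ x ∈ d ∧ y = g x := by
  rw [mem_gr]
  constructor
  · rintro ⟨z, hz, h⟩
    obtain ⟨rfl, rfl⟩ := pair_inj.1 h
    exact ⟨hz, rfl⟩
  · rintro ⟨h, rfl⟩
    exact ⟨x, h, rfl⟩

theorem gr_congr {d : ZFSet.{u}} {g h : ZFSet.{u} → ZFSet.{u}} (H : ∀ x ∈ d, g x = h x) :
    gr d g = gr d h := by
  ext z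
  simp only [mem_gr]
  constructor
  · rintro ⟨y, hy, rfl⟩; exact ⟨y, hy, by rw [H y hy]⟩
  · rintro ⟨y, hy, rfl⟩; exact ⟨y, hy, by rw [H y hy]⟩

theorem _root_.Pool.Agent.Helper66.SC.IsZF.of_pair {N A : Set ZFSet.{u}} (hN : IsZF N A)
    {x y : ZFSet.{u}} (h : ZFSet.pair x y ∈ N) : x ∈ N ∧ y ∈ N := by
  have h1 : ({x, y} : ZFSet.{u}) ∈ N := hN.trans _ h _ (by simp [ZFSet.pair])
  exact ⟨hN.trans _ h1 _ (by simp), hN.trans _ h1 _ (by simp)⟩

theorem _root_.Pool.Agent.Helper66.SC.IsZF.pair_mem {N A : Set ZFSet.{u}} (hN : IsZF N A)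
    {x y : ZFSet.{u}} (hx : x ∈ N) (hy : y ∈ N) : ZFSet.pair x y ∈ N := by
  have := (U.pair (C := fun M A => IsZF M A) (α := ZFSet.{u} × ZFSet.{u}) U.id.fst
    U.id.snd).closed hN (a := (x, y)) (by simp [hx, hy])
  simpa using this

section

variable (F : Set ZFSet.{u} → Set ZFSet.{u} → (α × ZFSet.{u}) × ZFSet.{u} → ZFSet.{u})
  (P : Set ZFSet.{u} → Set ZFSet.{u} → α × ZFSet.{u} → ZFSet.{u})

/-- restriction of a relation to a domain -/
def restr (N : Set ZFSet.{u}) (g d : ZFSet.{u}) : ZFSet.{u} :=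
  ZFSet.sep (fun z => ∃ u ∈ d, ∃ w ∈ N, z = ZFSet.pair u w) g

def Att (N A : Set ZFSet.{u}) (a : α) (g : ZFSet.{u}) : Prop :=
  ∀ z ∈ g, ∃ x ∈ N, ∃ y ∈ N, z = ZFSet.pair x y ∧ y = F N A ((a, x), restr N g (P N A (a, x))) ∧
    ∀ u ∈ P N A (a, x), ∃ w ∈ N, ZFSet.pair u w ∈ g

variable {F P}

theorem att_urel [ZCls C] (hF : U C F) (hP : U C P) :
    URel C (fun N A (p : α × ZFSet.{u}) => Att F P N A p.1 p.2) := by
  unfold Att restr
  apply_rules (transparency := .reducible) (maxDepth := 400) using is_poly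
  · refine hF.comp ?_
    apply_rules (transparency := .reducible) (maxDepth := 400) using is_poly
    exact hP.comp (by apply_rules (transparency := .reducible) (maxDepth := 400) using is_poly)
  · exact hP.comp (by apply_rules (transparency := .reducible) (maxDepth := 400) using is_poly)

variable {G : Set ZFSet.{u} → Set ZFSet.{u} → α → ZFSet.{u} → ZFSet.{u}}

theorem att_val {N A : Set ZFSet.{u}} {a : α}
    (hG : ∀ x ∈ N, G N A a x = F N A ((a, x), gr (P N A (a, x)) (G N A a)))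
    {g : ZFSet.{u}} (hg : Att F P N A a g) :
    ∀ x, Acc (fun y x => y ∈ P N A (a, x)) x → ∀ y, ZFSet.pair x y ∈ g → y = G N A a x := by
  intro x hx
  induction hx with
  | intro x _ ih =>
    intro y hxy
    obtain ⟨x', hx', y', hy', h1, h2, h3⟩ := hg _ hxy
    obtain ⟨rfl, rfl⟩ := pair_inj.1 h1
    have : restr N g (P N A (a, x)) = gr (P N A (a, x)) (G N A a) := by
      ext z
      simp only [restr, mem_sep, mem_gr]
      constructor
      · rintro ⟨hz, u, hu, w, hw, rfl⟩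
        exact ⟨u, hu, by rw [ih u hu w hz]⟩
      · rintro ⟨u, hu, rfl⟩
        obtain ⟨w, hw, hw'⟩ := h3 u hu
        have := ih u hu w hw'
        subst this
        exact ⟨hw', u, hu, _, hw, rfl⟩
    rw [this] at h2
    rw [h2, ← hG x hx']

theorem att_iff {N A : Set ZFSet.{u}} (hN : IsZF N A) {a : α}
    (wf : ∀ x ∈ N, Acc (fun y x => y ∈ P N A (a, x)) x)
    (hG : ∀ x ∈ N, G N A a x = F N A ((a, x), gr (P N A (a, x)) (G N A a)))
    {g : ZFSet.{u}} (hgN : g ∈ N) :
    Att F P N A a g ↔ ∀ z ∈ g, ∃ x ∈ N, z = ZFSet.pair x (G N A a x) ∧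
      ∀ u ∈ P N A (a, x), ZFSet.pair u (G N A a u) ∈ g := by
  constructor
  · intro hg z hz
    obtain ⟨x, hx, y, hy, rfl, h2, h3⟩ := hg z hz
    have := att_val hG hg x (wf x hx) y hz
    subst this
    refine ⟨x, hx, rfl, fun u hu => ?_⟩
    obtain ⟨w, hw, h4⟩ := h3 u hu
    have := att_val hG hg u ((wf x hx).inv hu) w h4
    subst this
    exact h4
  · intro h z hz
    obtain ⟨x, hx, rfl, h3⟩ := h z hz
    have hpN : ∀ {u v}, ZFSet.pair u v ∈ g → u ∈ N ∧ v ∈ N := fun huv =>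
      hN.of_pair (hN.trans _ hgN _ huv)
    refine ⟨x, hx, G N A a x, (hpN hz).2, rfl, ?_, fun u hu => ⟨_, (hpN (h3 u hu)).2, h3 u hu⟩⟩
    have : restr N g (P N A (a, x)) = gr (P N A (a, x)) (G N A a) := by
      ext z
      simp only [restr, mem_sep, mem_gr]
      constructor
      · rintro ⟨hz, v, hv, w, hw, rfl⟩
        obtain ⟨v', _, h1, _⟩ := h _ hz
        obtain ⟨rfl, rfl⟩ := pair_inj.1 h1
        exact ⟨v, hv, rfl⟩
      · rintro ⟨v, hv, rfl⟩
        exact ⟨h3 v hv, v, hv, _, (hpN (h3 v hv)).2, rfl⟩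
    rw [this]
    exact hG x hx

theorem restr_u [ZCls C] :
    U C (fun N (_ : Set ZFSet.{u}) (p : ZFSet.{u} × ZFSet.{u}) => restr N p.1 p.2) := by
  unfold restr; apply_rules (transparency := .reducible) (maxDepth := 400) using is_poly

/-- **Recursion theorem.** -/
theorem U.wfrec [ZCls C] (hF : U C F) (hP : U C P)
    (wf : ∀ {N A}, C N A → ∀ {a : α}, In N a → ∀ x ∈ N, Acc (fun y x => y ∈ P N A (a, x)) x)
    (hG : ∀ {N A}, C N A → ∀ {a : α}, In N a → ∀ x ∈ N,
      G N A a x = F N A ((a, x), gr (P N A (a, x)) (G N A a))) :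
    U C (fun N A (p : α × ZFSet.{u}) => G N A p.1 p.2) := by
  -- existence of attempts
  have key : ∀ {N A}, C N A → ∀ {a : α}, In N a → ∀ x ∈ N,
      ∃ g ∈ N, Att F P N A a g ∧ ZFSet.pair x (G N A a x) ∈ g := by
    intro N A hN a ha x hx
    have hZ := ZCls.isZF hN
    have hacc := wf hN ha x hx
    induction hacc with
    | intro x _ ih =>
      have hPx : P N A (a, x) ∈ N := in_zfset.1 (hP.closed hN (a := (a, x)) (by simp [ha, hx]))
      have hsub : ∀ u ∈ P N A (a, x), u ∈ N := fun u hu => hZ.trans _ hPx _ hu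
      have hAtt : URel C (fun N A (p : α × ZFSet.{u}) => Att F P N A p.1 p.2) := att_urel hF hP
      -- the minimal attempt at `u`
      set Q : Set ZFSet.{u} → Set ZFSet.{u} → α → ZFSet.{u} → ZFSet.{u} → Prop :=
        fun N A a u g => Att F P N A a g ∧ (∃ w ∈ N, ZFSet.pair u w ∈ g) ∧
          ∀ g' ∈ N, Att F P N A a g' ∧ (∃ w ∈ N, ZFSet.pair u w ∈ g') → g ⊆ g' with hQ
      have hR : URel C (fun N A (p : (α × ZFSet.{u}) × ZFSet.{u}) => Q N A p.1.1 p.1.2 p.2) := by
        refine URel.and ?_ (URel.and (by apply_rules (transparency := .reducible) (maxDepth := 400) using is_poly) ?_)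
        · exact hAtt.comp (f := fun _ _ (p : (α × ZFSet.{u}) × ZFSet.{u}) => (p.1.1, p.2))
            (by apply_rules (transparency := .reducible) (maxDepth := 400) using is_poly)
        · refine URel.all (R := fun N A (p : (α × ZFSet.{u}) × ZFSet.{u}) g' =>
            Att F P N A p.1.1 g' ∧ (∃ w ∈ N, ZFSet.pair p.1.2 w ∈ g') → p.2 ⊆ g') ?_
          refine URel.imp (URel.and ?_ (by apply_rules (transparency := .reducible) (maxDepth := 400) using is_poly)) (by apply_rules (transparency := .reducible) (maxDepth := 400) using is_poly)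
          exact hAtt.comp (f := fun _ _ (p : ((α × ZFSet.{u}) × ZFSet.{u}) × ZFSet.{u}) =>
            (p.1.1.1, p.2)) (by apply_rules (transparency := .reducible) (maxDepth := 400) using is_poly)
      have hex : ∀ u ∈ P N A (a, x), ∃! g, g ∈ N ∧ Q N A a u g := by
        intro u hu
        obtain ⟨g0, hg0, hg1, hg2⟩ := ih u hu (hsub u hu)
        have hsepU : U C (fun N A (p : (α × ZFSet.{u}) × ZFSet.{u}) =>
            ZFSet.sep (fun z => ∀ g' ∈ N, Att F P N A p.1.1 g' ∧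
              (∃ w ∈ N, ZFSet.pair p.1.2 w ∈ g') → z ∈ g') p.2) := by
          refine U.sep (R := fun N A (p : (α × ZFSet.{u}) × ZFSet.{u}) z => ∀ g' ∈ N,
            Att F P N A p.1.1 g' ∧ (∃ w ∈ N, ZFSet.pair p.1.2 w ∈ g') → z ∈ g') (by apply_rules (transparency := .reducible) (maxDepth := 400) using is_poly) ?_
          refine URel.all (R := fun N A (p : ((α × ZFSet.{u}) × ZFSet.{u}) × ZFSet.{u}) g' =>
            Att F P N A p.1.1.1 g' ∧ (∃ w ∈ N, ZFSet.pair p.1.1.2 w ∈ g') → p.2 ∈ g') ?_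
          refine URel.imp (URel.and ?_ (by apply_rules (transparency := .reducible) (maxDepth := 400) using is_poly)) (by apply_rules (transparency := .reducible) (maxDepth := 400) using is_poly)
          exact hAtt.comp (f := fun _ _
            (p : (((α × ZFSet.{u}) × ZFSet.{u}) × ZFSet.{u}) × ZFSet.{u}) =>
            (p.1.1.1.1, p.2)) (by apply_rules (transparency := .reducible) (maxDepth := 400) using is_poly)
        have hg1N := in_zfset.1 (hsepU.closed hN (a := ((a, u), g0)) (by simp [ha, hsub u hu, hg0]))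
        set g1 : ZFSet.{u} := ZFSet.sep (fun z => ∀ g' ∈ N, Att F P N A a g' ∧
              (∃ w ∈ N, ZFSet.pair u w ∈ g') → z ∈ g') g0 with hg1def
        have hmem : ∀ g' ∈ N, Att F P N A a g' → (∃ w ∈ N, ZFSet.pair u w ∈ g') →
            ZFSet.pair u (G N A a u) ∈ g' := by
          rintro g' hg' h1 ⟨w, hw, h2⟩
          have := att_val (hG hN ha) h1 u (wf hN ha u (hsub u hu)) w h2
          subst this
          exact h2
        have hg1mem : ZFSet.pair u (G N A a u) ∈ g1 := by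
          rw [hg1def, mem_sep]
          exact ⟨hg2, fun g' hg' h => hmem g' hg' h.1 h.2⟩
        have hg1att : Att F P N A a g1 := by
          rw [att_iff hZ (wf hN ha) (hG hN ha) hg1N]
          intro z hz
          rw [hg1def, mem_sep] at hz
          obtain ⟨v, hv, rfl, h3⟩ := (att_iff hZ (wf hN ha) (hG hN ha) hg0).1 hg1 z hz.1
          refine ⟨v, hv, rfl, fun w hw => ?_⟩
          rw [hg1def, mem_sep]
          refine ⟨h3 w hw, fun g' hg' h => ?_⟩
          obtain ⟨v', _, h4, h5⟩ :=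
            (att_iff hZ (wf hN ha) (hG hN ha) hg').1 h.1 _ (hz.2 g' hg' h)
          obtain ⟨rfl, _⟩ := pair_inj.1 h4
          exact h5 w hw
        have hg1Q : Q N A a u g1 :=
          ⟨hg1att, ⟨_, (hZ.of_pair (hZ.trans _ hg1N _ hg1mem)).2, hg1mem⟩,
            fun g' hg' h z hz => (mem_sep.1 hz).2 g' hg' h⟩
        refine ⟨g1, ⟨hg1N, hg1Q⟩, ?_⟩
        rintro g ⟨hgN, hg⟩
        exact subset_antisymm (hg.2.2 g1 hg1N ⟨hg1Q.1, hg1Q.2.1⟩) (hg1Q.2.2 g hgN ⟨hg.1, hg.2.1⟩)
      obtain ⟨b, hb, hb'⟩ := repl_of_urel hR hN ha hPx hex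
      -- union of attempts
      set gs : ZFSet.{u} := ⋃₀ b with hgs
      have hgsN : gs ∈ N := hZ.sUnion _ hb
      have hbatt : ∀ g ∈ b, Att F P N A a g := fun g hg => by
        obtain ⟨_, u, _, h⟩ := (hb' g).1 hg
        exact h.1
      have hdom : ∀ u ∈ P N A (a, x), ZFSet.pair u (G N A a u) ∈ gs := by
        intro u hu
        obtain ⟨g, ⟨hgN, hg⟩, _⟩ := hex u hu
        obtain ⟨w, hw, h2⟩ := hg.2.1
        have := att_val (hG hN ha) hg.1 u (wf hN ha u (hsub u hu)) w h2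
        subst this
        rw [hgs, mem_sUnion]
        exact ⟨g, (hb' g).2 ⟨hgN, u, hu, hg⟩, h2⟩
      have hclos : ∀ z ∈ gs, ∃ u ∈ N, z = ZFSet.pair u (G N A a u) ∧
          ∀ v ∈ P N A (a, u), ZFSet.pair v (G N A a v) ∈ gs := by
        intro z hz
        rw [hgs, mem_sUnion] at hz
        obtain ⟨g, hg, h⟩ := hz
        obtain ⟨v, hv, rfl, h3⟩ := (att_iff hZ (wf hN ha) (hG hN ha)
          (hZ.trans _ hb _ hg)).1 (hbatt g hg) z h
        refine ⟨v, hv, rfl, fun w hw => ?_⟩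
        rw [hgs, mem_sUnion]
        exact ⟨g, hg, h3 w hw⟩
      -- the new attempt
      have hrx : restr N gs (P N A (a, x)) = gr (P N A (a, x)) (G N A a) := by
        ext z
        simp only [restr, mem_sep, mem_gr]
        constructor
        · rintro ⟨hz, u, hu, w, hw, rfl⟩
          obtain ⟨v, _, h1, _⟩ := hclos _ hz
          obtain ⟨rfl, rfl⟩ := pair_inj.1 h1
          exact ⟨u, hu, rfl⟩
        · rintro ⟨u, hu, rfl⟩
          have := hdom u hu
          exact ⟨this, u, hu, _, (hZ.of_pair (hZ.trans _ hgsN _ this)).2, rfl⟩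
      have hrN : restr N gs (P N A (a, x)) ∈ N := by
        simpa using (restr_u (C := C)).closed hN (a := (gs, P N A (a, x))) (by simp [hgsN, hPx])
      have hGx : G N A a x ∈ N := by
        rw [hG hN ha x hx, ← hrx]
        simpa using hF.closed hN (a := ((a, x), restr N gs (P N A (a, x)))) (by simp [ha, hx, hrN])
      have hins : (Insert.insert (ZFSet.pair x (G N A a x)) gs : ZFSet.{u}) ∈ N :=
        hZ.insert_mem (hZ.pair_mem hx hGx) hgsN
      refine ⟨Insert.insert (ZFSet.pair x (G N A a x)) gs, hins, ?_, by simp⟩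
      rw [att_iff hZ (wf hN ha) (hG hN ha) hins]
      intro z hz
      rw [mem_insert_iff] at hz
      rcases hz with rfl | hz
      · exact ⟨x, hx, rfl, fun v hv => mem_insert_of_mem _ (hdom v hv)⟩
      · obtain ⟨u, hu, rfl, h⟩ := hclos z hz
        exact ⟨u, hu, rfl, fun v hv => mem_insert_of_mem _ (h v hv)⟩
  refine U.of_graph (fun {N A} hN p hp => ?_) ?_
  · obtain ⟨h1, h2⟩ := in_prod.1 hp
    have hZ := ZCls.isZF hN
    obtain ⟨g, hg, _, h⟩ := key hN h1 p.2 (in_zfset.1 h2)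
    exact (hZ.of_pair (hZ.trans _ hg _ h)).2
  · have h1 : URel C (fun N A (p : (α × ZFSet.{u}) × ZFSet.{u}) =>
        ∃ g ∈ N, Att F P N A p.1.1 g ∧ ZFSet.pair p.1.2 p.2 ∈ g) := by
      refine URel.ex (R := fun N A (p : (α × ZFSet.{u}) × ZFSet.{u}) g =>
        Att F P N A p.1.1 g ∧ ZFSet.pair p.1.2 p.2 ∈ g) ?_
      refine URel.and ?_ (by apply_rules (transparency := .reducible) (maxDepth := 400) using is_poly)
      exact (att_urel hF hP).comp (f := fun _ _ (p : ((α × ZFSet.{u}) × ZFSet.{u}) × ZFSet.{u}) =>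
          (p.1.1.1, p.2)) (by apply_rules (transparency := .reducible) (maxDepth := 400) using is_poly)
    refine h1.congr ?_
    intro N A hN p hp
    obtain ⟨hp1, hp2⟩ := in_prod.1 hp
    obtain ⟨hp3, hp4⟩ := in_prod.1 hp1
    constructor
    · rintro ⟨g, hg, h1, h2⟩
      exact att_val (hG hN hp3) h1 _ (wf hN hp3 _ (in_zfset.1 hp4)) _ h2
    · intro h
      obtain ⟨g, hg, h1, h2⟩ := key hN hp3 p.1.2 (in_zfset.1 hp4)
      exact ⟨g, hg, h1, by rw [h]; exact h2⟩

/-- `∈`-recursion. -/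
theorem U.memrec [ZCls C] (hF : U C F)
    (hG : ∀ {N A}, C N A → ∀ {a : α}, In N a → ∀ x ∈ N,
      G N A a x = F N A ((a, x), gr x (G N A a))) :
    U C (fun N A (p : α × ZFSet.{u}) => G N A p.1 p.2) :=
  U.wfrec (P := fun _ _ p => p.2) hF (by apply_rules (transparency := .reducible) (maxDepth := 400) using is_poly) (fun _ _ _ x _ => mem_wf.apply x) hG

end

end Pool.Agent.Helper22.SC
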