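import Pool.Agent.Helper22.SC.Ops3

/-! # Recursion along rank, recursion on natural numbers, closures -/

namespace Pool.Agent.Helper22.SC

universe u

open ZFSet
open Pool.Agent.Helper66.SC (Fml Sat IsZF Cls sat_rn mem_Pow img mem_img tc CardLe)

variable {C : Cls.{u}}
variable {α β γ δ : Type (u + 1)} [Ctx.{u} α] [Ctx.{u} β] [Ctx.{u} γ] [Ctx.{u} δ]

/-! ### Recursion along rank -/

theorem rank_wf : WellFounded (fun x y : ZFSet.{u} => ZFSet.rank x < ZFSet.rank y) :=
  InvImage.wf ZFSet.rank wellFounded_lt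

open Classical in
/-- the function `G` with `G x = F x (gr (P x) G)`, if `P x` consists of sets of smaller rank -/
noncomputable def rrec (F : ZFSet.{u} → ZFSet.{u} → ZFSet.{u}) (P : ZFSet.{u} → ZFSet.{u}) :
    ZFSet.{u} → ZFSet.{u} :=
  rank_wf.fix (fun x ih => F x (gr (P x) (fun y => if h : ZFSet.rank y < ZFSet.rank x then ih y h
    else ∅)))

theorem rrec_eq {F : ZFSet.{u} → ZFSet.{u} → ZFSet.{u}} {P : ZFSet.{u} → ZFSet.{u}}
    {x : ZFSet.{u}} (hP : ∀ y ∈ P x, ZFSet.rank y < ZFSet.rank x) :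
    rrec F P x = F x (gr (P x) (rrec F P)) := by
  classical
  unfold rrec
  rw [WellFounded.fix_eq]
  congr 1
  refine gr_congr (fun y hy => ?_)
  rw [dif_pos (hP y hy)]

theorem acc_of_rank {P : ZFSet.{u} → ZFSet.{u}} {N : Set ZFSet.{u}}
    (hN : ∀ x ∈ N, ∀ y ∈ P x, y ∈ N)
    (hP : ∀ x ∈ N, ∀ y ∈ P x, ZFSet.rank y < ZFSet.rank x) :
    ∀ x ∈ N, Acc (fun y x => y ∈ P x) x := by
  intro x
  refine rank_wf.induction (C := fun x => x ∈ N → Acc (fun y x => y ∈ P x) x) x ?_
  intro x ih hx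
  exact Acc.intro _ (fun y hy => ih y (hP x hx y hy) (hN x hx y hy))

theorem U.rrec [ZCls C]
    {F : Set ZFSet.{u} → Set ZFSet.{u} → α → ZFSet.{u} → ZFSet.{u} → ZFSet.{u}}
    {P : Set ZFSet.{u} → Set ZFSet.{u} → α → ZFSet.{u} → ZFSet.{u}}
    {f : Set ZFSet.{u} → Set ZFSet.{u} → α → ZFSet.{u}}
    (hF : U C (fun N A (p : (α × ZFSet.{u}) × ZFSet.{u}) => F N A p.1.1 p.1.2 p.2))
    (hP : U C (fun N A (p : α × ZFSet.{u}) => P N A p.1 p.2))
    (hr : ∀ {N A}, C N A → ∀ {a : α}, In N a → ∀ x ∈ N, ∀ y ∈ P N A a x,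
      ZFSet.rank y < ZFSet.rank x) (hf : U C f) :
    U C (fun N A a => SC.rrec (F N A a) (P N A a) (f N A a)) := by
  have h0 : U C (fun N A (p : α × ZFSet.{u}) => SC.rrec (F N A p.1) (P N A p.1) p.2) := by
    refine U.wfrec (F := fun N A p => F N A p.1.1 p.1.2 p.2) (P := fun N A p => P N A p.1 p.2)
      (G := fun N A a x => SC.rrec (F N A a) (P N A a) x) hF hP ?_ ?_
    · intro N A hN a ha
      refine acc_of_rank (P := P N A a) ?_ (hr hN ha)
      intro x hx y hy
      exact (ZCls.isZF hN).trans _ (in_zfset.1 (hP.closed hN (a := (a, x)) (by simp [ha, hx]))) _ hy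
    · intro N A hN a ha x hx
      exact rrec_eq (hr hN ha x hx)
  exact h0.comp (U.id.prodMk hf)

/-! ### Natural numbers -/

/-- the von Neumann numeral -/
noncomputable def nat (n : ℕ) : ZFSet.{u} := (n : Ordinal.{u}).toZFSet

@[simp] theorem nat_zero : (nat 0 : ZFSet.{u}) = ∅ := by simp [nat]

theorem nat_succ (n : ℕ) : (nat (n + 1) : ZFSet.{u}) = insert (nat n) (nat n) := by
  rw [nat, Nat.cast_add, Nat.cast_one, Ordinal.toZFSet_add_one]; rfl

theorem nat_inj {m n : ℕ} : (nat m : ZFSet.{u}) = nat n ↔ m = n := by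
  constructor
  · intro h
    have := Ordinal.toZFSet_injective h
    exact_mod_cast this
  · rintro rfl; rfl

theorem mem_nat {n : ℕ} {x : ZFSet.{u}} : x ∈ (nat n : ZFSet.{u}) ↔ ∃ m < n, x = nat m := by
  rw [nat, Ordinal.mem_toZFSet_iff]
  constructor
  · rintro ⟨a, ha, rfl⟩
    obtain ⟨m, rfl⟩ := Ordinal.lt_omega0.1 (ha.trans (Ordinal.nat_lt_omega0 n))
    exact ⟨m, by exact_mod_cast ha, rfl⟩
  · rintro ⟨m, hm, rfl⟩
    exact ⟨m, by exact_mod_cast hm, rfl⟩

theorem nat_mem_nat {m n : ℕ} : (nat m : ZFSet.{u}) ∈ (nat n : ZFSet.{u}) ↔ m < n := by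
  rw [mem_nat]
  constructor
  · rintro ⟨k, hk, h⟩
    rwa [nat_inj.1 h]
  · intro h
    exact ⟨m, h, rfl⟩

theorem mem_omega {x : ZFSet.{u}} : x ∈ omega ↔ ∃ n : ℕ, x = nat n := mem_omega_iff'

theorem nat_mem_omega (n : ℕ) : (nat n : ZFSet.{u}) ∈ omega := mem_omega.2 ⟨n, rfl⟩

theorem sUnion_nat_succ (n : ℕ) : (⋃₀ (nat (n + 1)) : ZFSet.{u}) = nat n := by
  ext x
  rw [mem_sUnion]
  constructor
  · rintro ⟨y, hy, hx⟩
    obtain ⟨m, hm, rfl⟩ := mem_nat.1 hy
    obtain ⟨k, hk, rfl⟩ := mem_nat.1 hx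
    exact nat_mem_nat.2 (by omega)
  · intro hx
    exact ⟨nat n, nat_mem_nat.2 (Nat.lt_succ_self n), hx⟩

theorem U.nat' [ZCls C] (n : ℕ) : U C (fun _ _ (_ : α) => (SC.nat n : ZFSet.{u})) := U.nat n

attribute [is_poly] U.nat'

open Classical in
/-- the natural number coded by an element of `ω` -/
noncomputable def toNat (x : ZFSet.{u}) : ℕ := if h : ∃ n : ℕ, x = nat n then h.choose else 0

@[simp] theorem toNat_nat (n : ℕ) : toNat (nat n : ZFSet.{u}) = n := by
  have h : ∃ m : ℕ, (nat n : ZFSet.{u}) = nat m := ⟨n, rfl⟩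
  unfold toNat
  rw [dif_pos h]
  exact (nat_inj.1 h.choose_spec).symm

open Classical in
/-- Recursion on natural numbers. -/
theorem U.natrec [ZCls C] {z : Set ZFSet.{u} → Set ZFSet.{u} → α → ZFSet.{u}}
    {S : Set ZFSet.{u} → Set ZFSet.{u} → α → ZFSet.{u} → ZFSet.{u} → ZFSet.{u}}
    {H : Set ZFSet.{u} → Set ZFSet.{u} → α → ℕ → ZFSet.{u}}
    {f : Set ZFSet.{u} → Set ZFSet.{u} → α → ZFSet.{u}}
    (hz : U C z)
    (hS : U C (fun N A (p : (α × ZFSet.{u}) × ZFSet.{u}) => S N A p.1.1 p.1.2 p.2))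
    (h0 : ∀ {N A}, C N A → ∀ {a : α}, In N a → H N A a 0 = z N A a)
    (h1 : ∀ {N A}, C N A → ∀ {a : α}, In N a → ∀ n : ℕ,
      H N A a (n + 1) = S N A a (SC.nat n) (H N A a n)) (hf : U C f) :
    U C (fun N A a => if f N A a ∈ ZFSet.omega then H N A a (SC.toNat (f N A a)) else ∅) := by
  have key : U C (fun N A (p : α × ZFSet.{u}) => SC.rrec (fun x g =>
      if x ∈ ZFSet.omega then (if x = ∅ then z N A p.1 else
        S N A p.1 (ZFSet.sUnion x) (SC.app g (ZFSet.sUnion x))) else ∅) (fun x => x) p.2) := by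
    refine U.rrec (α := α × ZFSet.{u}) (F := fun N A p x g => if x ∈ ZFSet.omega then (if x = ∅ then z N A p.1 else
        S N A p.1 (ZFSet.sUnion x) (SC.app g (ZFSet.sUnion x))) else ∅)
        (P := fun _ _ _ x => x) ?_ (by apply_rules (transparency := .reducible) (maxDepth := 400) using is_poly)
        (fun _ _ _ x _ y hy => rank_lt_of_mem hy) (by apply_rules (transparency := .reducible) (maxDepth := 400) using is_poly)
    refine U.ite (R := fun N A (p : ((α × ZFSet.{u}) × ZFSet.{u}) × ZFSet.{u}) => p.1.2 ∈ ZFSet.omega)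
      (by apply_rules (transparency := .reducible) (maxDepth := 400) using is_poly) ?_ (by apply_rules (transparency := .reducible) (maxDepth := 400) using is_poly)
    refine U.ite (R := fun N A (p : ((α × ZFSet.{u}) × ZFSet.{u}) × ZFSet.{u}) => p.1.2 = ∅)
      (by apply_rules (transparency := .reducible) (maxDepth := 400) using is_poly) (hz.comp (by apply_rules (transparency := .reducible) (maxDepth := 400) using is_poly)) ?_
    exact hS.comp (f := fun N A (p : ((α × ZFSet.{u}) × ZFSet.{u}) × ZFSet.{u}) =>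
      ((p.1.1.1, (ZFSet.sUnion p.1.2 : ZFSet.{u})), SC.app p.2 (ZFSet.sUnion p.1.2))) (by apply_rules (transparency := .reducible) (maxDepth := 400) using is_poly)
  have key2 := key.comp (f := fun N A (a : α) => (a, f N A a)) (U.id.prodMk hf)
  refine key2.congr ?_
  intro N A hN a ha
  have hval : ∀ n : ℕ, SC.rrec (fun x g =>
      if x ∈ ZFSet.omega then (if x = ∅ then z N A a else
        S N A a (ZFSet.sUnion x) (SC.app g (ZFSet.sUnion x))) else ∅) (fun x => x) (SC.nat n) =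
        H N A a n := by
    intro n
    induction n with
    | zero =>
      rw [rrec_eq (fun y hy => rank_lt_of_mem hy), if_pos (nat_mem_omega 0), if_pos nat_zero,
        h0 hN ha]
    | succ n ih =>
      rw [rrec_eq (fun y hy => rank_lt_of_mem hy), if_pos (nat_mem_omega _), if_neg]
      · rw [sUnion_nat_succ, app_gr (nat_mem_nat.2 (Nat.lt_succ_self n)), ih, h1 hN ha]
      · intro h
        have : (SC.nat n : ZFSet.{u}) ∈ (SC.nat (n + 1) : ZFSet.{u}) :=
          nat_mem_nat.2 (Nat.lt_succ_self n)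
        rw [h] at this
        exact notMem_empty _ this
  by_cases h : f N A a ∈ ZFSet.omega
  · obtain ⟨n, hn⟩ := mem_omega.1 h
    simp only [hn]
    rw [if_pos (nat_mem_omega n), toNat_nat]
    exact hval n
  · rw [if_neg h]
    change SC.rrec _ _ (f N A a) = ∅
    rw [rrec_eq (fun y hy => rank_lt_of_mem hy), if_neg h]

/-- Union over all natural numbers of a recursively defined sequence. -/
theorem U.natUnion [ZCls C] {z : Set ZFSet.{u} → Set ZFSet.{u} → α → ZFSet.{u}}
    {S : Set ZFSet.{u} → Set ZFSet.{u} → α → ZFSet.{u} → ZFSet.{u} → ZFSet.{u}}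
    {H : Set ZFSet.{u} → Set ZFSet.{u} → α → ℕ → ZFSet.{u}}
    (hz : U C z)
    (hS : U C (fun N A (p : (α × ZFSet.{u}) × ZFSet.{u}) => S N A p.1.1 p.1.2 p.2))
    (h0 : ∀ {N A}, C N A → ∀ {a : α}, In N a → H N A a 0 = z N A a)
    (h1 : ∀ {N A}, C N A → ∀ {a : α}, In N a → ∀ n : ℕ,
      H N A a (n + 1) = S N A a (SC.nat n) (H N A a n)) :
    U C (fun N A a => ZFSet.iUnion (fun n : ULift.{u} ℕ => H N A a n.down)) := by
  classical
  have key := U.natrec (C := C) (α := α × ZFSet.{u}) (z := fun N A p => z N A p.1)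
    (S := fun N A p x g => S N A p.1 x g) (H := fun N A p n => H N A p.1 n)
    (f := fun _ _ p => p.2) (hz.comp (by apply_rules (transparency := .reducible) (maxDepth := 400) using is_poly))
    (hS.comp (f := fun _ _ (p : ((α × ZFSet.{u}) × ZFSet.{u}) × ZFSet.{u}) =>
      ((p.1.1.1, p.1.2), p.2)) (by apply_rules (transparency := .reducible) (maxDepth := 400) using is_poly))
    (fun hN _ ha => h0 hN (in_prod.1 ha).1) (fun hN _ ha n => h1 hN (in_prod.1 ha).1 n) (by apply_rules (transparency := .reducible) (maxDepth := 400) using is_poly)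
  have key2 : U C (fun N A (a : α) => ZFSet.sUnion (Helper66.SC.img ZFSet.omega (fun x =>
      if x ∈ ZFSet.omega then H N A a (SC.toNat x) else ∅))) := by
    refine U.sUnion (U.img (by apply_rules (transparency := .reducible) (maxDepth := 400) using is_poly) ?_)
    exact key
  refine key2.congr ?_
  intro N A _ a _
  ext x
  rw [mem_sUnion, mem_iUnion]
  constructor
  · rintro ⟨w, hw, hx⟩
    obtain ⟨m, hm, rfl⟩ := mem_img.1 hw
    rw [if_pos hm] at hx
    exact ⟨⟨_⟩, hx⟩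
  · rintro ⟨⟨n⟩, hx⟩
    refine ⟨_, mem_img.2 ⟨SC.nat n, nat_mem_omega n, rfl⟩, ?_⟩
    rw [if_pos (nat_mem_omega n), toNat_nat]
    exact hx

end Pool.Agent.Helper22.SC
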