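import Pool.Agent.Helper22.SC.Conv

/-! # Tuples, codes of formulas, satisfaction as a uniformly definable function -/

namespace Pool.Agent.Helper22.SC

universe u

open ZFSet
open Pool.Agent.Helper66.SC (Fml Sat IsZF Cls sat_rn mem_Pow img mem_img tc CardLe UD UF UD1 UD2
  UD3 UF1 UF2 UF3)

variable {C : Cls.{u}}
variable {α β γ δ : Type (u + 1)} [Ctx.{u} α] [Ctx.{u} β] [Ctx.{u} γ] [Ctx.{u} δ]

/-! ### Tuples -/

/-- the set coding a tuple -/
noncomputable def tup : {k : ℕ} → (Fin k → ZFSet.{u}) → ZFSet.{u}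
  | 0, _ => ∅
  | _ + 1, v => ZFSet.pair (v 0) (tup (Fin.tail v))

@[simp] theorem tup_zero (v : Fin 0 → ZFSet.{u}) : tup v = ∅ := rfl

@[simp] theorem tup_cons {k : ℕ} (x : ZFSet.{u}) (v : Fin k → ZFSet.{u}) :
    tup (Fin.cons x v : Fin (k + 1) → ZFSet.{u}) = ZFSet.pair x (tup v) := rfl

theorem tup_succ {k : ℕ} (v : Fin (k + 1) → ZFSet.{u}) :
    tup v = ZFSet.pair (v 0) (tup (Fin.tail v)) := rfl

theorem tup_inj {k : ℕ} {v w : Fin k → ZFSet.{u}} : tup v = tup w ↔ v = w := by
  induction k with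
  | zero => exact ⟨fun _ => funext (fun i => i.elim0), fun _ => rfl⟩
  | succ k ih =>
    rw [tup_succ, tup_succ, pair_inj, ih]
    constructor
    · rintro ⟨h1, h2⟩
      rw [← Fin.cons_self_tail v, ← Fin.cons_self_tail w, h1, h2]
    · rintro rfl
      exact ⟨rfl, rfl⟩

/-- iterated second component -/
noncomputable def drop (e : ZFSet.{u}) : ℕ → ZFSet.{u}
  | 0 => e
  | n + 1 => psnd (drop e n)

theorem drop_pair (x e : ZFSet.{u}) (n : ℕ) : drop (ZFSet.pair x e) (n + 1) = drop e n := by
  induction n with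
  | zero => simp [drop]
  | succ n ih => rw [drop, ih, drop]

theorem drop_tup {k : ℕ} (v : Fin k → ZFSet.{u}) (i : Fin k) :
    pfst (drop (tup v) i) = v i := by
  induction k with
  | zero => exact i.elim0
  | succ k ih =>
    rw [tup_succ]
    refine Fin.cases ?_ (fun i => ?_) i
    · simp [drop]
    · rw [Fin.val_succ, drop_pair, ih]
      rfl

open Classical in
/-- the entry with number `x` of a tuple -/
noncomputable def nth (e x : ZFSet.{u}) : ZFSet.{u} :=
  pfst (if x ∈ ZFSet.omega then drop e (toNat x) else ∅)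

theorem nth_tup {k : ℕ} (v : Fin k → ZFSet.{u}) (i : Fin k) : nth (tup v) (nat i) = v i := by
  unfold nth
  rw [if_pos (nat_mem_omega _), toNat_nat, drop_tup]

theorem U.nth [ZCls C] {f g : Set ZFSet.{u} → Set ZFSet.{u} → α → ZFSet.{u}} (hf : U C f)
    (hg : U C g) : U C (fun N A a => SC.nth (f N A a) (g N A a)) := by
  unfold SC.nth
  refine U.pfst ?_
  exact U.natrec (z := f) (S := fun _ _ _ _ g => SC.psnd g)
    (H := fun N A a n => drop (f N A a) n) hf (by apply_rules (transparency := .reducible) (maxDepth := 400) using is_poly) (fun _ _ _ => rfl) (fun _ _ _ _ => rfl) hg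

attribute [is_poly] U.nth

/-- the set of tuples of length `n` -/
noncomputable def tset (X : ZFSet.{u}) : ℕ → ZFSet.{u}
  | 0 => {∅}
  | n + 1 => X.prod (tset X n)

theorem mem_tset {X e : ZFSet.{u}} {k : ℕ} :
    e ∈ tset X k ↔ ∃ v : Fin k → ZFSet.{u}, (∀ i, v i ∈ X) ∧ e = tup v := by
  induction k generalizing e with
  | zero =>
    simp only [tset, mem_singleton]
    constructor
    · rintro rfl
      exact ⟨Fin.elim0, fun i => i.elim0, rfl⟩
    · rintro ⟨v, _, rfl⟩
      rfl
  | succ k ih =>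
    simp only [tset, mem_prod]
    constructor
    · rintro ⟨x, hx, e', he', rfl⟩
      obtain ⟨v, hv, rfl⟩ := ih.1 he'
      refine ⟨Fin.cons x v, fun i => ?_, rfl⟩
      refine Fin.cases ?_ (fun i => ?_) i
      · exact hx
      · exact hv i
    · rintro ⟨v, hv, rfl⟩
      exact ⟨v 0, hv 0, tup (Fin.tail v), ih.2 ⟨_, fun i => hv _, rfl⟩, rfl⟩

theorem tup_mem_tset {X : ZFSet.{u}} {k : ℕ} {v : Fin k → ZFSet.{u}} :
    tup v ∈ tset X k ↔ ∀ i, v i ∈ X := by
  rw [mem_tset]
  constructor
  · rintro ⟨w, hw, h⟩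
    rw [tup_inj.1 h]
    exact hw
  · intro h
    exact ⟨v, h, rfl⟩

open Classical in
/-- the set of tuples whose length is the natural number `x` -/
noncomputable def tsetS (X x : ZFSet.{u}) : ZFSet.{u} :=
  if x ∈ ZFSet.omega then tset X (toNat x) else ∅

theorem tsetS_nat {X : ZFSet.{u}} {k : ℕ} : tsetS X (nat k) = tset X k := by
  unfold tsetS
  rw [if_pos (nat_mem_omega _), toNat_nat]

theorem U.tsetS [ZCls C] {f g : Set ZFSet.{u} → Set ZFSet.{u} → α → ZFSet.{u}} (hf : U C f)
    (hg : U C g) : U C (fun N A a => SC.tsetS (f N A a) (g N A a)) := by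
  unfold SC.tsetS
  refine U.natrec (z := fun _ _ _ => {∅}) (S := fun N A a _ g => ZFSet.prod (f N A a) g)
    (H := fun N A a n => tset (f N A a) n) (by apply_rules (transparency := .reducible) (maxDepth := 400) using is_poly) ?_ (fun _ _ _ => rfl)
    (fun _ _ _ _ => rfl) hg
  apply_rules (transparency := .reducible) (maxDepth := 400) using is_poly
  exact hf.comp (by apply_rules (transparency := .reducible) (maxDepth := 400) using is_poly)

/-- all tuples of elements of `X` -/
noncomputable def tuples (X : ZFSet.{u}) : ZFSet.{u} :=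
  ZFSet.iUnion (fun n : ULift.{u} ℕ => tset X n.down)

theorem mem_tuples {X e : ZFSet.{u}} : e ∈ tuples X ↔ ∃ (k : ℕ) (v : Fin k → ZFSet.{u}),
    (∀ i, v i ∈ X) ∧ e = tup v := by
  unfold tuples
  rw [mem_iUnion]
  constructor
  · rintro ⟨⟨k⟩, h⟩
    exact ⟨k, mem_tset.1 h⟩
  · rintro ⟨k, h⟩
    exact ⟨⟨k⟩, mem_tset.2 h⟩

theorem U.tuples [ZCls C] {f : Set ZFSet.{u} → Set ZFSet.{u} → α → ZFSet.{u}} (hf : U C f) :
    U C (fun N A a => SC.tuples (f N A a)) := by
  unfold SC.tuples
  refine U.natUnion (z := fun _ _ _ => {∅}) (S := fun N A a _ g => ZFSet.prod (f N A a) g)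
    (H := fun N A a n => tset (f N A a) n) (by apply_rules (transparency := .reducible) (maxDepth := 400) using is_poly) ?_ (fun _ _ _ => rfl)
    (fun _ _ _ _ => rfl)
  apply_rules (transparency := .reducible) (maxDepth := 400) using is_poly
  exact hf.comp (by apply_rules (transparency := .reducible) (maxDepth := 400) using is_poly)

attribute [is_poly] U.tsetS U.tuples

/-! ### Codes of formulas -/

/-- general form of a code -/
noncomputable def mkc (k t x y : ZFSet.{u}) : ZFSet.{u} :=
  ZFSet.pair k (ZFSet.pair t (ZFSet.pair x y))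

noncomputable def ck (c : ZFSet.{u}) : ZFSet.{u} := pfst c
noncomputable def ct (c : ZFSet.{u}) : ZFSet.{u} := pfst (psnd c)
noncomputable def cx (c : ZFSet.{u}) : ZFSet.{u} := pfst (psnd (psnd c))
noncomputable def cy (c : ZFSet.{u}) : ZFSet.{u} := psnd (psnd (psnd c))

@[simp] theorem ck_mkc {k t x y : ZFSet.{u}} : ck (mkc k t x y) = k := by simp [ck, mkc]
@[simp] theorem ct_mkc {k t x y : ZFSet.{u}} : ct (mkc k t x y) = t := by simp [ct, mkc]
@[simp] theorem cx_mkc {k t x y : ZFSet.{u}} : cx (mkc k t x y) = x := by simp [cx, mkc]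
@[simp] theorem cy_mkc {k t x y : ZFSet.{u}} : cy (mkc k t x y) = y := by simp [cy, mkc]

theorem mkc_inj {k t x y k' t' x' y' : ZFSet.{u}} :
    mkc k t x y = mkc k' t' x' y' ↔ k = k' ∧ t = t' ∧ x = x' ∧ y = y' := by
  simp [mkc, pair_inj]

theorem U.mkc [ZCls C] {f g h k : Set ZFSet.{u} → Set ZFSet.{u} → α → ZFSet.{u}} (hf : U C f)
    (hg : U C g) (hh : U C h) (hk : U C k) :
    U C (fun N A a => SC.mkc (f N A a) (g N A a) (h N A a) (k N A a)) := by
  unfold SC.mkc; apply_rules (transparency := .reducible) (maxDepth := 400) using is_poly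

theorem U.ck [ZCls C] {f : Set ZFSet.{u} → Set ZFSet.{u} → α → ZFSet.{u}} (hf : U C f) :
    U C (fun N A a => SC.ck (f N A a)) := by unfold SC.ck; apply_rules (transparency := .reducible) (maxDepth := 400) using is_poly
theorem U.ct [ZCls C] {f : Set ZFSet.{u} → Set ZFSet.{u} → α → ZFSet.{u}} (hf : U C f) :
    U C (fun N A a => SC.ct (f N A a)) := by unfold SC.ct; apply_rules (transparency := .reducible) (maxDepth := 400) using is_poly
theorem U.cx [ZCls C] {f : Set ZFSet.{u} → Set ZFSet.{u} → α → ZFSet.{u}} (hf : U C f) :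
    U C (fun N A a => SC.cx (f N A a)) := by unfold SC.cx; apply_rules (transparency := .reducible) (maxDepth := 400) using is_poly
theorem U.cy [ZCls C] {f : Set ZFSet.{u} → Set ZFSet.{u} → α → ZFSet.{u}} (hf : U C f) :
    U C (fun N A a => SC.cy (f N A a)) := by unfold SC.cy; apply_rules (transparency := .reducible) (maxDepth := 400) using is_poly

attribute [is_poly] U.mkc U.ck U.ct U.cx U.cy

/-- the code of a formula -/
noncomputable def code : {k : ℕ} → Fml k → ZFSet.{u}
  | k, .mem i j => mkc (nat k) (nat 0) (nat i) (nat j)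
  | k, .eq i j => mkc (nat k) (nat 1) (nat i) (nat j)
  | k, .pr i => mkc (nat k) (nat 2) (nat i) ∅
  | k, .neg φ => mkc (nat k) (nat 3) (code φ) ∅
  | k, .and φ ψ => mkc (nat k) (nat 4) (code φ) (code ψ)
  | k, .ex φ => mkc (nat k) (nat 5) (code φ) ∅

@[simp] theorem ck_code {k : ℕ} (φ : Fml k) : (ck (code φ) : ZFSet.{u}) = nat k := by
  cases φ <;> simp [code]

theorem rank_lt_mkc {k t x y : ZFSet.{u}} : ZFSet.rank x < ZFSet.rank (mkc k t x y) ∧
    ZFSet.rank y < ZFSet.rank (mkc k t x y) := by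
  have h : ∀ a b : ZFSet.{u}, ZFSet.rank a < ZFSet.rank (ZFSet.pair a b) ∧
      ZFSet.rank b < ZFSet.rank (ZFSet.pair a b) := by
    intro a b
    constructor
    · exact (rank_lt_of_mem (show a ∈ ({a, b} : ZFSet.{u}) by simp)).trans
        (rank_lt_of_mem (by simp [ZFSet.pair]))
    · exact (rank_lt_of_mem (show b ∈ ({a, b} : ZFSet.{u}) by simp)).trans
        (rank_lt_of_mem (by simp [ZFSet.pair]))
  unfold mkc
  exact ⟨(h x y).1.trans ((h t _).2.trans (h k _).2), (h x y).2.trans ((h t _).2.trans (h k _).2)⟩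

/-! ### Satisfaction -/

/-- predecessors of a code -/
noncomputable def satP (c : ZFSet.{u}) : ZFSet.{u} :=
  ZFSet.sep (fun y => rk y ∈ rk c) {cx c, cy c}

theorem rk_mem_rk {x y : ZFSet.{u}} : rk x ∈ rk y ↔ ZFSet.rank x < ZFSet.rank y := by
  rw [rk, rk, Ordinal.toZFSet_mem_toZFSet_iff]

open Classical in
/-- the recursion step -/
noncomputable def satF (X a c g : ZFSet.{u}) : ZFSet.{u} :=
  if ct c = nat 0 then ZFSet.sep (fun e => nth e (cx c) ∈ nth e (cy c)) (tsetS X (ck c)) else
  if ct c = nat 1 then ZFSet.sep (fun e => nth e (cx c) = nth e (cy c)) (tsetS X (ck c)) else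
  if ct c = nat 2 then ZFSet.sep (fun e => nth e (cx c) ∈ a) (tsetS X (ck c)) else
  if ct c = nat 3 then tsetS X (ck c) \ app g (cx c) else
  if ct c = nat 4 then app g (cx c) ∩ app g (cy c) else
  ZFSet.sep (fun e => ∃ x ∈ X, ZFSet.pair x e ∈ app g (cx c)) (tsetS X (ck c))

/-- the set of tuples of elements of `X` satisfying the formula coded by `c` in `(X, ∈, a)` -/
noncomputable def satS (X a c : ZFSet.{u}) : ZFSet.{u} := rrec (satF X a) satP c

theorem U.satF [ZCls C] :
    U C (fun _ _ (p : (ZFSet.{u} × ZFSet.{u}) × (ZFSet.{u} × ZFSet.{u})) =>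
      SC.satF p.1.1 p.1.2 p.2.1 p.2.2) := by
  unfold SC.satF
  refine U.ite (by apply_rules (transparency := .reducible) (maxDepth := 400) using is_poly) (by apply_rules (transparency := .reducible) (maxDepth := 400) using is_poly) ?_
  refine U.ite (by apply_rules (transparency := .reducible) (maxDepth := 400) using is_poly) (by apply_rules (transparency := .reducible) (maxDepth := 400) using is_poly) ?_
  refine U.ite (by apply_rules (transparency := .reducible) (maxDepth := 400) using is_poly) (by apply_rules (transparency := .reducible) (maxDepth := 400) using is_poly) ?_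
  refine U.ite (by apply_rules (transparency := .reducible) (maxDepth := 400) using is_poly) (by apply_rules (transparency := .reducible) (maxDepth := 400) using is_poly) ?_
  refine U.ite (by apply_rules (transparency := .reducible) (maxDepth := 400) using is_poly) (by apply_rules (transparency := .reducible) (maxDepth := 400) using is_poly) ?_
  apply_rules (transparency := .reducible) (maxDepth := 400) using is_poly

theorem U.satS [ZCls C] {f g h : Set ZFSet.{u} → Set ZFSet.{u} → α → ZFSet.{u}} (hf : U C f)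
    (hg : U C g) (hh : U C h) :
    U C (fun N A a => SC.satS (f N A a) (g N A a) (h N A a)) := by
  unfold SC.satS
  refine U.rrec (F := fun N A a c g' => SC.satF (f N A a) (g N A a) c g')
    (P := fun _ _ _ c => satP c) ?_ (by unfold satP; apply_rules (transparency := .reducible) (maxDepth := 400) using is_poly) ?_ hh
  · exact U.satF.comp (f := fun N A (p : (α × ZFSet.{u}) × ZFSet.{u}) =>
      ((f N A p.1.1, g N A p.1.1), (p.1.2, p.2))) (by
        apply_rules (transparency := .reducible) (maxDepth := 400) using is_poly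
        · exact hf.comp (by apply_rules (transparency := .reducible) (maxDepth := 400) using is_poly)
        · exact hg.comp (by apply_rules (transparency := .reducible) (maxDepth := 400) using is_poly))
  · intro N A _ a _ x _ y hy
    unfold satP at hy
    rw [mem_sep] at hy
    exact rk_mem_rk.1 hy.2

attribute [is_poly] U.satS

theorem satS_eq (X a c : ZFSet.{u}) : satS X a c = satF X a c (gr (satP c) (satS X a)) := by
  refine rrec_eq (fun y hy => ?_)
  unfold satP at hy
  rw [mem_sep] at hy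
  exact rk_mem_rk.1 hy.2

theorem app_satP {X a k t x y : ZFSet.{u}} :
    app (gr (satP (mkc k t x y)) (satS X a)) x = satS X a x ∧
    app (gr (satP (mkc k t x y)) (satS X a)) y = satS X a y := by
  constructor
  · refine app_gr ?_
    unfold satP
    rw [mem_sep]
    exact ⟨by simp, rk_mem_rk.2 rank_lt_mkc.1⟩
  · refine app_gr ?_
    unfold satP
    rw [mem_sep]
    exact ⟨by simp, rk_mem_rk.2 rank_lt_mkc.2⟩

theorem nat_ne {m n : ℕ} (h : m ≠ n) : (nat m : ZFSet.{u}) ≠ nat n := fun h' => h (nat_inj.1 h')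

/-- Correctness of `satS`. -/
theorem tup_mem_satS {X a : ZFSet.{u}} {A : Set ZFSet.{u}} (hA : ∀ x ∈ X, (x ∈ A ↔ x ∈ a))
    {k : ℕ} (φ : Fml k) (v : Fin k → ZFSet.{u}) :
    tup v ∈ satS X a (code φ) ↔ (∀ i, v i ∈ X) ∧ Sat {z | z ∈ X} A φ v := by
  induction φ with
  | mem i j =>
    rw [satS_eq]
    simp only [code, satF, ct_mkc, cx_mkc, cy_mkc, ck_mkc, if_true]
    rw [mem_sep, tsetS_nat, tup_mem_tset, nth_tup, nth_tup]
    rfl
  | eq i j =>
    rw [satS_eq]
    simp only [code, satF, ct_mkc, cx_mkc, cy_mkc, ck_mkc, nat_ne (show 1 ≠ 0 by decide),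
      if_false, if_true]
    rw [mem_sep, tsetS_nat, tup_mem_tset, nth_tup, nth_tup]
    rfl
  | pr i =>
    rw [satS_eq]
    simp only [code, satF, ct_mkc, cx_mkc, cy_mkc, ck_mkc, nat_ne (show 2 ≠ 0 by decide),
      nat_ne (show 2 ≠ 1 by decide), if_false, if_true]
    rw [mem_sep, tsetS_nat, tup_mem_tset, nth_tup]
    refine and_congr_right (fun hv => ?_)
    exact (hA _ (hv i)).symm
  | neg φ ih =>
    rw [satS_eq]
    simp only [code, satF, ct_mkc, cx_mkc, cy_mkc, ck_mkc, nat_ne (show 3 ≠ 0 by decide),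
      nat_ne (show 3 ≠ 1 by decide), nat_ne (show 3 ≠ 2 by decide), if_false, if_true]
    rw [mem_sdiff, tsetS_nat, tup_mem_tset, app_satP.1, ih]
    refine and_congr_right (fun hv => ?_)
    simp only [Sat]
    constructor
    · intro h h'
      exact h ⟨hv, h'⟩
    · rintro h ⟨_, h'⟩
      exact h h'
  | and φ ψ ih1 ih2 =>
    rw [satS_eq]
    simp only [code, satF, ct_mkc, cx_mkc, cy_mkc, ck_mkc, nat_ne (show 4 ≠ 0 by decide),
      nat_ne (show 4 ≠ 1 by decide), nat_ne (show 4 ≠ 2 by decide),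
      nat_ne (show 4 ≠ 3 by decide), if_false, if_true]
    rw [mem_inter, app_satP.1, app_satP.2, ih1, ih2]
    simp only [Sat]
    tauto
  | ex φ ih =>
    rw [satS_eq]
    simp only [code, satF, ct_mkc, cx_mkc, cy_mkc, ck_mkc, nat_ne (show 5 ≠ 0 by decide),
      nat_ne (show 5 ≠ 1 by decide), nat_ne (show 5 ≠ 2 by decide),
      nat_ne (show 5 ≠ 3 by decide), nat_ne (show 5 ≠ 4 by decide), if_false]
    rw [mem_sep, tsetS_nat, tup_mem_tset, app_satP.1]
    refine and_congr_right (fun hv => ?_)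
    simp only [Sat]
    refine exists_congr fun x => ?_
    constructor
    · rintro ⟨hx, h⟩
      rw [← tup_cons, ih] at h
      exact ⟨hx, h.2⟩
    · rintro ⟨hx, h⟩
      refine ⟨hx, ?_⟩
      rw [← tup_cons, ih]
      refine ⟨fun i => ?_, h⟩
      refine Fin.cases ?_ (fun i => ?_) i
      · exact hx
      · exact hv i

theorem satS_subset {X a : ZFSet.{u}} {k : ℕ} (φ : Fml k) : satS X a (code φ) ⊆ tset X k := by
  intro e he
  cases φ with
  | mem i j =>
    rw [satS_eq] at he
    simp only [code, satF, ct_mkc, cx_mkc, cy_mkc, ck_mkc, if_true] at he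
    rw [mem_sep, tsetS_nat] at he
    exact he.1
  | eq i j =>
    rw [satS_eq] at he
    simp only [code, satF, ct_mkc, cx_mkc, cy_mkc, ck_mkc, nat_ne (show 1 ≠ 0 by decide),
      if_false, if_true] at he
    rw [mem_sep, tsetS_nat] at he
    exact he.1
  | pr i =>
    rw [satS_eq] at he
    simp only [code, satF, ct_mkc, cx_mkc, cy_mkc, ck_mkc, nat_ne (show 2 ≠ 0 by decide),
      nat_ne (show 2 ≠ 1 by decide), if_false, if_true] at he
    rw [mem_sep, tsetS_nat] at he
    exact he.1
  | neg φ =>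
    rw [satS_eq] at he
    simp only [code, satF, ct_mkc, cx_mkc, cy_mkc, ck_mkc, nat_ne (show 3 ≠ 0 by decide),
      nat_ne (show 3 ≠ 1 by decide), nat_ne (show 3 ≠ 2 by decide), if_false, if_true] at he
    rw [mem_sdiff, tsetS_nat] at he
    exact he.1
  | and φ ψ =>
    rw [satS_eq] at he
    simp only [code, satF, ct_mkc, cx_mkc, cy_mkc, ck_mkc, nat_ne (show 4 ≠ 0 by decide),
      nat_ne (show 4 ≠ 1 by decide), nat_ne (show 4 ≠ 2 by decide),
      nat_ne (show 4 ≠ 3 by decide), if_false, if_true] at he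
    rw [mem_inter, app_satP.1] at he
    exact satS_subset φ he.1
  | ex φ =>
    rw [satS_eq] at he
    simp only [code, satF, ct_mkc, cx_mkc, cy_mkc, ck_mkc, nat_ne (show 5 ≠ 0 by decide),
      nat_ne (show 5 ≠ 1 by decide), nat_ne (show 5 ≠ 2 by decide),
      nat_ne (show 5 ≠ 3 by decide), nat_ne (show 5 ≠ 4 by decide), if_false] at he
    rw [mem_sep, tsetS_nat] at he
    exact he.1
termination_by sizeOf φ

end Pool.Agent.Helper22.SC
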